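import Pool.Agent.Helper878_dcs.Method2

/-!
# Instances in which all non-neighbourhoods of terminals are small or spread
-/

set_option autoImplicit false

namespace Pool.Agent.Helper878_dcs

open scoped Classical

/-- `Z` can be made connected by adding one, two or three vertices of `W`. -/
def Opt (G : SimpleGraph ℕ) (W Z : Finset ℕ) : Prop :=
  (∃ c ∈ W, ∀ z ∈ Z, ¬ miss G Z c z) ∨
    ∃ a ∈ W, ∃ b ∈ W, ∃ z ∈ Z, ∃ z' ∈ Z, ¬ near G Z z z' ∧ miss G Z a z ∧ ¬ miss G Z a z' ∧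
      miss G Z b z' ∧ ¬ miss G Z b z ∧ (G.Adj a b ∨
        (∃ z₃ ∈ Z, ¬ near G Z z z₃ ∧ ¬ near G Z z' z₃) ∨ ∃ l ∈ W, G.Adj a l ∧ G.Adj b l)

variable {G : SimpleGraph ℕ}

theorem Opt.mono {W W' Z : Finset ℕ} (h : W ⊆ W') (hO : Opt G W Z) : Opt G W' Z := by
  rcases hO with ⟨c, hc, h1⟩ | ⟨a, ha, b, hb, z, hz, z', hz', h1, h2, h3, h4, h5, h6⟩
  · exact Or.inl ⟨c, h hc, h1⟩
  · refine Or.inr ⟨a, h ha, b, h hb, z, hz, z', hz', h1, h2, h3, h4, h5, ?_⟩
    rcases h6 with h6 | h6 | ⟨l, hl, h7⟩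
    · exact Or.inl h6
    · exact Or.inr (Or.inl h6)
    · exact Or.inr (Or.inr ⟨l, h hl, h7⟩)

section
variable {U W Z : Finset ℕ}

theorem opt_serve (hK : KP G U) (hZU : Z ⊆ U) (hWU : W ⊆ U) (hne : Z.Nonempty) (hd : ¬ Con G Z)
    (hO : Opt G W Z) : ∃ o : Finset ℕ, o ⊆ W ∧ o.card ≤ 3 ∧ Con G (Z ∪ o) := by
  rcases hO with ⟨c, hc, h1⟩ | ⟨a, ha, b, hb, z, hz, z', hz', h1, h2, h3, h4, h5, h6⟩
  · exact ⟨{c}, by simpa using hc, by simp, con_single hne h1⟩
  · have hcov : ∀ x ∈ Z, ¬ miss G Z a x ∨ ¬ miss G Z b x := by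
      intro x hx
      by_contra hno
      push Not at hno
      by_cases n1 : near G Z z x
      · by_cases n2 : near G Z z' x
        · exact h1 (near_trans hK hZU hne hd hz hx hz' n1 (near_symm n2))
        · exact h5 (miss_all hK hZU hne hd (hWU hb) hz' hx n2 h4 hno.2 z hz)
      · exact h3 (miss_all hK hZU hne hd (hWU ha) hz hx n1 h2 hno.1 z' hz')
    have hsub2 : ({a, b} : Finset ℕ) ⊆ W := by
      intro v hv
      rw [Finset.mem_insert, Finset.mem_singleton] at hv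
      rcases hv with rfl | rfl <;> assumption
    rcases h6 with h6 | ⟨z3, hz3, n1, n2⟩ | ⟨l, hl, h7, h8⟩
    · exact ⟨{a, b}, hsub2, Finset.card_le_two.trans (by norm_num), con_pair hne hcov (Or.inl h6)⟩
    · refine ⟨{a, b}, hsub2, Finset.card_le_two.trans (by norm_num), con_pair hne hcov
        (Or.inr ⟨z3, hz3, fun m => ?_, fun m => ?_⟩)⟩
      · exact h3 (miss_all hK hZU hne hd (hWU ha) hz hz3 n1 h2 m z' hz')
      · exact h5 (miss_all hK hZU hne hd (hWU hb) hz' hz3 n2 h4 m z hz)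
    · refine ⟨{a, b, l}, ?_, Finset.card_le_three, con_triple hne (fun x hx => ?_) h7 h8⟩
      · intro v hv
        simp only [Finset.mem_insert, Finset.mem_singleton] at hv
        rcases hv with rfl | rfl | rfl <;> assumption
      · rcases hcov x hx with h | h
        · exact Or.inl h
        · exact Or.inr (Or.inl h)

theorem third_class (htr : ∀ a ∈ Z, ∀ b ∈ Z, ∀ c ∈ Z, near G Z a b → near G Z b c → near G Z a c)
    {z z0 : ℕ} (hz : z ∈ Z) (hz0 : z0 ∈ Z) (h : three G Z) :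
    ∃ z3 ∈ Z, ¬ near G Z z z3 ∧ ¬ near G Z z0 z3 := by
  obtain ⟨a, ha, b, hb, c, hc', nab, nac, nbc⟩ := h
  by_contra hno
  push Not at hno
  have hh : ∀ y ∈ Z, near G Z z y ∨ near G Z z0 y := fun y hy => by
    by_cases h' : near G Z z y
    · exact Or.inl h'
    · exact Or.inr (hno y hy h')
  have comb : ∀ t ∈ Z, ∀ u ∈ Z, ∀ v ∈ Z, near G Z t u → near G Z t v →
      near G Z u v := fun t ht u hu v hv h1 h2 =>
    htr u hu t ht v hv (near_symm h1) h2
  rcases hh a ha with h1 | h1 <;> rcases hh b hb with h2 | h2 <;>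
    rcases hh c hc' with h3 | h3
  · exact nab (comb z hz a ha b hb h1 h2)
  · exact nab (comb z hz a ha b hb h1 h2)
  · exact nac (comb z hz a ha c hc' h1 h3)
  · exact nbc (comb z0 hz0 b hb c hc' h2 h3)
  · exact nbc (comb z hz b hb c hc' h2 h3)
  · exact nac (comb z0 hz0 a ha c hc' h1 h3)
  · exact nab (comb z0 hz0 a ha b hb h1 h2)
  · exact nab (comb z0 hz0 a ha b hb h1 h2)

theorem opt_of_con (hK : KP G U) (hZU : Z ⊆ U) (hne : Z.Nonempty) (hd : ¬ Con G Z) {o : Finset ℕ}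
    (hoU : o ⊆ U) (hoZ : Disjoint Z o) (hcon : Con G (Z ∪ o)) : Opt G o Z := by
  by_cases hno : ∃ c ∈ o, ∀ z ∈ Z, ¬ miss G Z c z
  · exact Or.inl hno
  right
  push Not at hno
  have htr : ∀ a ∈ Z, ∀ b ∈ Z, ∀ c ∈ Z, near G Z a b → near G Z b c → near G Z a c :=
    fun a ha b hb c hc h1 h2 => near_trans hK hZU hne hd ha hb hc h1 h2
  have hsd : (Z ∪ o) \ Z = o := by
    rw [Finset.union_sdiff_left]
    exact Finset.sdiff_eq_self_of_disjoint hoZ.symm
  have sees : ∀ z ∈ Z, ∃ b ∈ o, ¬ miss G Z b z := by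
    intro z hz
    have := exists_sees hK hZU hne hd Finset.subset_union_left hcon hz
    rwa [hsd] at this
  obtain ⟨z, hz⟩ := hne
  have hne : Z.Nonempty := ⟨z, hz⟩
  by_cases h3 : three G Z
  · obtain ⟨b, hb, hbz⟩ := sees z hz
    obtain ⟨z', hz', mb⟩ := hno b hb
    obtain ⟨a, ha, haz⟩ := sees z' hz'
    obtain ⟨z'', hz'', ma⟩ := hno a ha
    have n1 : ¬ near G Z z'' z' := fun h => haz (miss_congr hK hZU hne hd hz'' hz' h ma)
    have hb2 : ¬ miss G Z b z'' := fun h =>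
      hbz (miss_all hK hZU hne hd (hoU hb) hz'' hz' n1 h mb z hz)
    exact ⟨a, ha, b, hb, z'', hz'', z', hz', n1, ma, haz, mb, hb2,
      Or.inr (Or.inl (third_class htr hz'' hz' h3))⟩
  · obtain ⟨z', hz', hzz'⟩ := exists_not_near hne hd z hz
    have hcl : ∀ x ∈ Z, ¬ near G Z z x → near G Z z' x := by
      intro x hx h
      by_contra h'
      exact h3 ⟨z, hz, z', hz', x, hx, hzz', h, h'⟩
    have hall : ∀ b ∈ (Z ∪ o) \ Z, ¬ miss G Z b z → ∃ z' ∈ Z, miss G Z b z' := by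
      rw [hsd]; exact fun b hb _ => hno b hb
    obtain ⟨b, hb, a, ha, hbz, haz, hab⟩ := exists_edge hK hZU hne hd Finset.subset_union_left
      hcon hz h3 hall
    rw [hsd] at ha hb
    have hsee : ∀ b ∈ o, ¬ miss G Z b z → miss G Z b z' := by
      intro b hb hbz
      obtain ⟨z1, hz1, hm⟩ := hno b hb
      by_cases h : near G Z z z1
      · exact absurd (miss_congr hK hZU hne hd hz1 hz (near_symm h) hm) hbz
      · exact miss_congr hK hZU hne hd hz1 hz' (near_symm (hcl z1 hz1 h)) hm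
    by_cases haz' : miss G Z a z'
    · -- `a` misses everything
      obtain ⟨a', ha', ha'z⟩ := sees z' hz'
      have ha'm : miss G Z a' z := by
        by_contra h
        exact ha'z (hsee a' ha' h)
      have haZ : a ∉ Z := fun h => Finset.disjoint_left.1 hoZ h ha
      have h1 := adj_of_miss_all hK hZU (hoU ha') (hoU ha) haZ hz hz' hzz'
        (fun x hx h h' => hzz' (htr z hz x hx z' hz' h (near_symm h'))) ha'm ha'z haz haz'
      exact ⟨a', ha', b, hb, z, hz, z', hz', hzz', ha'm, ha'z, hsee b hb hbz, hbz,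
        Or.inr (Or.inr ⟨a, ha, h1, hab.symm⟩)⟩
    · exact ⟨a, ha, b, hb, z, hz, z', hz', hzz', haz, haz', hsee b hb hbz, hbz, Or.inl hab⟩

theorem large_nonnbr (hK : KP G U) (hZU : Z ⊆ U) (hWU : W ⊆ U) (hne : Z.Nonempty)
    (hd : ¬ Con G Z) (hO : ¬ Opt G W Z) :
    ∃ t ∈ Z, W.card ≤ 2 * (W.filter fun w => ¬ G.Adj w t).card := by
  have n1 : ∀ c ∈ W, ∃ z ∈ Z, miss G Z c z := by
    intro c hc
    by_contra h
    push Not at h
    exact hO (Or.inl ⟨c, hc, h⟩)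
  have hle : ∀ z ∈ Z, (W.filter fun w => miss G Z w z).card ≤
      (W.filter fun w => ¬ G.Adj w z).card := by
    intro z hz
    refine Finset.card_le_card ?_
    intro w hw
    rw [Finset.mem_filter] at hw ⊢
    exact ⟨hw.1, miss_self hz hw.2⟩
  obtain ⟨z, hz⟩ := hne
  have hne : Z.Nonempty := ⟨z, hz⟩
  by_cases hall : ∀ w ∈ W, miss G Z w z
  · refine ⟨z, hz, ?_⟩
    have h1 := hle z hz
    rw [Finset.filter_true_of_mem hall] at h1
    omega
  push Not at hall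
  obtain ⟨b, hb, hbz⟩ := hall
  obtain ⟨z1, hz1, mb⟩ := n1 b hb
  by_cases hall : ∀ w ∈ W, miss G Z w z1
  · refine ⟨z1, hz1, ?_⟩
    have h1 := hle z1 hz1
    rw [Finset.filter_true_of_mem hall] at h1
    omega
  push Not at hall
  obtain ⟨a, ha, haz⟩ := hall
  obtain ⟨z2, hz2, ma⟩ := n1 a ha
  have n12 : ¬ near G Z z2 z1 := fun h => haz (miss_congr hK hZU hne hd hz2 hz1 h ma)
  have hb2 : ¬ miss G Z b z2 := fun h =>
    hbz (miss_all hK hZU hne hd (hWU hb) hz2 hz1 n12 h mb z hz)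
  have hno3 : ∀ x ∈ Z, near G Z z2 x ∨ near G Z z1 x := by
    intro x hx
    by_contra h
    push Not at h
    exact hO (Or.inr ⟨a, ha, b, hb, z2, hz2, z1, hz1, n12, ma, haz, mb, hb2,
      Or.inr (Or.inl ⟨x, hx, h.1, h.2⟩)⟩)
  have hsub : W ⊆ (W.filter fun w => miss G Z w z1) ∪ (W.filter fun w => miss G Z w z2) := by
    intro w hw
    rw [Finset.mem_union, Finset.mem_filter, Finset.mem_filter]
    obtain ⟨x, hx, mx⟩ := n1 w hw
    rcases hno3 x hx with h | h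
    · exact Or.inr ⟨hw, miss_congr hK hZU hne hd hx hz2 (near_symm h) mx⟩
    · exact Or.inl ⟨hw, miss_congr hK hZU hne hd hx hz1 (near_symm h) mx⟩
  have h1 := (Finset.card_le_card hsub).trans (Finset.card_union_le _ _)
  have h2 := hle z1 hz1
  have h3 := hle z2 hz2
  by_cases h : (W.filter fun w => miss G Z w z1).card ≤ (W.filter fun w => miss G Z w z2).card
  · exact ⟨z2, hz2, by omega⟩
  · exact ⟨z1, hz1, by omega⟩

end

/-- the non-neighbours of `t` in `W` -/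
noncomputable def NN (G : SimpleGraph ℕ) (W : Finset ℕ) (t : ℕ) : Finset ℕ :=
  W.filter fun w => ¬ G.Adj w t

/-- the non-neighbours of `w` among the non-neighbours of `t` -/
noncomputable def cls (G : SimpleGraph ℕ) (W : Finset ℕ) (t w : ℕ) : Finset ℕ :=
  (NN G W t).filter fun x => ¬ G.Adj x w

/-- representatives of the classes -/
noncomputable def reps (G : SimpleGraph ℕ) (W : Finset ℕ) (t : ℕ) : Finset ℕ :=
  (NN G W t).filter fun w => ∀ x ∈ NN G W t, x < w → G.Adj x w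

section
variable {U W : Finset ℕ}

theorem nonadj_trans (hK : KP G U) (hWU : W ⊆ U) {t : ℕ} (ht : t ∈ U) (htW : t ∉ W) {x y z : ℕ}
    (hx : x ∈ NN G W t) (hy : y ∈ NN G W t) (hz : z ∈ NN G W t) (h1 : ¬ G.Adj x y)
    (h2 : ¬ G.Adj y z) : ¬ G.Adj x z := by
  unfold NN at hx hy hz
  rw [Finset.mem_filter] at hx hy hz
  intro h
  exact hy.2 (hK x (hWU hx.1) z (hWU hz.1) y (hWU hy.1) t ht h h1 (fun h' => h2 h'.symm) hx.2 hz.2
    (fun h' => htW (h' ▸ hy.1)))

theorem exists_rep (hK : KP G U) (hWU : W ⊆ U) {t : ℕ} (ht : t ∈ U) (htW : t ∉ W) {w : ℕ}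
    (hw : w ∈ NN G W t) : ∃ r ∈ reps G W t, w ∈ cls G W t r := by
  obtain ⟨r, hrm, hmin⟩ : ∃ r, (r ∈ NN G W t ∧ ¬ G.Adj r w) ∧
      ∀ x, x ∈ NN G W t → ¬ G.Adj x w → r ≤ x := by
    have hex : ∃ r, r ∈ NN G W t ∧ ¬ G.Adj r w := ⟨w, hw, G.loopless.irrefl w⟩
    exact ⟨Nat.find hex, Nat.find_spec hex, fun x h1 h2 => Nat.find_min' hex ⟨h1, h2⟩⟩
  refine ⟨r, ?_, ?_⟩
  · unfold reps
    rw [Finset.mem_filter]
    refine ⟨hrm.1, fun x hx hxr => ?_⟩
    by_contra hadj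
    have h1 : ¬ G.Adj x w := nonadj_trans hK hWU ht htW hx hrm.1 hw hadj hrm.2
    have := hmin x hx h1
    omega
  · unfold cls
    rw [Finset.mem_filter]
    exact ⟨hw, fun h => hrm.2 h.symm⟩

theorem reps_clique {t : ℕ} : ∀ x ∈ reps G W t, ∀ y ∈ reps G W t, x ≠ y → G.Adj x y := by
  intro x hx y hy hxy
  unfold reps at hx hy
  rw [Finset.mem_filter] at hx hy
  rcases Nat.lt_or_gt_of_ne hxy with h | h
  · exact hy.2 x hx.1 h
  · exact (hx.2 y hy.1 h).symm

theorem cls_indep (hK : KP G U) (hWU : W ⊆ U) {t : ℕ} (ht : t ∈ U) (htW : t ∉ W) {w : ℕ}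
    (hw : w ∈ NN G W t) : ∀ x ∈ cls G W t w, ∀ y ∈ cls G W t w, ¬ G.Adj x y := by
  intro x hx y hy
  unfold cls at hx hy
  rw [Finset.mem_filter] at hx hy
  exact nonadj_trans hK hWU ht htW hx.1 hw hy.1 hx.2 (fun h => hy.2 h.symm)

end

section family
variable {ι : Type} [Fintype ι] [DecidableEq ι] {U W : Finset ℕ} {Z : ι → Finset ℕ} {k : ℕ}

theorem one_big (hC : Ctx G U W Z) {i j : ι} (hij : i ≠ j) {t : ℕ} (ht : t ∈ Z i)
    {R : Finset ℕ} (hO : ¬ Opt G (W \ R) (Z j)) {r₁ r₂ : ℕ} (hr₁ : r₁ ∈ reps G W t)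
    (hr₂ : r₂ ∈ reps G W t) (h12 : r₁ ≠ r₂) (b₁ : 3 ≤ (cls G W t r₁ \ R).card)
    (b₂ : 3 ≤ (cls G W t r₂ \ R).card) : False := by
  have htU : t ∈ U := hC.hZ i ht
  have htW : t ∉ W := Finset.disjoint_left.1 (hC.hZW i) ht
  have hrN : ∀ r ∈ reps G W t, r ∈ NN G W t := fun r hr => (Finset.mem_filter.1 hr).1
  have hNW : ∀ x ∈ NN G W t, x ∈ W ∧ ¬ G.Adj x t := fun x hx => Finset.mem_filter.1 hx
  have hcN : ∀ r, ∀ x ∈ cls G W t r \ R, x ∈ NN G W t ∧ ¬ G.Adj x r ∧ x ∉ R := fun r x hx => by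
    rw [Finset.mem_sdiff] at hx
    have := Finset.mem_filter.1 hx.1
    exact ⟨this.1, this.2, hx.2⟩
  -- every big class is on for `j`
  have hon : ∀ r ∈ reps G W t, 3 ≤ (cls G W t r \ R).card →
      ∃ z, onA G (cls G W t r \ R) (Z j) z := by
    intro r hr hb
    by_contra hno
    push Not at hno
    have hQW : cls G W t r \ R ⊆ W := fun x hx => (hNW x (hcN r x hx).1).1
    obtain ⟨o, ho1, _, _, ho4⟩ := off_serve hC.hK (hQW.trans hC.hW)
      (fun x hx y hy => cls_indep hC.hK hC.hW htU htW (hrN r hr) x (Finset.mem_sdiff.1 hx).1 y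
        (Finset.mem_sdiff.1 hy).1) (by omega) (hC.hZ j) (hC.hne j) (hC.hdc j) hno ∅
      (by rw [Finset.card_empty]; omega)
    have hoW : o ⊆ W \ R := fun x hx => Finset.mem_sdiff.2
      ⟨hQW (ho1 hx), (hcN r x (ho1 hx)).2.2⟩
    refine hO (Opt.mono hoW (opt_of_con hC.hK (hC.hZ j) (hC.hne j) (hC.hdc j)
      ((ho1.trans hQW).trans hC.hW) ((hC.hZW j).mono_right (ho1.trans hQW)) ho4))
  obtain ⟨z₁, o₁⟩ := hon r₁ hr₁ b₁
  obtain ⟨z₂, o₂⟩ := hon r₂ hr₂ b₂
  -- vertices of different classes are adjacent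
  have hcross : ∀ x ∈ cls G W t r₁ \ R, ∀ y ∈ cls G W t r₂ \ R, G.Adj x y := by
    intro x hx y hy
    have hx' := hcN _ _ hx
    have hy' := hcN _ _ hy
    by_contra h
    have h1 := nonadj_trans hC.hK hC.hW htU htW (hrN _ hr₁) hx'.1 hy'.1 (fun h => hx'.2.1 h.symm) h
    exact nonadj_trans hC.hK hC.hW htU htW (hrN _ hr₁) hy'.1 (hrN _ hr₂) h1 hy'.2.1
      (reps_clique r₁ hr₁ r₂ hr₂ h12)
  have htne : ∀ z ∈ Z j, t ≠ z := fun z hz h =>
    Finset.disjoint_left.1 (hC.hdis i j hij) ht (h ▸ hz)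
  -- nothing of `Z j` avoids both classes
  have hnot : ∀ z ∈ Z j, Qp G (cls G W t r₁ \ R) z → Qp G (cls G W t r₂ \ R) z → False := by
    intro z hz q1 q2
    obtain ⟨x, hx, x', hx', hxx'⟩ := Finset.one_lt_card.1 (show 1 < _ by omega : 1 <
      (cls G W t r₁ \ R).card)
    obtain ⟨y, hy⟩ : (cls G W t r₂ \ R).Nonempty := Finset.card_pos.1 (by omega)
    have ex := hcN _ _ hx
    have ex' := hcN _ _ hx'
    have ey := hcN _ _ hy
    have hxU := hC.hW (hNW x ex.1).1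
    have hx'U := hC.hW (hNW x' ex'.1).1
    have hyU := hC.hW (hNW y ey.1).1
    have htz : G.Adj t z := hC.hK x hxU y hyU t htU z (hC.hZ j hz) (hcross x hx y hy)
      (hNW x ex.1).2 (hNW y ey.1).2 (fun h => q1 x hx h.symm) (fun h => q2 y hy h.symm)
      (htne z hz)
    have hxx'a : G.Adj x x' := hC.hK t htU z (hC.hZ j hz) x hxU x' hx'U htz
      (fun h => (hNW x ex.1).2 h.symm) (q1 x hx) (fun h => (hNW x' ex'.1).2 h.symm) (q1 x' hx')
      hxx'
    exact cls_indep hC.hK hC.hW htU htW (hrN _ hr₁) x (Finset.mem_sdiff.1 hx).1 x'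
      (Finset.mem_sdiff.1 hx').1 hxx'a
  have e1 : ∃ y ∈ cls G W t r₂ \ R, G.Adj z₁ y := by
    by_contra h
    push Not at h
    exact hnot z₁ o₁.1 o₁.2.1 h
  have e2 : ∃ x ∈ cls G W t r₁ \ R, G.Adj z₂ x := by
    by_contra h
    push Not at h
    exact hnot z₂ o₂.1 h o₂.2.1
  obtain ⟨y, hy, hz1y⟩ := e1
  obtain ⟨x, hx, hz2x⟩ := e2
  have iso : ∀ z ∈ Z j, (∀ z' ∈ Z j, ¬ G.Adj z z') → ∀ z', near G (Z j) z z' → z' ∈ Z j →
      z' = z := by
    intro z _ hi z' hn hz'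
    rcases hn with h | h | ⟨p, hp, h, _⟩
    · exact h.symm
    · exact absurd h (hi z' hz')
    · exact absurd h (hi p hp)
  have hz12 : z₁ ≠ z₂ := fun h => o₁.2.1 x hx (h ▸ hz2x)
  have hmem : ∀ r, ∀ x ∈ cls G W t r \ R, x ∈ W \ R := fun r x hx =>
    Finset.mem_sdiff.2 ⟨(hNW x (hcN r x hx).1).1, (hcN r x hx).2.2⟩
  refine hO (Or.inr ⟨x, hmem _ x hx, y, hmem _ y hy, z₁, o₁.1, z₂, o₂.1, ?_, ?_, ?_, ?_, ?_,
    Or.inl (hcross x hx y hy)⟩)
  · intro h
    exact hz12 (iso z₁ o₁.1 o₁.2.2 z₂ h o₂.1).symm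
  · intro z' hz' hn
    rw [iso z₁ o₁.1 o₁.2.2 z' hn hz']
    exact fun h => o₁.2.1 x hx h.symm
  · intro hm
    exact miss_self o₂.1 hm hz2x.symm
  · intro z' hz' hn
    rw [iso z₂ o₂.1 o₂.2.2 z' hn hz']
    exact fun h => o₂.2.1 y hy h.symm
  · intro hm
    exact miss_self o₁.1 hm hz1y.symm

theorem card_NN_le (hC : Ctx G U W Z) {i j : ι} (hij : i ≠ j) {t : ℕ} (ht : t ∈ Z i)
    {R : Finset ℕ} (hO : ¬ Opt G (W \ R) (Z j)) {c : ℕ}
    (hcls : ∀ w ∈ NN G W t, (cls G W t w).card ≤ c) :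
    (NN G W t).card ≤ R.card + (c + 2 * (reps G W t).card) := by
  have htU : t ∈ U := hC.hZ i ht
  have htW : t ∉ W := Finset.disjoint_left.1 (hC.hZW i) ht
  have hsub : NN G W t ⊆ R ∪ (reps G W t).biUnion fun r => cls G W t r \ R := by
    intro x hx
    rw [Finset.mem_union]
    by_cases hxR : x ∈ R
    · exact Or.inl hxR
    · obtain ⟨r, hr, hxr⟩ := exists_rep hC.hK hC.hW htU htW hx
      exact Or.inr (Finset.mem_biUnion.2 ⟨r, hr, Finset.mem_sdiff.2 ⟨hxr, hxR⟩⟩)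
  have h1 := (Finset.card_le_card hsub).trans (Finset.card_union_le _ _)
  have h2 : ((reps G W t).biUnion fun r => cls G W t r \ R).card ≤
      c + 2 * (reps G W t).card := by
    by_cases hbig : ∃ r₀ ∈ reps G W t, 3 ≤ (cls G W t r₀ \ R).card
    · obtain ⟨r₀, hr₀, hb₀⟩ := hbig
      have h3 := Finset.card_biUnion_le (s := reps G W t) (t := fun r => cls G W t r \ R)
      have h4 : ∑ r ∈ reps G W t, (cls G W t r \ R).card ≤
          (cls G W t r₀ \ R).card + ∑ r ∈ (reps G W t).erase r₀, (cls G W t r \ R).card := by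
        rw [← Finset.add_sum_erase _ _ hr₀]
      have h5 : ∑ r ∈ (reps G W t).erase r₀, (cls G W t r \ R).card ≤
          ((reps G W t).erase r₀).card • 2 := by
        refine Finset.sum_le_card_nsmul _ _ _ ?_
        intro r hr
        rw [Finset.mem_erase] at hr
        by_contra h
        exact one_big hC hij ht hO hr.2 hr₀ hr.1 (by omega) hb₀
      have h6 := Finset.card_erase_le (s := reps G W t) (a := r₀)
      have h7 : (cls G W t r₀ \ R).card ≤ c :=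
        (Finset.card_le_card Finset.sdiff_subset).trans
          (hcls r₀ (Finset.mem_filter.1 hr₀).1)
      simp only [smul_eq_mul] at h5
      omega
    · push Not at hbig
      have h3 := Finset.card_biUnion_le_card_mul (reps G W t) (fun r => cls G W t r \ R) 2
        (fun r hr => by have := hbig r hr; omega)
      omega
  omega

theorem final_suf (hC : Ctx G U W Z) (hk : 1 ≤ k) (hcard : Fintype.card ι ≤ k)
    (hWk : 49 * k ≤ W.card) (hreps : ∀ i, ∀ t ∈ Z i, (reps G W t).card < 9 * k)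
    (hcls : ∀ i, ∀ t ∈ Z i, ∀ w ∈ NN G W t, (cls G W t w).card < 2 * k + 1)
    (hO : ∀ i, Opt G W (Z i)) : Feas G W Z := by
  -- at most one index is not robust
  have huniq : ∀ i j : ι, (∃ R : Finset ℕ, R.card ≤ 3 * (k - 1) ∧ ¬ Opt G (W \ R) (Z i)) →
      (∃ R : Finset ℕ, R.card ≤ 3 * (k - 1) ∧ ¬ Opt G (W \ R) (Z j)) → i = j := by
    rintro i j ⟨R, hR, hRO⟩ ⟨R', hR', hRO'⟩
    by_contra hij
    obtain ⟨t, ht, h1⟩ := large_nonnbr hC.hK (hC.hZ i)
      (Finset.sdiff_subset.trans hC.hW) (hC.hne i) (hC.hdc i) hRO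
    have h2 : ((W \ R).filter fun w => ¬ G.Adj w t).card ≤ (NN G W t).card := by
      refine Finset.card_le_card ?_
      intro w hw
      rw [Finset.mem_filter, Finset.mem_sdiff] at hw
      exact Finset.mem_filter.2 ⟨hw.1.1, hw.2⟩
    have h3 := card_NN_le hC hij ht hRO' (c := 2 * k) (fun w hw => by
      have := hcls i t ht w hw
      omega)
    have h4 := hreps i t ht
    have h5 := Finset.le_card_sdiff R W
    omega
  have serve : ∀ i, ∀ R : Finset ℕ, Opt G (W \ R) (Z i) →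
      ∃ o : Finset ℕ, Disjoint o R ∧ o.card ≤ 3 ∧ o ⊆ W ∧ Con G (Z i ∪ o) := by
    intro i R h
    obtain ⟨o, h1, h2, h3⟩ := opt_serve hC.hK (hC.hZ i) (Finset.sdiff_subset.trans hC.hW)
      (hC.hne i) (hC.hdc i) h
    refine ⟨o, ?_, h2, h1.trans Finset.sdiff_subset, h3⟩
    rw [Finset.disjoint_left]
    intro x hx
    exact (Finset.mem_sdiff.1 (h1 hx)).2
  by_cases hbad : ∃ i, ∃ R : Finset ℕ, R.card ≤ 3 * (k - 1) ∧ ¬ Opt G (W \ R) (Z i)
  · obtain ⟨i₀, hi₀⟩ := hbad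
    obtain ⟨o₀, h1, h2, h3, h4⟩ := serve i₀ ∅ (by rw [Finset.sdiff_empty]; exact hO i₀)
    have hc : (Finset.univ.erase i₀).card + 1 = Fintype.card ι := by
      rw [Finset.card_erase_add_one (Finset.mem_univ _), Finset.card_univ]
    obtain ⟨e, he1, he2⟩ := seq_choice (Finset.univ.erase i₀) 3
      (fun i s => s ⊆ W ∧ Con G (Z i ∪ s)) o₀ (by
        intro i hi R _ hRc
        have h5 : 1 ≤ (Finset.univ.erase i₀).card := Finset.card_pos.2 ⟨i, hi⟩
        have h6 : Opt G (W \ R) (Z i) := by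
          by_contra h
          exact (Finset.mem_erase.1 hi).1 (huniq i i₀ ⟨R, by omega, h⟩ hi₀)
        obtain ⟨o, a1, a2, a3, a4⟩ := serve i R h6
        exact ⟨o, a1, a2, a3, a4⟩)
    refine ⟨fun i => if i = i₀ then o₀ else e i, ?_, ?_⟩
    · intro i
      by_cases hi : i = i₀
      · subst hi
        simpa using ⟨h3, h4⟩
      · simp only [hi, if_false]
        exact (he1 i (Finset.mem_erase.2 ⟨hi, Finset.mem_univ _⟩)).1
    · intro i j hij
      by_cases hi : i = i₀ <;> by_cases hj : j = i₀ <;> simp only [hi, hj, if_true, if_false]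
      · exact absurd (hi.trans hj.symm) hij
      · exact ((he1 j (Finset.mem_erase.2 ⟨hj, Finset.mem_univ _⟩)).2.2).symm
      · exact (he1 i (Finset.mem_erase.2 ⟨hi, Finset.mem_univ _⟩)).2.2
      · exact he2 i (Finset.mem_erase.2 ⟨hi, Finset.mem_univ _⟩) j
          (Finset.mem_erase.2 ⟨hj, Finset.mem_univ _⟩) hij
  · push Not at hbad
    obtain ⟨e, he1, he2⟩ := seq_choice (Finset.univ : Finset ι) 3
      (fun i s => s ⊆ W ∧ Con G (Z i ∪ s)) ∅ (by
        intro i hi R _ hRc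
        have h5 : 1 ≤ (Finset.univ : Finset ι).card := Finset.card_pos.2 ⟨i, hi⟩
        rw [Finset.card_empty] at hRc
        rw [Finset.card_univ] at hRc h5
        obtain ⟨o, a1, a2, a3, a4⟩ := serve i R (hbad i R (by omega))
        exact ⟨o, a1, a2, a3, a4⟩)
    exact ⟨e, fun i => (he1 i (Finset.mem_univ _)).1,
      fun i j hij => he2 i (Finset.mem_univ _) j (Finset.mem_univ _) hij⟩

theorem final_nec (hC : Ctx G U W Z) (hF : Feas G W Z) : ∀ i, Opt G W (Z i) := by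
  obtain ⟨o, ho, _⟩ := hF
  intro i
  exact Opt.mono (ho i).1 (opt_of_con hC.hK (hC.hZ i) (hC.hne i) (hC.hdc i)
    ((ho i).1.trans hC.hW) ((hC.hZW i).mono_right (ho i).1) (ho i).2)

end family

end Pool.Agent.Helper878_dcs
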