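import Pool.Agent.Helper878_dcs.Basic

/-!
# Families: feasibility, assignments and sequential choice
-/

set_option autoImplicit false

namespace Pool.Agent.Helper878_dcs

/-- The instance (all `Z i` are disconnected, `W` is the set of free vertices) can be solved. -/
def Feas (G : SimpleGraph ℕ) (W : Finset ℕ) {ι : Type} (Z : ι → Finset ℕ) : Prop :=
  ∃ o : ι → Finset ℕ, (∀ i, o i ⊆ W ∧ Con G (Z i ∪ o i)) ∧ ∀ i j, i ≠ j → Disjoint (o i) (o j)

/-- Every index of `Hd` gets a vertex or an edge, all disjoint. -/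
def Assign {ι : Type} (Hd : Finset ι) (P : ι → ℕ → Prop) (E : ℕ → ℕ → Prop) : Prop :=
  ∃ g : ι → Finset ℕ, (∀ i ∈ Hd, ∀ j ∈ Hd, i ≠ j → Disjoint (g i) (g j)) ∧
    ∀ i ∈ Hd, (∃ w, g i = {w} ∧ P i w) ∨ ∃ w w', w ≠ w' ∧ g i = {w, w'} ∧ E w w'

/-- The standing assumptions. -/
structure Ctx (G : SimpleGraph ℕ) (U W : Finset ℕ) {ι : Type} (Z : ι → Finset ℕ) : Prop where
  hK : KP G U
  hW : W ⊆ U
  hZ : ∀ i, Z i ⊆ U
  hZW : ∀ i, Disjoint (Z i) W
  hne : ∀ i, (Z i).Nonempty
  hdis : ∀ i j, i ≠ j → Disjoint (Z i) (Z j)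
  hdc : ∀ i, ¬ Con G (Z i)

theorem seq_choice {ι : Type} [DecidableEq ι] (L : Finset ι) (c : ℕ) (P : ι → Finset ℕ → Prop)
    (R0 : Finset ℕ)
    (h : ∀ i ∈ L, ∀ R : Finset ℕ, R0 ⊆ R → R.card ≤ R0.card + c * (L.card - 1) →
      ∃ o : Finset ℕ, Disjoint o R ∧ o.card ≤ c ∧ P i o) :
    ∃ o : ι → Finset ℕ, (∀ i ∈ L, P i (o i) ∧ (o i).card ≤ c ∧ Disjoint (o i) R0) ∧
      ∀ i ∈ L, ∀ j ∈ L, i ≠ j → Disjoint (o i) (o j) := by
  suffices H : ∀ L' : Finset ι, L' ⊆ L → ∃ o : ι → Finset ℕ,
      (∀ i ∈ L', P i (o i) ∧ (o i).card ≤ c ∧ Disjoint (o i) R0) ∧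
      ∀ i ∈ L', ∀ j ∈ L', i ≠ j → Disjoint (o i) (o j) from H L (Finset.Subset.refl L)
  intro L'
  induction L' using Finset.induction_on with
  | empty => exact fun _ => ⟨fun _ => ∅, by simp, by simp⟩
  | @insert a s has ih =>
    intro hsub
    obtain ⟨o, h1, h2⟩ := ih ((Finset.subset_insert a s).trans hsub)
    have haL : a ∈ L := hsub (Finset.mem_insert_self a s)
    have hcard : s.card + 1 ≤ L.card := by
      rw [← Finset.card_insert_of_notMem has]; exact Finset.card_le_card hsub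
    have hb : (s.biUnion o).card ≤ c * s.card := by
      have := Finset.card_biUnion_le_card_mul s o c (fun i hi => (h1 i hi).2.1)
      rw [mul_comm]; exact this
    obtain ⟨oa, ha1, ha2, ha3⟩ := h a haL (R0 ∪ s.biUnion o) Finset.subset_union_left (by
      have h3 := Finset.card_union_le R0 (s.biUnion o)
      have h4 : c * s.card ≤ c * (L.card - 1) := Nat.mul_le_mul_left c (by omega)
      omega)
    rw [Finset.disjoint_union_right] at ha1
    refine ⟨fun i => if i = a then oa else o i, ?_, ?_⟩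
    · intro i hi
      rcases Finset.mem_insert.1 hi with rfl | hi'
      · simpa using ⟨ha3, ha2, ha1.1⟩
      · have : i ≠ a := fun h => has (h ▸ hi')
        simpa [this] using h1 i hi'
    · have key : ∀ i ∈ s, Disjoint oa (o i) := fun i hi =>
        ha1.2.mono_right (Finset.subset_biUnion_of_mem o hi)
      intro i hi j hj hij
      rcases Finset.mem_insert.1 hi with rfl | hi'
      · rcases Finset.mem_insert.1 hj with rfl | hj'
        · exact absurd rfl hij
        · have : j ≠ i := Ne.symm hij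
          simpa [this] using key j hj'
      · have hia : i ≠ a := fun h => has (h ▸ hi')
        rcases Finset.mem_insert.1 hj with rfl | hj'
        · simpa [hia] using (key i hi').symm
        · have hja : j ≠ a := fun h => has (h ▸ hj')
          simpa [hia, hja] using h2 i hi' j hj' hij

end Pool.Agent.Helper878_dcs
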