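import Pool.Agent.Helper878_dcs.Bridge

/-!
# The main theorem
-/

set_option autoImplicit false

namespace Pool.Agent.Helper878_dcs

open scoped Classical
open Pool.Agent.NPC

/-- no repetitions, as a program -/
def nodupB (l : List ℕ) : Bool :=
  l.zipIdx.all fun p => l.zipIdx.all fun q => !decide (p.1 = q.1) || decide (p.2 = q.2)

theorem nodupB_iff {l : List ℕ} : nodupB l = true ↔ l.Nodup := by
  unfold nodupB
  rw [List.nodup_iff_getElem?_ne_getElem?]
  simp only [List.all_eq_true, Bool.or_eq_true, ndec_iff, decide_eq_true_eq]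
  constructor
  · intro h i j hij hj he
    have hi : i < l.length := by omega
    have h1 : (l[i], i) ∈ l.zipIdx := by
      rw [List.mem_zipIdx_iff_getElem?, List.getElem?_eq_getElem hi]
    have h2 : (l[j], j) ∈ l.zipIdx := by
      rw [List.mem_zipIdx_iff_getElem?, List.getElem?_eq_getElem hj]
    rw [List.getElem?_eq_getElem hi, List.getElem?_eq_getElem hj, Option.some.injEq] at he
    rcases h _ h1 _ h2 with h3 | h3
    · exact h3 he
    · simp at h3; omega
  · intro h p hp q hq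
    rw [List.mem_zipIdx_iff_getElem?] at hp hq
    by_cases he : p.1 = q.1
    · right
      have lp : p.2 < l.length := by
        by_contra hn
        rw [List.getElem?_eq_none (by omega)] at hp
        exact absurd hp (by simp)
      have lq : q.2 < l.length := by
        by_contra hn
        rw [List.getElem?_eq_none (by omega)] at hq
        exact absurd hq (by simp)
      rcases Nat.lt_trichotomy p.2 q.2 with h1 | h1 | h1
      · exact absurd (by rw [hp, hq, he]) (h _ _ h1 lq)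
      · exact h1
      · exact absurd (by rw [hp, hq, he]) (h _ _ h1 lp)
    · exact Or.inl he

/-- well-formedness, as a program -/
def wfB (I : Inst) : Bool :=
  nodupB I.1 && nodupB I.2.2.flatten && I.2.2.all fun Z => !Z.isEmpty && Z.all fun z => decide (z ∈ I.1)

theorem wfB_iff {I : Inst} : wfB I = true ↔ WellFormed I := by
  unfold wfB WellFormed
  simp only [Bool.and_eq_true, nodupB_iff, List.all_eq_true, decide_eq_true_eq, and_assoc]
  refine and_congr_right fun _ => and_congr_right fun _ => forall_congr' fun Z =>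
    forall_congr' fun _ => and_congr_left fun _ => ?_
  cases Z <;> simp

/-- freeness, as a program -/
def kpB (V : List ℕ) (E : List (ℕ × ℕ)) : Bool :=
  V.all fun x => V.all fun y => V.all fun u => V.all fun v =>
    !adj E x y || (adj E x u || (adj E y u || (adj E x v || (adj E y v || (decide (u = v) ||
      adj E u v)))))

theorem kpB_iff {V : List ℕ} {E : List (ℕ × ℕ)} : kpB V E = true ↔ KP (GG E) V.toFinset := by
  unfold kpB KP
  simp only [List.all_eq_true, Bool.or_eq_true, nadj_iff, adj_iff, decide_eq_true_eq,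
    List.mem_toFinset]
  refine forall_congr' fun x => forall_congr' fun _ => forall_congr' fun y => forall_congr' fun _ =>
    forall_congr' fun u => forall_congr' fun _ => forall_congr' fun v => forall_congr' fun _ => ?_
  tauto

/-- the whole algorithm, with a test for the promise -/
def solve (I : Inst) : Bool :=
  wfB I && kpB I.1 I.2.1 && decide (49 * (discs I.2.1 I.2.2).length ≤ (freeV I.1 I.2.2).length) &&
    core I.2.1 (freeV I.1 I.2.2) (discs I.2.1 I.2.2)

theorem poly_solve : Poly solve := by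
  unfold solve wfB kpB nodupB
  fun_prop

section
variable {I : Inst}

theorem mem_freeV {v : ℕ} : v ∈ freeV I.1 I.2.2 ↔ v ∈ I.1 ∧ ∀ Z ∈ I.2.2, v ∉ Z := by
  unfold freeV
  rw [List.mem_filter, ndec_iff, List.mem_flatten]
  simp

theorem wf_disjoint (hw : WellFormed I) : ∀ i j : Fin I.2.2.length, i ≠ j →
    ∀ v ∈ I.2.2.get i, v ∉ I.2.2.get j := by
  have h := (List.nodup_flatten.1 hw.2.1).2
  rw [List.pairwise_iff_getElem] at h
  intro i j hij v hv hv'
  rcases Nat.lt_trichotomy i.1 j.1 with h1 | h1 | h1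
  · exact List.disjoint_left.1 (h i.1 j.1 i.2 j.2 h1) hv hv'
  · exact hij (Fin.ext h1)
  · exact List.disjoint_left.1 (h j.1 i.1 j.2 i.2 h1) hv' hv

theorem wf_get_inj (hw : WellFormed I) : ∀ i j : Fin I.2.2.length,
    I.2.2.get i = I.2.2.get j → i = j := by
  intro i j h
  by_contra hij
  obtain ⟨v, hv⟩ := List.exists_mem_of_ne_nil _ (hw.2.2 _ (List.get_mem I.2.2 i)).1
  exact wf_disjoint hw i j hij v hv (h ▸ hv)

theorem lctx (hw : WellFormed I) (hK : KP (GG I.2.1) I.1.toFinset) :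
    LCtx I.2.1 I.1.toFinset (freeV I.1 I.2.2) (discs I.2.1 I.2.2) := by
  have hm : ∀ Z ∈ discs I.2.1 I.2.2, Z ∈ I.2.2 ∧ discB I.2.1 Z = true := fun Z hZ =>
    List.mem_filter.1 hZ
  have hU : ∀ Z ∈ I.2.2, Z.toFinset ⊆ I.1.toFinset := by
    intro Z hZ v hv
    rw [List.mem_toFinset] at hv ⊢
    exact (hw.2.2 Z hZ).2 v hv
  have hdis : ∀ Z ∈ I.2.2, ∀ Z' ∈ I.2.2, Z ≠ Z' → Disjoint Z.toFinset Z'.toFinset := by
    intro Z hZ Z' hZ' hne
    obtain ⟨i, rfl⟩ := List.get_of_mem hZ
    obtain ⟨j, rfl⟩ := List.get_of_mem hZ'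
    rw [Finset.disjoint_left]
    intro v hv hv'
    rw [List.mem_toFinset] at hv hv'
    exact wf_disjoint hw i j (fun h => hne (by rw [h])) v hv hv'
  refine ⟨hK, hw.1.filter _, ?_, ?_, ?_, ?_, ?_, ?_, ?_⟩
  · intro v hv
    rw [List.mem_toFinset] at hv ⊢
    exact (mem_freeV.1 hv).1
  · have hnd : I.2.2.Nodup := by
      rw [List.nodup_iff_injective_get]
      exact fun i j h => wf_get_inj hw i j h
    exact hnd.filter _
  · exact fun Z hZ => hU Z (hm Z hZ).1
  · intro Z hZ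
    rw [Finset.disjoint_left]
    intro v hv hv'
    rw [List.mem_toFinset] at hv hv'
    exact (mem_freeV.1 hv').2 Z (hm Z hZ).1 hv
  · exact fun Z hZ => (hw.2.2 Z (hm Z hZ).1).1
  · exact fun Z hZ Z' hZ' => hdis Z (hm Z hZ).1 Z' (hm Z' hZ').1
  · intro Z hZ
    exact (disc_iff hK (hU Z (hm Z hZ).1) (hw.2.2 Z (hm Z hZ).1).1).1 (hm Z hZ).2

theorem toFinset_subset (hw : WellFormed I) {Z : List ℕ} (hZ : Z ∈ I.2.2) :
    Z.toFinset ⊆ I.1.toFinset := by
  intro v hv
  rw [List.mem_toFinset] at hv ⊢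
  exact (hw.2.2 Z hZ).2 v hv

theorem disc_iff' (hw : WellFormed I) (hK : KP (GG I.2.1) I.1.toFinset) {Z : List ℕ}
    (hZ : Z ∈ I.2.2) : discB I.2.1 Z = true ↔
      ¬ ((graph I.1 I.2.1).induce (vset I.1 Z)).Connected := by
  rw [disc_iff hK (toFinset_subset hw hZ) (hw.2.2 Z hZ).1]
  rw [con_iff (toFinset_subset hw hZ) (S := vset I.1 Z) (fun v => by simp [vset])]

theorem numDisc_eq (hw : WellFormed I) (hK : KP (GG I.2.1) I.1.toFinset) :
    numDisc I = (discs I.2.1 I.2.2).length := by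
  have hnd : (discs I.2.1 I.2.2).Nodup := (lctx hw hK).hJn
  rw [← List.toFinset_card_of_nodup hnd]
  unfold numDisc
  have hf : ∀ i : {i : Fin I.2.2.length // ¬ ((graph I.1 I.2.1).induce
      (vset I.1 (I.2.2.get i))).Connected}, I.2.2.get i.1 ∈ (discs I.2.1 I.2.2).toFinset := by
    intro i
    rw [List.mem_toFinset]
    exact List.mem_filter.2 ⟨List.get_mem _ _, (disc_iff' hw hK (List.get_mem _ _)).2 i.2⟩
  rw [Nat.card_congr (Equiv.ofBijective (fun i => (⟨I.2.2.get i.1, hf i⟩ :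
    {Z // Z ∈ (discs I.2.1 I.2.2).toFinset})) ⟨?_, ?_⟩), Nat.card_eq_fintype_card,
    Fintype.card_coe]
  · intro i j h
    exact Subtype.ext (wf_get_inj hw _ _ (congrArg Subtype.val h))
  · rintro ⟨Z, hZ⟩
    rw [List.mem_toFinset] at hZ
    have hZ' := List.mem_filter.1 hZ
    obtain ⟨i, hi⟩ := List.get_of_mem hZ'.1
    refine ⟨⟨i, ?_⟩, Subtype.ext hi⟩
    rw [hi]
    exact (disc_iff' hw hK hZ'.1).1 hZ'.2

theorem numFree_eq (hw : WellFormed I) : numFree I = (freeV I.1 I.2.2).length := by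
  have hnd : (freeV I.1 I.2.2).Nodup := hw.1.filter _
  rw [← List.toFinset_card_of_nodup hnd]
  unfold numFree
  have hf : ∀ v : {v : {v // v ∈ I.1} // ∀ Z ∈ I.2.2, v.1 ∉ Z},
      v.1.1 ∈ (freeV I.1 I.2.2).toFinset := by
    intro v
    rw [List.mem_toFinset]
    exact mem_freeV.2 ⟨v.1.2, v.2⟩
  rw [Nat.card_congr (Equiv.ofBijective (fun v => (⟨v.1.1, hf v⟩ :
    {v // v ∈ (freeV I.1 I.2.2).toFinset})) ⟨?_, ?_⟩), Nat.card_eq_fintype_card,
    Fintype.card_coe]
  · intro i j h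
    exact Subtype.ext (Subtype.ext (Subtype.mk.inj h))
  · rintro ⟨v, hv⟩
    rw [List.mem_toFinset] at hv
    have hv' := mem_freeV.1 hv
    exact ⟨⟨⟨v, hv'.1⟩, hv'.2⟩, rfl⟩

theorem dcs_iff (hw : WellFormed I) (hK : KP (GG I.2.1) I.1.toFinset) :
    DCS I ↔ Feas (GG I.2.1) (freeV I.1 I.2.2).toFinset (Zf (discs I.2.1 I.2.2)) := by
  have hm : ∀ Z ∈ discs I.2.1 I.2.2, Z ∈ I.2.2 ∧ discB I.2.1 Z = true := fun Z hZ =>
    List.mem_filter.1 hZ
  have hWU : ∀ v ∈ freeV I.1 I.2.2, v ∈ I.1 := fun v hv => (mem_freeV.1 hv).1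
  constructor
  · rintro ⟨S, hS, hdis⟩
    have hidx : ∀ i : {Z // Z ∈ discs I.2.1 I.2.2}, ∃ m : Fin I.2.2.length, I.2.2.get m = i.1 :=
      fun i => List.get_of_mem (hm i.1 i.2).1
    choose m hm' using hidx
    have hmem : ∀ i (v : {v // v ∈ I.1}), v ∈ S (m i) ↔ v.1 ∈ i.1.toFinset ∪
        (freeV I.1 I.2.2).toFinset.filter (fun w => ∃ h : w ∈ I.1, (⟨w, h⟩ : {v // v ∈ I.1}) ∈
          S (m i)) := by
      intro i v
      rw [Finset.mem_union, Finset.mem_filter, List.mem_toFinset, List.mem_toFinset, mem_freeV]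
      constructor
      · intro hv
        by_cases hZ : ∃ Z ∈ I.2.2, v.1 ∈ Z
        · obtain ⟨Z, hZ, hvZ⟩ := hZ
          obtain ⟨j, rfl⟩ := List.get_of_mem hZ
          have hvj : v ∈ S j := (hS j).1 hvZ
          have : j = m i := by
            by_contra hne
            exact Set.disjoint_left.1 (hdis j (m i) hne) hvj hv
          left
          rw [← hm' i, ← this]
          exact hvZ
        · push Not at hZ
          exact Or.inr ⟨⟨v.2, hZ⟩, v.2, hv⟩
      · rintro (h | ⟨_, _, h⟩)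
        · refine (hS (m i)).1 ?_
          change v.1 ∈ I.2.2.get (m i)
          rw [hm' i]; exact h
        · exact h
    refine ⟨fun i => (freeV I.1 I.2.2).toFinset.filter (fun w => ∃ h : w ∈ I.1,
      (⟨w, h⟩ : {v // v ∈ I.1}) ∈ S (m i)), fun i => ⟨Finset.filter_subset _ _, ?_⟩, ?_⟩
    · refine (con_iff ?_ (S := S (m i)) (hmem i)).2 (hS (m i)).2
      refine Finset.union_subset (toFinset_subset hw (hm i.1 i.2).1) ?_
      intro w hw'
      exact List.mem_toFinset.2 (hWU w (List.mem_toFinset.1 (Finset.mem_filter.1 hw').1))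
    · intro i j hij
      rw [Finset.disjoint_left]
      intro w h1 h2
      obtain ⟨_, h3, h4⟩ := Finset.mem_filter.1 h1
      obtain ⟨_, _, h5⟩ := Finset.mem_filter.1 h2
      have hne : m i ≠ m j := fun h => hij (Subtype.ext (by rw [← hm' i, ← hm' j, h]))
      exact Set.disjoint_left.1 (hdis _ _ hne) h4 h5
  · rintro ⟨o, ho, hdo⟩
    have hoW : ∀ i, ∀ v ∈ o i, v ∈ freeV I.1 I.2.2 := fun i v hv =>
      List.mem_toFinset.1 ((ho i).1 hv)
    refine ⟨fun m => {v | v.1 ∈ I.2.2.get m ∨ ∃ h : I.2.2.get m ∈ discs I.2.1 I.2.2,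
      v.1 ∈ o ⟨_, h⟩}, fun m => ⟨fun v hv => Or.inl hv, ?_⟩, ?_⟩
    · have hmZ := List.get_mem I.2.2 m
      by_cases hd : I.2.2.get m ∈ discs I.2.1 I.2.2
      · refine (con_iff (T := (I.2.2.get m).toFinset ∪ o ⟨_, hd⟩) ?_ ?_).1 (ho ⟨_, hd⟩).2
        · refine Finset.union_subset (toFinset_subset hw hmZ) ?_
          intro w hw'
          exact List.mem_toFinset.2 (hWU w (hoW _ w hw'))
        · intro v
          rw [Finset.mem_union, List.mem_toFinset, Set.mem_ofPred_eq]
          exact or_congr_right ⟨fun ⟨_, h⟩ => h, fun h => ⟨hd, h⟩⟩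
      · refine (con_iff (T := (I.2.2.get m).toFinset) (toFinset_subset hw hmZ) ?_).1 ?_
        · intro v
          rw [List.mem_toFinset, Set.mem_ofPred_eq]
          exact ⟨fun h => h.resolve_right (fun ⟨h, _⟩ => hd h), Or.inl⟩
        · by_contra hc
          exact hd (List.mem_filter.2 ⟨hmZ, (disc_iff hK (toFinset_subset hw hmZ)
            (hw.2.2 _ hmZ).1).2 hc⟩)
    · intro i j hij
      rw [Set.disjoint_left]
      rintro v (h1 | ⟨h1, h1'⟩) (h2 | ⟨h2, h2'⟩)
      · exact wf_disjoint hw i j hij v.1 h1 h2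
      · exact (mem_freeV.1 (hoW _ _ h2')).2 _ (List.get_mem I.2.2 i) h1
      · exact (mem_freeV.1 (hoW _ _ h1')).2 _ (List.get_mem I.2.2 j) h2
      · refine Finset.disjoint_left.1 (hdo ⟨_, h1⟩ ⟨_, h2⟩ (fun h => hij ?_)) h1' h2'
        exact wf_get_inj hw i j (congrArg Subtype.val h)

end

theorem main : InPP (fun I : Inst => WellFormed I ∧ Free twoP1P2 (graph I.1 I.2.1) ∧
    49 * numDisc I ≤ numFree I ∧ DCS I) := by
  refine inPP_of poly_solve fun I => ?_
  unfold solve
  rw [Bool.and_eq_true, Bool.and_eq_true, Bool.and_eq_true, wfB_iff, kpB_iff, decide_eq_true_eq,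
    free_iff]
  constructor
  · rintro ⟨hw, hK, hn, hD⟩
    have hn' : 49 * (discs I.2.1 I.2.2).length ≤ (freeV I.1 I.2.2).length := by
      rw [← numDisc_eq hw hK, ← numFree_eq hw]; exact hn
    exact ⟨⟨⟨hw, hK⟩, hn'⟩, (core_iff (lctx hw hK) hn').2 ((dcs_iff hw hK).1 hD)⟩
  · rintro ⟨⟨⟨hw, hK⟩, hn⟩, hc⟩
    exact ⟨hw, hK, by rw [numDisc_eq hw hK, numFree_eq hw]; exact hn,
      (dcs_iff hw hK).2 ((core_iff (lctx hw hK) hn).1 hc)⟩

end Pool.Agent.Helper878_dcs
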