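import Pool.Agent.H671R2.SF.TA12
import Pool.Agent.NPC.Dec

/-!
# The algorithm (programs on lists) and its running time
-/

set_option autoImplicit false

namespace Pool.Agent.Helper878_dcs

open Pool.Agent.NPC Pool.Agent.H671R2.SF

/-- adjacency -/
def adj (E : List (ℕ × ℕ)) (u v : ℕ) : Bool :=
  !decide (u = v) && (decide ((u, v) ∈ E) || decide ((v, u) ∈ E))

def nearB (E : List (ℕ × ℕ)) (Z : List ℕ) (z z' : ℕ) : Bool :=
  decide (z = z') || adj E z z' || Z.any fun p => adj E z p && adj E p z'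

def missB (E : List (ℕ × ℕ)) (Z : List ℕ) (w z : ℕ) : Bool :=
  Z.all fun z' => !nearB E Z z z' || !adj E w z'

def discB (E : List (ℕ × ℕ)) (Z : List ℕ) : Bool :=
  (Z.any fun x => Z.any fun y => !nearB E Z x y) &&
    Z.all fun x => Z.all fun y => Z.all fun z => !nearB E Z x y || !nearB E Z y z || nearB E Z x z

def threeB (E : List (ℕ × ℕ)) (Z : List ℕ) : Bool :=
  Z.any fun x => Z.any fun y => Z.any fun z => !nearB E Z x y && !nearB E Z x z && !nearB E Z y z

def cntB (E : List (ℕ × ℕ)) (D Z : List ℕ) (z : ℕ) : ℕ := (D.filter fun x => !missB E Z x z).length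

def richB (E : List (ℕ × ℕ)) (D : List ℕ) (k w : ℕ) : Bool :=
  decide (6 * k - 2 ≤ (D.filter fun x => adj E w x).length)

def p1B (E : List (ℕ × ℕ)) (D : List ℕ) (k : ℕ) (Z : List ℕ) (w : ℕ) : Bool :=
  Z.any fun z => decide (cntB E D Z z ≤ 3 * k - 2) && !missB E Z w z &&
    ((Z.all fun z' => !missB E Z w z') || threeB E Z || richB E D k w)

def e1B (E : List (ℕ × ℕ)) (D : List ℕ) (k w w' : ℕ) : Bool :=
  richB E D k w && !richB E D k w' && adj E w w'

def hd1B (E : List (ℕ × ℕ)) (D : List ℕ) (k : ℕ) (J : List (List ℕ)) : List (List ℕ) :=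
  J.filter fun Z => Z.any fun z => decide (cntB E D Z z ≤ 3 * k - 2)

def qpB (E : List (ℕ × ℕ)) (Q : List ℕ) (v : ℕ) : Bool := Q.all fun q => !adj E v q

def onB (E : List (ℕ × ℕ)) (Q Z : List ℕ) (z : ℕ) : Bool :=
  decide (z ∈ Z) && qpB E Q z && Z.all fun z' => !adj E z z'

def p2B (E : List (ℕ × ℕ)) (Q Z : List ℕ) (w : ℕ) : Bool :=
  Z.all fun z => !onB E Q Z z || adj E w z

def e2B (E : List (ℕ × ℕ)) (Q : List ℕ) (J : List (List ℕ)) (w w' : ℕ) : Bool :=
  !qpB E Q w && !qpB E Q w' && J.any fun Z => Z.any fun z => Z.any fun z' =>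
    onB E Q Z z && onB E Q Z z' && !decide (z = z') && !adj E w z && !adj E w' z'

def hd2B (E : List (ℕ × ℕ)) (Q : List ℕ) (J : List (List ℕ)) : List (List ℕ) :=
  J.filter fun Z => Z.any fun z => onB E Q Z z

def sg (w : ℕ) : List ℕ := [w]

/-- the matching test with a clique -/
def test1 (E : List (ℕ × ℕ)) (W D : List ℕ) (k : ℕ) (J : List (List ℕ)) : Bool :=
  decide ((hd1B E D k J).length ≤ (maxM (hd1B E D k J ++ W.map sg)
    ((((hd1B E D k J) ×ˢ W).filter fun p => p1B E D k p.1 p.2).map (fun p => (p.1, sg p.2)) ++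
      ((W ×ˢ W).filter fun p => e1B E D k p.1 p.2).map fun p => (sg p.1, sg p.2))).length)

/-- the matching test with an independent set -/
def test2 (E : List (ℕ × ℕ)) (W Q : List ℕ) (J : List (List ℕ)) : Bool :=
  decide ((hd2B E Q J).length ≤ (maxM (hd2B E Q J ++ W.map sg)
    ((((hd2B E Q J) ×ˢ W).filter fun p => p2B E Q p.1 p.2).map (fun p => (p.1, sg p.2)) ++
      ((W ×ˢ W).filter fun p => !decide (p.1 = p.2) && e2B E Q J p.1 p.2).map
        fun p => (sg p.1, sg p.2))).length)

def optPair (E : List (ℕ × ℕ)) (W Z : List ℕ) (a b z z' : ℕ) : Bool :=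
  !nearB E Z z z' && missB E Z a z && !missB E Z a z' && missB E Z b z' && !missB E Z b z &&
    (adj E a b || (Z.any fun z₃ => !nearB E Z z z₃ && !nearB E Z z' z₃) ||
      W.any fun l => adj E a l && adj E b l)

def optB (E : List (ℕ × ℕ)) (W Z : List ℕ) : Bool :=
  (W.any fun c => Z.all fun z => !missB E Z c z) ||
    W.any fun a => W.any fun b => Z.any fun z => Z.any fun z' => optPair E W Z a b z z'

def nnB (E : List (ℕ × ℕ)) (W : List ℕ) (t : ℕ) : List ℕ := W.filter fun w => !adj E w t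

def clsB (E : List (ℕ × ℕ)) (W : List ℕ) (t w : ℕ) : List ℕ :=
  (nnB E W t).filter fun x => !adj E x w

def repsB (E : List (ℕ × ℕ)) (W : List ℕ) (t : ℕ) : List ℕ :=
  (nnB E W t).filter fun w => (nnB E W t).all fun x => !decide (x < w) || adj E x w

/-- the nonterminals -/
def freeV (V : List ℕ) (Zs : List (List ℕ)) : List ℕ := V.filter fun v => !decide (v ∈ Zs.flatten)

/-- the disconnected terminal sets -/
def discs (E : List (ℕ × ℕ)) (Zs : List (List ℕ)) : List (List ℕ) := Zs.filter fun Z => discB E Z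

/-- the algorithm; `W` are the nonterminals, `J` the disconnected terminal sets -/
def core (E : List (ℕ × ℕ)) (W : List ℕ) (J : List (List ℕ)) : Bool :=
  decide (J.length = 0) ||
  (J.flatten.any fun t => decide (9 * J.length ≤ (repsB E W t).length) &&
    test1 E W (repsB E W t) J.length J) ||
  (J.flatten.any fun t => (nnB E W t).any fun w =>
    decide (2 * J.length + 1 ≤ (clsB E W t w).length) && test2 E W (clsB E W t w) J) ||
  ((J.flatten.all fun t => decide ((repsB E W t).length < 9 * J.length) &&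
      (nnB E W t).all fun w => decide ((clsB E W t w).length < 2 * J.length + 1)) &&
    J.all fun Z => optB E W Z)

section
variable {γ : Type} [TEnc γ] {E : γ → List (ℕ × ℕ)} {V W D Q Z : γ → List ℕ} {J : γ → List (List ℕ)}
  {k u v w a b c d : γ → ℕ}

@[fun_prop]
theorem poly_adj (hE : Poly E) (hu : Poly u) (hv : Poly v) :
    Poly (fun x => adj (E x) (u x) (v x)) := by
  unfold adj; fun_prop

@[fun_prop]
theorem poly_nearB (hE : Poly E) (hZ : Poly Z) (hu : Poly u) (hv : Poly v) :
    Poly (fun x => nearB (E x) (Z x) (u x) (v x)) := by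
  unfold nearB; fun_prop

@[fun_prop]
theorem poly_missB (hE : Poly E) (hZ : Poly Z) (hu : Poly u) (hv : Poly v) :
    Poly (fun x => missB (E x) (Z x) (u x) (v x)) := by
  unfold missB; fun_prop

@[fun_prop]
theorem poly_discB (hE : Poly E) (hZ : Poly Z) : Poly (fun x => discB (E x) (Z x)) := by
  unfold discB; fun_prop

@[fun_prop]
theorem poly_threeB (hE : Poly E) (hZ : Poly Z) : Poly (fun x => threeB (E x) (Z x)) := by
  unfold threeB; fun_prop

@[fun_prop]
theorem poly_cntB (hE : Poly E) (hD : Poly D) (hZ : Poly Z) (hu : Poly u) :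
    Poly (fun x => cntB (E x) (D x) (Z x) (u x)) := by
  unfold cntB; fun_prop

@[fun_prop]
theorem poly_richB (hE : Poly E) (hD : Poly D) (hk : Poly k) (hu : Poly u) :
    Poly (fun x => richB (E x) (D x) (k x) (u x)) := by
  unfold richB; fun_prop

@[fun_prop]
theorem poly_p1B (hE : Poly E) (hD : Poly D) (hk : Poly k) (hZ : Poly Z) (hu : Poly u) :
    Poly (fun x => p1B (E x) (D x) (k x) (Z x) (u x)) := by
  unfold p1B; fun_prop

@[fun_prop]
theorem poly_e1B (hE : Poly E) (hD : Poly D) (hk : Poly k) (hu : Poly u) (hv : Poly v) :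
    Poly (fun x => e1B (E x) (D x) (k x) (u x) (v x)) := by
  unfold e1B; fun_prop

@[fun_prop]
theorem poly_hd1B (hE : Poly E) (hD : Poly D) (hk : Poly k) (hJ : Poly J) :
    Poly (fun x => hd1B (E x) (D x) (k x) (J x)) := by
  unfold hd1B; fun_prop

@[fun_prop]
theorem poly_qpB (hE : Poly E) (hQ : Poly Q) (hu : Poly u) :
    Poly (fun x => qpB (E x) (Q x) (u x)) := by
  unfold qpB; fun_prop

@[fun_prop]
theorem poly_onB (hE : Poly E) (hQ : Poly Q) (hZ : Poly Z) (hu : Poly u) :
    Poly (fun x => onB (E x) (Q x) (Z x) (u x)) := by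
  unfold onB; fun_prop

@[fun_prop]
theorem poly_p2B (hE : Poly E) (hQ : Poly Q) (hZ : Poly Z) (hu : Poly u) :
    Poly (fun x => p2B (E x) (Q x) (Z x) (u x)) := by
  unfold p2B; fun_prop

@[fun_prop]
theorem poly_e2B (hE : Poly E) (hQ : Poly Q) (hJ : Poly J) (hu : Poly u) (hv : Poly v) :
    Poly (fun x => e2B (E x) (Q x) (J x) (u x) (v x)) := by
  unfold e2B; fun_prop

@[fun_prop]
theorem poly_hd2B (hE : Poly E) (hQ : Poly Q) (hJ : Poly J) :
    Poly (fun x => hd2B (E x) (Q x) (J x)) := by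
  unfold hd2B; fun_prop

@[fun_prop]
theorem poly_sg (hu : Poly u) : Poly (fun x => sg (u x)) := by
  unfold sg; fun_prop

@[fun_prop]
theorem poly_test1 (hE : Poly E) (hW : Poly W) (hD : Poly D) (hk : Poly k) (hJ : Poly J) :
    Poly (fun x => test1 (E x) (W x) (D x) (k x) (J x)) := by
  unfold test1; fun_prop

@[fun_prop]
theorem poly_test2 (hE : Poly E) (hW : Poly W) (hQ : Poly Q) (hJ : Poly J) :
    Poly (fun x => test2 (E x) (W x) (Q x) (J x)) := by
  unfold test2; fun_prop

@[fun_prop]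
theorem poly_optPair (hE : Poly E) (hW : Poly W) (hZ : Poly Z) (ha : Poly a) (hb : Poly b)
    (hc : Poly c) (hd : Poly d) :
    Poly (fun x => optPair (E x) (W x) (Z x) (a x) (b x) (c x) (d x)) := by
  unfold optPair; fun_prop

@[fun_prop]
theorem poly_optB (hE : Poly E) (hW : Poly W) (hZ : Poly Z) :
    Poly (fun x => optB (E x) (W x) (Z x)) := by
  unfold optB; fun_prop

@[fun_prop]
theorem poly_nnB (hE : Poly E) (hW : Poly W) (hu : Poly u) :
    Poly (fun x => nnB (E x) (W x) (u x)) := by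
  unfold nnB; fun_prop

@[fun_prop]
theorem poly_clsB (hE : Poly E) (hW : Poly W) (hu : Poly u) (hv : Poly v) :
    Poly (fun x => clsB (E x) (W x) (u x) (v x)) := by
  unfold clsB; fun_prop

@[fun_prop]
theorem poly_repsB (hE : Poly E) (hW : Poly W) (hu : Poly u) :
    Poly (fun x => repsB (E x) (W x) (u x)) := by
  unfold repsB; fun_prop

@[fun_prop]
theorem poly_freeV (hV : Poly V) (hJ : Poly J) : Poly (fun x => freeV (V x) (J x)) := by
  unfold freeV; fun_prop

@[fun_prop]
theorem poly_discs (hE : Poly E) (hJ : Poly J) : Poly (fun x => discs (E x) (J x)) := by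
  unfold discs; fun_prop

@[fun_prop]
theorem poly_core (hE : Poly E) (hW : Poly W) (hJ : Poly J) :
    Poly (fun x => core (E x) (W x) (J x)) := by
  unfold core; fun_prop

end

end Pool.Agent.Helper878_dcs
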