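import Mathlib

/-!
# Connected supersets in graphs whose complement has no diamond

`KP G U` says that inside `U` the non-neighbours of an edge form a clique: this is
`(2P_1+P_2)`-freeness of `G` on `U`.  We study how a set `Z` inducing a disconnected subgraph can be
made connected by adding at most three vertices.
-/

set_option autoImplicit false

namespace Pool.Agent.Helper878_dcs

variable (G : SimpleGraph ℕ)

/-- `G[S]` is connected (formulated with cuts). -/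
def Con (S : Finset ℕ) : Prop :=
  S.Nonempty ∧ ∀ T ⊆ S, T.Nonempty → (∀ x ∈ T, ∀ y ∈ S, G.Adj x y → y ∈ T) → T = S

/-- Inside `U`, the non-neighbours of an edge form a clique. -/
def KP (U : Finset ℕ) : Prop :=
  ∀ x ∈ U, ∀ y ∈ U, ∀ u ∈ U, ∀ v ∈ U, G.Adj x y → ¬ G.Adj x u → ¬ G.Adj y u → ¬ G.Adj x v →
    ¬ G.Adj y v → u ≠ v → G.Adj u v

/-- distance at most two in `G[Z]` -/
def near (Z : Finset ℕ) (z z' : ℕ) : Prop :=
  z = z' ∨ G.Adj z z' ∨ ∃ p ∈ Z, G.Adj z p ∧ G.Adj p z'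

/-- `w` has no neighbour in the class of `z` -/
def miss (Z : Finset ℕ) (w z : ℕ) : Prop := ∀ z' ∈ Z, near G Z z z' → ¬ G.Adj w z'

variable {G}

theorem near_refl (Z : Finset ℕ) (z : ℕ) : near G Z z z := Or.inl rfl

theorem near_symm {Z : Finset ℕ} {z z' : ℕ} (h : near G Z z z') : near G Z z' z := by
  rcases h with h | h | ⟨p, hp, h1, h2⟩
  · exact Or.inl h.symm
  · exact Or.inr (Or.inl h.symm)
  · exact Or.inr (Or.inr ⟨p, hp, h2.symm, h1.symm⟩)

theorem near_of_adj {Z : Finset ℕ} {z z' : ℕ} (h : G.Adj z z') : near G Z z z' := Or.inr (Or.inl h)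

/-- A closed proper part of a disconnected set. -/
theorem exists_cut {Z : Finset ℕ} (hne : Z.Nonempty) (hd : ¬ Con G Z) :
    ∃ T ⊆ Z, T.Nonempty ∧ T ≠ Z ∧ ∀ x ∈ T, ∀ y ∈ Z, G.Adj x y → y ∈ T := by
  unfold Con at hd
  push Not at hd
  obtain ⟨T, h1, h2, h3, h4⟩ := hd hne
  exact ⟨T, h1, h2, h4, h3⟩

theorem closed_iff {Z T : Finset ℕ} (hT : ∀ x ∈ T, ∀ y ∈ Z, G.Adj x y → y ∈ T) {x y : ℕ}
    (hx : x ∈ Z) (hy : y ∈ Z) (h : G.Adj x y) : x ∈ T ↔ y ∈ T :=
  ⟨fun h1 => hT x h1 y hy h, fun h1 => hT y h1 x hx h.symm⟩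

theorem closed_near {Z S T : Finset ℕ} (hS : Z ⊆ S) (hT : ∀ x ∈ T, ∀ y ∈ S, G.Adj x y → y ∈ T)
    {x y : ℕ} (hx : x ∈ Z) (hy : y ∈ Z) (h : near G Z x y) : x ∈ T ↔ y ∈ T := by
  rcases h with h | h | ⟨p, hp, h1, h2⟩
  · rw [h]
  · exact closed_iff hT (hS hx) (hS hy) h
  · exact (closed_iff hT (hS hx) (hS hp) h1).trans (closed_iff hT (hS hp) (hS hy) h2)

section one
variable {U Z : Finset ℕ}

theorem near_trans (hK : KP G U) (hZU : Z ⊆ U) (hne : Z.Nonempty) (hd : ¬ Con G Z) {x y z : ℕ}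
    (hx : x ∈ Z) (hy : y ∈ Z) (hz : z ∈ Z) (h1 : near G Z x y) (h2 : near G Z y z) :
    near G Z x z := by
  obtain ⟨T, hTZ, hTne, hTn, hT⟩ := exists_cut hne hd
  have hxy := closed_near (Finset.Subset.refl Z) hT hx hy h1
  have hyz := closed_near (Finset.Subset.refl Z) hT hy hz h2
  -- a vertex on the other side
  obtain ⟨u, hu, hux⟩ : ∃ u ∈ Z, ¬ (u ∈ T ↔ x ∈ T) := by
    by_cases hxT : x ∈ T
    · obtain ⟨u, hu, huT⟩ := Finset.exists_of_ssubset (Finset.ssubset_iff_subset_ne.2 ⟨hTZ, hTn⟩)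
      exact ⟨u, hu, fun h => huT (h.2 hxT)⟩
    · obtain ⟨u, hu⟩ := hTne
      exact ⟨u, hTZ hu, fun h => hxT (h.1 hu)⟩
  have key : ∀ v ∈ Z, (v ∈ T ↔ x ∈ T) → ¬ G.Adj v u ∧ u ≠ v := by
    intro v hv hvx
    refine ⟨fun h => hux ?_, fun h => hux (h ▸ hvx)⟩
    exact (closed_iff hT hv hu h).symm.trans hvx
  -- a neighbour of `x`
  by_cases hxy' : x = y
  · rw [hxy']; exact h2
  obtain ⟨x', hx', hxx'⟩ : ∃ x' ∈ Z, G.Adj x x' := by
    rcases h1 with h | h | ⟨p, hp, h, _⟩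
    · exact absurd h hxy'
    · exact ⟨y, hy, h⟩
    · exact ⟨p, hp, h⟩
  have hx'x : x' ∈ T ↔ x ∈ T := (closed_iff hT hx hx' hxx').symm
  have hzx : z ∈ T ↔ x ∈ T := (hxy.trans hyz).symm
  by_contra hcon
  have c1 : ¬ G.Adj x z := fun h => hcon (near_of_adj h)
  have c2 : ¬ G.Adj x' z := fun h => hcon (Or.inr (Or.inr ⟨x', hx', hxx', h⟩))
  have := hK x (hZU hx) x' (hZU hx') z (hZU hz) u (hZU hu) hxx' c1 c2 (key x hx Iff.rfl).1
    (key x' hx' hx'x).1 (key z hz hzx).2.symm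
  exact (key z hz hzx).1 this

theorem exists_not_near (hne : Z.Nonempty) (hd : ¬ Con G Z) :
    ∀ z ∈ Z, ∃ z' ∈ Z, ¬ near G Z z z' := by
  intro z hz
  obtain ⟨T, hTZ, hTne, hTn, hT⟩ := exists_cut hne hd
  by_cases hzT : z ∈ T
  · obtain ⟨u, hu, huT⟩ := Finset.exists_of_ssubset (Finset.ssubset_iff_subset_ne.2 ⟨hTZ, hTn⟩)
    exact ⟨u, hu, fun h => huT ((closed_near (Finset.Subset.refl Z) hT hz hu h).1 hzT)⟩
  · obtain ⟨u, hu⟩ := hTne
    exact ⟨u, hTZ hu, fun h => hzT ((closed_near (Finset.Subset.refl Z) hT hz (hTZ hu) h).2 hu)⟩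

/-- A set on which `near` is transitive and not total is disconnected. -/
theorem not_con_of_near {z₁ z₂ : ℕ} (h1 : z₁ ∈ Z) (h2 : z₂ ∈ Z) (h12 : ¬ near G Z z₁ z₂)
    (htr : ∀ x ∈ Z, ∀ y ∈ Z, ∀ z ∈ Z, near G Z x y → near G Z y z → near G Z x z) :
    ¬ Con G Z := by
  classical
  rintro ⟨_, h⟩
  have := h (Z.filter fun z => near G Z z₁ z) (Finset.filter_subset _ _)
    ⟨z₁, by simp [h1, near_refl]⟩ (by
      intro x hx y hy hxy
      rw [Finset.mem_filter] at hx ⊢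
      exact ⟨hy, htr _ h1 _ hx.1 _ hy hx.2 (near_of_adj hxy)⟩)
  have h3 := this.symm ▸ h2
  rw [Finset.mem_filter] at h3
  exact h12 h3.2

theorem miss_congr (hK : KP G U) (hZU : Z ⊆ U) (hne : Z.Nonempty) (hd : ¬ Con G Z) {w x y : ℕ}
    (hx : x ∈ Z) (hy : y ∈ Z) (h : near G Z x y) (hm : miss G Z w x) : miss G Z w y :=
  fun z' hz' h' => hm z' hz' (near_trans hK hZU hne hd hx hy hz' h h')

theorem miss_self {w z : ℕ} (hz : z ∈ Z) (h : miss G Z w z) : ¬ G.Adj w z := h z hz (near_refl Z z)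

/-- A vertex missing two classes misses everything. -/
theorem miss_all (hK : KP G U) (hZU : Z ⊆ U) (hne : Z.Nonempty) (hd : ¬ Con G Z) {w z₁ z₂ : ℕ}
    (hw : w ∈ U) (h1 : z₁ ∈ Z) (h2 : z₂ ∈ Z) (h12 : ¬ near G Z z₁ z₂) (m1 : miss G Z w z₁)
    (m2 : miss G Z w z₂) : ∀ z ∈ Z, miss G Z w z := by
  intro z hz z' hz' hzz' hadj
  have n1 : ¬ near G Z z' z₁ := fun h =>
    (miss_congr hK hZU hne hd h1 hz' (near_symm h) m1) z' hz' (near_refl _ _) hadj
  have n2 : ¬ near G Z z' z₂ := fun h =>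
    (miss_congr hK hZU hne hd h2 hz' (near_symm h) m2) z' hz' (near_refl _ _) hadj
  have := hK w hw z' (hZU hz') z₁ (hZU h1) z₂ (hZU h2) hadj (miss_self h1 m1)
    (fun h => n1 (near_of_adj h)) (miss_self h2 m2) (fun h => n2 (near_of_adj h))
    (fun h => h12 (h ▸ near_refl _ _))
  exact h12 (near_of_adj this)

/-- The general criterion for connectedness of `Z ∪ o`. -/
theorem con_of {o : Finset ℕ} (hne : Z.Nonempty) {r : ℕ} (hr : r ∈ o)
    (hlink : ∀ T : Finset ℕ, (∀ x ∈ T, ∀ y ∈ Z ∪ o, G.Adj x y → y ∈ T) → ∀ w ∈ o, (w ∈ T ↔ r ∈ T))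
    (hcov : ∀ z ∈ Z, ∃ w ∈ o, ¬ miss G Z w z) : Con G (Z ∪ o) := by
  refine ⟨hne.mono Finset.subset_union_left, ?_⟩
  intro T hTS hTne hT
  have hz : ∀ z ∈ Z, (z ∈ T ↔ r ∈ T) := by
    intro z hz
    obtain ⟨w, hw, hm⟩ := hcov z hz
    unfold miss at hm
    push Not at hm
    obtain ⟨z', hz', hn, ha⟩ := hm
    have h1 := closed_near Finset.subset_union_left hT hz hz' hn
    have h2 := closed_iff hT (Finset.mem_union_right Z hw) (Finset.mem_union_left o hz') ha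
    exact (h1.trans h2.symm).trans (hlink T hT w hw)
  have hall : ∀ x ∈ Z ∪ o, (x ∈ T ↔ r ∈ T) := by
    intro x hx
    rcases Finset.mem_union.1 hx with h | h
    · exact hz x h
    · exact hlink T hT x h
  obtain ⟨t, ht⟩ := hTne
  have hrT : r ∈ T := (hall t (hTS ht)).1 ht
  exact Finset.Subset.antisymm hTS fun x hx => (hall x hx).2 hrT

/-- membership transfer through a class seen by both vertices -/
theorem link_class {S T : Finset ℕ} (hS : Z ⊆ S) (hT : ∀ x ∈ T, ∀ y ∈ S, G.Adj x y → y ∈ T)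
    {a b z : ℕ} (ha : a ∈ S) (hb : b ∈ S) (hz : z ∈ Z) (h1 : ¬ miss G Z a z)
    (h2 : ¬ miss G Z b z) : a ∈ T ↔ b ∈ T := by
  unfold miss at h1 h2
  push Not at h1 h2
  obtain ⟨z1, hz1, hn1, ha1⟩ := h1
  obtain ⟨z2, hz2, hn2, ha2⟩ := h2
  have e1 := closed_near hS hT hz hz1 hn1
  have e2 := closed_near hS hT hz hz2 hn2
  have e3 := closed_iff hT ha (hS hz1) ha1
  have e4 := closed_iff hT hb (hS hz2) ha2
  exact (e3.trans e1.symm).trans (e2.trans e4.symm)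

theorem con_single (hne : Z.Nonempty) {c : ℕ} (hc : ∀ z ∈ Z, ¬ miss G Z c z) :
    Con G (Z ∪ {c}) :=
  con_of hne (r := c) (by simp) (by intro T _ w hw; rw [Finset.mem_singleton.1 hw])
    (fun z hz => ⟨c, by simp, hc z hz⟩)

theorem con_pair (hne : Z.Nonempty) {a b : ℕ} (hcov : ∀ z ∈ Z, ¬ miss G Z a z ∨ ¬ miss G Z b z)
    (hl : G.Adj a b ∨ ∃ z ∈ Z, ¬ miss G Z a z ∧ ¬ miss G Z b z) : Con G (Z ∪ {a, b}) := by
  refine con_of hne (r := a) (by simp) ?_ ?_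
  · intro T hT w hw
    rw [Finset.mem_insert, Finset.mem_singleton] at hw
    rcases hw with rfl | rfl
    · rfl
    · rcases hl with hl | ⟨z, hz, h1, h2⟩
      · exact closed_iff hT (by simp) (by simp) hl.symm
      · exact link_class Finset.subset_union_left hT (by simp) (by simp) hz h2 h1
  · intro z hz
    rcases hcov z hz with h | h
    · exact ⟨a, by simp, h⟩
    · exact ⟨b, by simp, h⟩

theorem con_triple (hne : Z.Nonempty) {a b l : ℕ}
    (hcov : ∀ z ∈ Z, ¬ miss G Z a z ∨ ¬ miss G Z b z ∨ ¬ miss G Z l z)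
    (h1 : G.Adj a l) (h2 : G.Adj b l) : Con G (Z ∪ {a, b, l}) := by
  refine con_of hne (r := l) (by simp) ?_ ?_
  · intro T hT w hw
    simp only [Finset.mem_insert, Finset.mem_singleton] at hw
    rcases hw with rfl | rfl | rfl
    · exact closed_iff hT (by simp) (by simp) h1
    · exact closed_iff hT (by simp) (by simp) h2
    · rfl
  · intro z hz
    rcases hcov z hz with h | h | h
    · exact ⟨a, by simp, h⟩
    · exact ⟨b, by simp, h⟩
    · exact ⟨l, by simp, h⟩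

/-- In a connected superset some new vertex sees the class of `z`. -/
theorem exists_sees (hK : KP G U) (hZU : Z ⊆ U) (hne : Z.Nonempty) (hd : ¬ Con G Z)
    {S : Finset ℕ} (hS : Z ⊆ S) (hcon : Con G S) {z : ℕ} (hz : z ∈ Z) :
    ∃ b ∈ S \ Z, ¬ miss G Z b z := by
  classical
  obtain ⟨z', hz', hzz'⟩ := exists_not_near hne hd z hz
  by_contra hno
  push Not at hno
  have := hcon.2 (Z.filter fun x => near G Z z x) ((Finset.filter_subset _ _).trans hS)
    ⟨z, by simp [hz, near_refl]⟩ (by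
      intro x hx y hy hxy
      rw [Finset.mem_filter] at hx ⊢
      by_cases hyZ : y ∈ Z
      · exact ⟨hyZ, near_trans hK hZU hne hd hz hx.1 hyZ hx.2 (near_of_adj hxy)⟩
      · exact absurd hxy.symm (hno y (Finset.mem_sdiff.2 ⟨hy, hyZ⟩) x hx.1 hx.2))
  have h3 := hS hz'
  rw [← this, Finset.mem_filter] at h3
  exact hzz' h3.2

/-- three pairwise different classes -/
def three (G : SimpleGraph ℕ) (Z : Finset ℕ) : Prop :=
  ∃ z₁ ∈ Z, ∃ z₂ ∈ Z, ∃ z₃ ∈ Z, ¬ near G Z z₁ z₂ ∧ ¬ near G Z z₁ z₃ ∧ ¬ near G Z z₂ z₃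

/-- Suppose there are only two classes, all new vertices of `S` seeing the class of `z` miss some
class.  Then one of them has a neighbour in `S \ Z` missing the class of `z`. -/
theorem exists_edge (hK : KP G U) (hZU : Z ⊆ U) (hne : Z.Nonempty) (hd : ¬ Con G Z)
    {S : Finset ℕ} (hS : Z ⊆ S) (hcon : Con G S) {z : ℕ} (hz : z ∈ Z)
    (h3 : ¬ three G Z)
    (hall : ∀ b ∈ S \ Z, ¬ miss G Z b z → ∃ z' ∈ Z, miss G Z b z') :
    ∃ b ∈ S \ Z, ∃ a ∈ S \ Z, ¬ miss G Z b z ∧ miss G Z a z ∧ G.Adj a b := by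
  classical
  obtain ⟨z', hz', hzz'⟩ := exists_not_near hne hd z hz
  have hcl : ∀ x ∈ Z, ¬ near G Z z x → near G Z z' x := by
    intro x hx h
    by_contra h'
    exact h3 ⟨z, hz, z', hz', x, hx, hzz', h, h'⟩
  have hmz' : ∀ b ∈ S \ Z, ¬ miss G Z b z → miss G Z b z' := by
    intro b hb hbz
    obtain ⟨z'', hz'', hm⟩ := hall b hb hbz
    by_cases h : near G Z z z''
    · exact absurd (miss_congr hK hZU hne hd hz'' hz (near_symm h) hm) hbz
    · exact miss_congr hK hZU hne hd hz'' hz' (near_symm (hcl z'' hz'' h)) hm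
  by_contra hno
  push Not at hno
  have := hcon.2 (S.filter fun x => (x ∈ Z ∧ near G Z z x) ∨ (x ∉ Z ∧ ¬ miss G Z x z))
    (Finset.filter_subset _ _) ⟨z, by simp [hz, near_refl, hS hz]⟩ (by
      intro x hx y hy hxy
      rw [Finset.mem_filter] at hx ⊢
      refine ⟨hy, ?_⟩
      by_cases hyZ : y ∈ Z
      · refine Or.inl ⟨hyZ, ?_⟩
        rcases hx.2 with ⟨h1, h2⟩ | ⟨h1, h2⟩
        · exact near_trans hK hZU hne hd hz h1 hyZ h2 (near_of_adj hxy)
        · by_contra h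
          have hm := hmz' x (Finset.mem_sdiff.2 ⟨hx.1, h1⟩) h2
          exact hm y hyZ (hcl y hyZ h) hxy
      · refine Or.inr ⟨hyZ, ?_⟩
        intro hm
        rcases hx.2 with ⟨h1, h2⟩ | ⟨h1, h2⟩
        · exact hm x h1 h2 hxy.symm
        · exact hno x (Finset.mem_sdiff.2 ⟨hx.1, h1⟩) y (Finset.mem_sdiff.2 ⟨hy, hyZ⟩) h2 hm
            hxy.symm)
  have h4 := hS hz'
  rw [← this, Finset.mem_filter] at h4
  rcases h4.2 with ⟨_, h⟩ | ⟨h, _⟩
  · exact hzz' h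
  · exact h hz'

/-- A vertex missing everything is adjacent to every vertex missing only one class. -/
theorem adj_of_miss_all (hK : KP G U) (hZU : Z ⊆ U) {a l z z' : ℕ} (ha : a ∈ U) (hl : l ∈ U)
    (hlZ : l ∉ Z) (hz : z ∈ Z) (hz' : z' ∈ Z) (h : ¬ near G Z z z')
    (htr : ∀ x ∈ Z, near G Z z x → ¬ near G Z z' x)
    (ma : miss G Z a z) (ma' : ¬ miss G Z a z') (ml : miss G Z l z) (ml' : miss G Z l z') :
    G.Adj a l := by
  unfold miss at ma'
  push Not at ma'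
  obtain ⟨z'', hz'', hn, hadj⟩ := ma'
  by_contra hno
  have h1 : ¬ near G Z z z'' := fun h' => htr z'' hz'' h' hn
  have := hK a ha z'' (hZU hz'') l hl z (hZU hz) hadj hno
    (fun h' => ml' z'' hz'' hn h'.symm) (miss_self hz ma)
    (fun h' => h1 (near_symm (near_of_adj h'))) (fun h' => hlZ (h' ▸ hz))
  exact (miss_self hz ml) this

end one

end Pool.Agent.Helper878_dcs
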