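import Pool.Agent.Helper878_dcs.Corr1

/-!
# Correctness of the algorithm
-/

set_option autoImplicit false

namespace Pool.Agent.Helper878_dcs

open scoped Classical
open Pool.Agent.H671R2.SF

/-- the standing assumptions, for lists -/
structure LCtx (E : List (ℕ × ℕ)) (U : Finset ℕ) (W : List ℕ) (J : List (List ℕ)) : Prop where
  hK : KP (GG E) U
  hWn : W.Nodup
  hWU : W.toFinset ⊆ U
  hJn : J.Nodup
  hJU : ∀ Z ∈ J, Z.toFinset ⊆ U
  hJW : ∀ Z ∈ J, Disjoint Z.toFinset W.toFinset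
  hne : ∀ Z ∈ J, Z ≠ []
  hdis : ∀ Z ∈ J, ∀ Z' ∈ J, Z ≠ Z' → Disjoint Z.toFinset Z'.toFinset
  hdc : ∀ Z ∈ J, ¬ Con (GG E) Z.toFinset

/-- the family of terminal sets -/
def Zf (J : List (List ℕ)) : {Z // Z ∈ J} → Finset ℕ := fun i => i.1.toFinset

variable {E : List (ℕ × ℕ)} {U : Finset ℕ} {W : List ℕ} {J : List (List ℕ)}

theorem LCtx.ctx (h : LCtx E U W J) : Ctx (GG E) U W.toFinset (Zf J) where
  hK := h.hK
  hW := h.hWU
  hZ := fun i => h.hJU i.1 i.2
  hZW := fun i => h.hJW i.1 i.2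
  hne := fun i => by
    obtain ⟨z, hz⟩ := List.exists_mem_of_ne_nil i.1 (h.hne i.1 i.2)
    exact ⟨z, List.mem_toFinset.2 hz⟩
  hdis := fun i j hij => h.hdis i.1 i.2 j.1 j.2 (fun he => hij (Subtype.ext he))
  hdc := fun i => h.hdc i.1 i.2

theorem card_index (J : List (List ℕ)) : Fintype.card {Z // Z ∈ J} ≤ J.length := by
  rw [Fintype.card_of_subtype J.toFinset (fun x => List.mem_toFinset)]
  exact List.toFinset_card_le J

theorem card_filter_index (hJ : J.Nodup) {q : List ℕ → Bool} {Q : {Z // Z ∈ J} → Prop}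
    [DecidablePred Q] (h : ∀ i, q i.1 = true ↔ Q i) :
    ((Finset.univ : Finset {Z // Z ∈ J}).filter Q).card = (J.filter q).length := by
  rw [← List.toFinset_card_of_nodup (hJ.filter _),
    ← Finset.card_image_of_injective _ Subtype.val_injective]
  congr 1
  ext x
  rw [Finset.mem_image, List.mem_toFinset, List.mem_filter]
  constructor
  · rintro ⟨i, hi, rfl⟩
    exact ⟨i.2, (h i).2 (Finset.mem_filter.1 hi).2⟩
  · rintro ⟨h1, h2⟩
    exact ⟨⟨x, h1⟩, Finset.mem_filter.2 ⟨Finset.mem_univ _, (h ⟨x, h1⟩).1 h2⟩, rfl⟩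

/-- a disconnected set is not a singleton -/
theorem not_sg (h : LCtx E U W J) {Z : List ℕ} (hZ : Z ∈ J) (w : ℕ) : Z ≠ sg w := by
  intro he
  refine h.hdc Z hZ ?_
  subst he
  have h1 : (sg w).toFinset = {w} := by simp [sg]
  rw [h1]
  refine ⟨⟨w, Finset.mem_singleton_self w⟩, fun T hT hTn _ => ?_⟩
  obtain ⟨x, hx⟩ := hTn
  refine Finset.Subset.antisymm hT ?_
  intro y hy
  have := Finset.mem_singleton.1 (hT hx)
  rw [Finset.mem_singleton.1 hy, ← this]
  exact hx

theorem sg_inj : Function.Injective sg := by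
  intro x y h
  simpa [sg] using h

theorem nodup_nodes (h : LCtx E U W J) (q : List ℕ → Bool) :
    (J.filter q ++ W.map sg).Nodup := by
  rw [List.nodup_append]
  refine ⟨h.hJn.filter _, h.hWn.map sg_inj, ?_⟩
  intro Z hZ Z' hZ' he
  obtain ⟨w, _, rfl⟩ := List.mem_map.1 hZ'
  exact not_sg h (List.mem_filter.1 hZ).1 w he

/-- the general form of both tests -/
theorem test_iff (h : LCtx E U W J) (q : List ℕ → Bool) (Q : {Z // Z ∈ J} → Prop)
    [DecidablePred Q] (hQ : ∀ i, q i.1 = true ↔ Q i) (p : List ℕ × ℕ → Bool)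
    (P : {Z // Z ∈ J} → ℕ → Prop) (hP : ∀ i, ∀ w ∈ W, p (i.1, w) = true ↔ P i w)
    (hPW : ∀ i w, P i w → w ∈ W.toFinset) (e : ℕ × ℕ → Bool) (R : ℕ → ℕ → Prop)
    (he : ∀ w ∈ W, ∀ w' ∈ W, e (w, w') = true ↔ w ≠ w' ∧ R w w')
    (hRW : ∀ w w', R w w' → w ∈ W.toFinset ∧ w' ∈ W.toFinset) :
    ((J.filter q).length ≤ (maxM (J.filter q ++ W.map sg)
      (((((J.filter q) ×ˢ W).filter p).map fun p => (p.1, sg p.2)) ++
      ((W ×ˢ W).filter e).map fun p => (sg p.1, sg p.2))).length) ↔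
    Assign ((Finset.univ : Finset {Z // Z ∈ J}).filter Q) P R := by
  rw [← card_filter_index h.hJn hQ]
  symm
  refine assign_iff _ P R W.toFinset (fun i => i.1) sg (fun i _ j _ hij => Subtype.ext hij)
    sg_inj (fun i _ w => not_sg h i.2 w) _ _ (nodup_nodes h q) ?_ ?_ hPW hRW
  · intro v
    rw [List.mem_append, List.mem_filter, List.mem_map]
    constructor
    · rintro (⟨h1, h2⟩ | ⟨w, hw, rfl⟩)
      · exact Or.inl ⟨⟨v, h1⟩, Finset.mem_filter.2 ⟨Finset.mem_univ _, (hQ ⟨v, h1⟩).1 h2⟩, rfl⟩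
      · exact Or.inr ⟨w, List.mem_toFinset.2 hw, rfl⟩
    · rintro (⟨i, hi, rfl⟩ | ⟨w, hw, rfl⟩)
      · exact Or.inl ⟨i.2, (hQ i).2 (Finset.mem_filter.1 hi).2⟩
      · exact Or.inr ⟨w, List.mem_toFinset.1 hw, rfl⟩
  · intro x y
    rw [List.mem_append, List.mem_map, List.mem_map]
    constructor
    · rintro (⟨⟨Z, w⟩, h1, h2⟩ | ⟨⟨w, w'⟩, h1, h2⟩)
      · left
        rw [List.mem_filter, List.mem_product, List.mem_filter] at h1
        rw [Prod.mk.injEq] at h2
        have hZ : Z ∈ J := h1.1.1.1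
        exact ⟨⟨Z, hZ⟩, Finset.mem_filter.2 ⟨Finset.mem_univ _, (hQ ⟨Z, hZ⟩).1 h1.1.1.2⟩, w,
          List.mem_toFinset.2 h1.1.2, h2.1.symm, h2.2.symm, (hP ⟨Z, hZ⟩ w h1.1.2).1 h1.2⟩
      · right
        rw [List.mem_filter, List.mem_product] at h1
        rw [Prod.mk.injEq] at h2
        have h3 := (he w h1.1.1 w' h1.1.2).1 h1.2
        exact ⟨w, List.mem_toFinset.2 h1.1.1, w', List.mem_toFinset.2 h1.1.2, h2.1.symm, h2.2.symm,
          h3.1, h3.2⟩
    · rintro (⟨i, hi, w, hw, rfl, rfl, h3⟩ | ⟨w, hw, w', hw', rfl, rfl, h3, h4⟩)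
      · left
        have hw' := List.mem_toFinset.1 hw
        refine ⟨(i.1, w), ?_, rfl⟩
        rw [List.mem_filter, List.mem_product, List.mem_filter]
        exact ⟨⟨⟨i.2, (hQ i).2 (Finset.mem_filter.1 hi).2⟩, hw'⟩, (hP i w hw').2 h3⟩
      · right
        have h1 := List.mem_toFinset.1 hw
        have h2 := List.mem_toFinset.1 hw'
        refine ⟨(w, w'), ?_, rfl⟩
        rw [List.mem_filter, List.mem_product]
        exact ⟨⟨h1, h2⟩, (he w h1 w' h2).2 ⟨h3, h4⟩⟩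

theorem test1_iff (h : LCtx E U W J) {D : List ℕ} (hD : D.Nodup) {k : ℕ} :
    test1 E W D k J = true ↔ Assign (Hd1 (GG E) D.toFinset k (Zf J))
      (fun i => P1 (GG E) W.toFinset D.toFinset k (Zf J i)) (E1 (GG E) W.toFinset D.toFinset k) := by
  unfold test1 hd1B Hd1
  rw [decide_eq_true_eq]
  refine test_iff h _ (fun i => ∃ z ∈ Zf J i, cnt (GG E) D.toFinset (Zf J i) z ≤ 3 * k - 2) ?_
    _ _ ?_ ?_ _ _ ?_ ?_
  · intro i
    simp only [List.any_eq_true, decide_eq_true_eq, cnt_iff hD, Zf, List.mem_toFinset]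
  · intro i w hw
    exact p1_iff hD hw
  · intro i w hw
    exact hw.1
  · intro w hw w' hw'
    change e1B E D k w w' = true ↔ _
    rw [e1_iff hD hw hw']
    exact ⟨fun h => ⟨h.2.2.2.2.ne, h⟩, fun h => h.2⟩
  · intro w w' hw
    exact ⟨hw.1, hw.2.1⟩

theorem test2_iff (h : LCtx E U W J) {Q : List ℕ} :
    test2 E W Q J = true ↔ Assign (Hd2 (GG E) Q.toFinset (Zf J))
      (fun i => P2 (GG E) W.toFinset Q.toFinset (Zf J i))
      (E2 (GG E) W.toFinset Q.toFinset (Zf J)) := by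
  unfold test2 hd2B Hd2
  rw [decide_eq_true_eq]
  refine test_iff h _ (fun i => ∃ z, onA (GG E) Q.toFinset (Zf J i) z) ?_
    _ _ ?_ ?_ _ _ ?_ ?_
  · intro i
    simp only [List.any_eq_true, on_iff, Zf]
    exact ⟨fun ⟨z, _, hz⟩ => ⟨z, hz⟩, fun ⟨z, hz⟩ => ⟨z, List.mem_toFinset.1 hz.1, hz⟩⟩
  · intro i w hw
    exact p2_iff hw
  · intro i w hw
    exact hw.1
  · intro w hw w' hw'
    change (!decide (w = w') && e2B E Q J w w') = true ↔ _
    rw [Bool.and_eq_true, ndec_iff, e2_iff hw hw']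
    rfl
  · intro w w' hw
    exact ⟨hw.1, hw.2.1⟩

theorem core_iff (h : LCtx E U W J) (hn : 49 * J.length ≤ W.length) :
    core E W J = true ↔ Feas (GG E) W.toFinset (Zf J) := by
  have hC := h.ctx
  have hcard := card_index J
  have hWc : W.toFinset.card = W.length := List.toFinset_card_of_nodup h.hWn
  unfold core
  by_cases hJ0 : J.length = 0
  · have hJ : J = [] := List.length_eq_zero_iff.1 hJ0
    simp only [hJ0, decide_true, Bool.true_or, true_iff]
    subst hJ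
    exact ⟨fun _ => ∅, fun i => absurd i.2 (by simp), fun i => absurd i.2 (by simp)⟩
  have hk : 1 ≤ J.length := by omega
  -- both tests are correct
  have t1 : ∀ t, t ∈ J.flatten → 9 * J.length ≤ (repsB E W t).length →
      (test1 E W (repsB E W t) J.length J = true ↔ Feas (GG E) W.toFinset (Zf J)) := by
    intro t ht hb
    have hDn := nodup_reps (E := E) h.hWn t
    rw [test1_iff h hDn]
    have hDW : (repsB E W t).toFinset ⊆ W.toFinset := by
      intro x hx
      rw [List.mem_toFinset] at hx ⊢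
      exact (List.mem_filter.1 (List.mem_filter.1 hx).1).1
    have hD : ∀ x ∈ (repsB E W t).toFinset, ∀ y ∈ (repsB E W t).toFinset, x ≠ y →
        (GG E).Adj x y := by
      rw [reps_eq]; exact reps_clique
    have hc : 9 * J.length ≤ (repsB E W t).toFinset.card := by
      rw [List.toFinset_card_of_nodup hDn]; exact hb
    exact ⟨fun hA => method1_suf hC hDW hD hk hc hcard hA, fun hF => method1_nec hC hDW hD hk hc hF⟩
  have tU : ∀ t, t ∈ J.flatten → t ∈ U ∧ t ∉ W.toFinset := by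
    intro t ht
    obtain ⟨Z, hZ, htZ⟩ := List.mem_flatten.1 ht
    have htZ' := List.mem_toFinset.2 htZ
    exact ⟨h.hJU Z hZ htZ', Finset.disjoint_left.1 (h.hJW Z hZ) htZ'⟩
  have t2 : ∀ t, t ∈ J.flatten → ∀ w ∈ nnB E W t, 2 * J.length + 1 ≤ (clsB E W t w).length →
      (test2 E W (clsB E W t w) J = true ↔ Feas (GG E) W.toFinset (Zf J)) := by
    intro t ht w hw hb
    have hQn := nodup_cls (E := E) h.hWn t w
    rw [test2_iff h]
    have hQW : (clsB E W t w).toFinset ⊆ W.toFinset := by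
      intro x hx
      rw [List.mem_toFinset] at hx ⊢
      exact (List.mem_filter.1 (List.mem_filter.1 hx).1).1
    have hQ : ∀ x ∈ (clsB E W t w).toFinset, ∀ y ∈ (clsB E W t w).toFinset,
        ¬ (GG E).Adj x y := by
      rw [cls_eq]
      exact cls_indep h.hK h.hWU (tU t ht).1 (tU t ht).2 (mem_nn.1 hw)
    have hc : 2 * J.length + 1 ≤ (clsB E W t w).toFinset.card := by
      rw [List.toFinset_card_of_nodup hQn]; exact hb
    exact ⟨fun hA => method2_suf hC hQW hQ hk hc hcard hA,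
      fun hF => method2_nec hC hQW hQ (by omega) hF⟩
  simp only [Bool.or_eq_true, Bool.and_eq_true, decide_eq_true_eq, List.any_eq_true,
    List.all_eq_true]
  constructor
  · rintro (((h0 | ⟨t, ht, h1, h2⟩) | ⟨t, ht, w, hw, h1, h2⟩) | ⟨h1, h2⟩)
    · exact absurd h0 hJ0
    · exact (t1 t ht h1).1 h2
    · exact (t2 t ht w hw h1).1 h2
    · refine final_suf hC hk hcard (by rw [hWc]; exact hn) ?_ ?_ ?_
      · intro i t ht
        have := (h1 t (List.mem_flatten.2 ⟨i.1, i.2, List.mem_toFinset.1 ht⟩)).1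
        rw [← reps_eq, List.toFinset_card_of_nodup (nodup_reps h.hWn t)]
        exact this
      · intro i t ht w hw
        have := (h1 t (List.mem_flatten.2 ⟨i.1, i.2, List.mem_toFinset.1 ht⟩)).2 w (mem_nn.2 hw)
        rw [← cls_eq, List.toFinset_card_of_nodup (nodup_cls h.hWn t w)]
        exact this
      · intro i
        exact opt_iff.1 (h2 i.1 i.2)
  · intro hF
    by_cases b1 : ∃ t ∈ J.flatten, 9 * J.length ≤ (repsB E W t).length
    · obtain ⟨t, ht, hb⟩ := b1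
      exact Or.inl (Or.inl (Or.inr ⟨t, ht, hb, (t1 t ht hb).2 hF⟩))
    · by_cases b2 : ∃ t ∈ J.flatten, ∃ w ∈ nnB E W t, 2 * J.length + 1 ≤ (clsB E W t w).length
      · obtain ⟨t, ht, w, hw, hb⟩ := b2
        exact Or.inl (Or.inr ⟨t, ht, w, hw, hb, (t2 t ht w hw hb).2 hF⟩)
      · push Not at b1 b2
        exact Or.inr ⟨fun t ht => ⟨b1 t ht, fun w hw => b2 t ht w hw⟩,
          fun Z hZ => opt_iff.2 (final_nec hC hF ⟨Z, hZ⟩)⟩

end Pool.Agent.Helper878_dcs
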