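import Pool.Agent.Helper878_dcs.Defs
import Pool.Agent.Helper878_dcs.Corr2

/-!
# From the official formulation to lists
-/

set_option autoImplicit false

namespace Pool.Agent.Helper878_dcs

open scoped Classical
open Pool.Agent.NPC

section
variable {V : List ℕ} {E : List (ℕ × ℕ)}

theorem graph_adj {u v : {v // v ∈ V}} : (graph V E).Adj u v ↔ (GG E).Adj u.1 v.1 := by
  unfold graph GG
  simp only [ne_eq, Subtype.ext_iff]

/-- the two notions of connectivity agree -/
theorem con_iff {T : Finset ℕ} (hT : T ⊆ V.toFinset) {S : Set {v // v ∈ V}}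
    (hS : ∀ v : {v // v ∈ V}, v ∈ S ↔ v.1 ∈ T) :
    Con (GG E) T ↔ ((graph V E).induce S).Connected := by
  constructor
  · rintro ⟨⟨x, hx⟩, hcut⟩
    have hmk : ∀ y ∈ T, ∃ h : y ∈ V, (⟨y, h⟩ : {v // v ∈ V}) ∈ S := fun y hy =>
      ⟨List.mem_toFinset.1 (hT hy), (hS _).2 hy⟩
    rw [SimpleGraph.connected_iff]
    refine ⟨?_, ?_⟩
    · intro u v
      have hu : u.1.1 ∈ T := (hS _).1 u.2
      have hv : v.1.1 ∈ T := (hS _).1 v.2
      have := hcut (T.filter fun y => ∃ z : S, z.1.1 = y ∧ ((graph V E).induce S).Reachable u z)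
        (Finset.filter_subset _ _) ⟨u.1.1, Finset.mem_filter.2 ⟨hu, u, rfl, SimpleGraph.Reachable.refl _⟩⟩
        (by
          intro y hy z hz hyz
          rw [Finset.mem_filter] at hy ⊢
          obtain ⟨_, y', rfl, hr⟩ := hy
          obtain ⟨h1, h2⟩ := hmk z hz
          refine ⟨hz, ⟨⟨z, h1⟩, h2⟩, rfl, hr.trans (SimpleGraph.Adj.reachable ?_)⟩
          rw [SimpleGraph.induce_adj]
          exact graph_adj.2 hyz)
      rw [← this, Finset.mem_filter] at hv
      obtain ⟨_, z, hz, hr⟩ := hv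
      have : z = v := Subtype.ext (Subtype.ext hz)
      rw [← this]
      exact hr
    · obtain ⟨h1, h2⟩ := hmk x hx
      exact ⟨⟨⟨x, h1⟩, h2⟩⟩
  · intro hc
    rw [SimpleGraph.connected_iff] at hc
    obtain ⟨hp, ⟨x⟩⟩ := hc
    refine ⟨⟨x.1.1, (hS _).1 x.2⟩, ?_⟩
    intro T' hT' hne hcl
    obtain ⟨y, hy⟩ := hne
    refine Finset.Subset.antisymm hT' ?_
    intro z hz
    have hyV : y ∈ V := List.mem_toFinset.1 (hT (hT' hy))
    have hzV : z ∈ V := List.mem_toFinset.1 (hT hz)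
    have hyS : (⟨y, hyV⟩ : {v // v ∈ V}) ∈ S := (hS _).2 (hT' hy)
    have hzS : (⟨z, hzV⟩ : {v // v ∈ V}) ∈ S := (hS _).2 hz
    obtain ⟨p⟩ := hp ⟨⟨y, hyV⟩, hyS⟩ ⟨⟨z, hzV⟩, hzS⟩
    have key : ∀ {a b : S} (_ : ((graph V E).induce S).Walk a b), a.1.1 ∈ T' → b.1.1 ∈ T' := by
      intro a b q
      induction q with
      | nil => exact id
      | @cons a b c hab _ ih =>
        intro ha
        refine ih (hcl _ ha _ ((hS _).1 b.2) ?_)
        rw [SimpleGraph.induce_adj] at hab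
        exact graph_adj.1 hab
    exact key p hy

theorem free_iff : Free twoP1P2 (graph V E) ↔ KP (GG E) V.toFinset := by
  constructor
  · intro hF x hx y hy u hu v hv hxy hxu hyu hxv hyv huv
    by_contra hn
    rw [List.mem_toFinset] at hx hy hu hv
    refine hF.false ⟨⟨fun a => Sum.elim (fun i : Fin 2 => if i = 0 then ⟨u, hu⟩ else ⟨v, hv⟩)
      (fun i : Fin 2 => if i = 0 then ⟨x, hx⟩ else ⟨y, hy⟩) a, ?_⟩, ?_⟩
    · have e1 : x ≠ y := hxy.ne
      have e2 : u ≠ x := fun h => hyu (h ▸ hxy.symm)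
      have e3 : u ≠ y := fun h => hxu (h ▸ hxy)
      have e4 : v ≠ x := fun h => hyv (h ▸ hxy.symm)
      have e5 : v ≠ y := fun h => hxv (h ▸ hxy)
      rintro (a | a) (b | b) hab <;> fin_cases a <;> fin_cases b <;>
        simp_all [Subtype.ext_iff]
    · rintro (a | a) (b | b) <;> fin_cases a <;> fin_cases b <;>
        simp [twoP1P2, graph_adj, hxy, hxu, hyu, hxv, hyv, hn, SimpleGraph.adj_comm]
  · intro hK
    refine ⟨fun f => ?_⟩
    have ha : ∀ a b, (GG E).Adj (f a).1 (f b).1 ↔ twoP1P2.Adj a b := fun a b => by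
      rw [← graph_adj]; exact f.map_adj_iff
    have hm : ∀ a, (f a).1 ∈ V.toFinset := fun a => List.mem_toFinset.2 (f a).2
    have := hK _ (hm (Sum.inr 0)) _ (hm (Sum.inr 1)) _ (hm (Sum.inl 0)) _ (hm (Sum.inl 1))
      ((ha _ _).2 (by simp [twoP1P2])) (fun h => by simpa [twoP1P2] using (ha _ _).1 h)
      (fun h => by simpa [twoP1P2] using (ha _ _).1 h) (fun h => by simpa [twoP1P2] using (ha _ _).1 h)
      (fun h => by simpa [twoP1P2] using (ha _ _).1 h)
      (fun h => by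
        have := f.injective (Subtype.ext h)
        simp at this)
    simpa [twoP1P2] using (ha _ _).1 this

end

end Pool.Agent.Helper878_dcs
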