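import Pool.Agent.Helper878_dcs.Fam
import Pool.Agent.H671R2.SF.TA10

/-!
# Assignments and maximum matchings
-/

set_option autoImplicit false

namespace Pool.Agent.Helper878_dcs

open Pool.Agent.H671R2.SF

section
variable {α : Type} [DecidableEq α]

omit [DecidableEq α] in
theorem ends_nodup_of {β : Type} (l : List β) (f : β → α × α) (hl : l.Nodup)
    (h1 : ∀ x ∈ l, (f x).1 ≠ (f x).2)
    (h2 : ∀ x ∈ l, ∀ y ∈ l, x ≠ y → (f x).1 ≠ (f y).1 ∧ (f x).1 ≠ (f y).2 ∧ (f x).2 ≠ (f y).1 ∧
      (f x).2 ≠ (f y).2) : (ends (l.map f)).Nodup := by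
  unfold ends
  rw [List.flatMap_map, List.nodup_flatMap]
  refine ⟨fun x hx => by simp [h1 x hx], ?_⟩
  refine List.Pairwise.imp_of_mem ?_ hl
  intro x y hx hy hxy
  have := h2 x hx y hy hxy
  unfold Function.onFun
  rw [List.disjoint_left]
  intro c hc hc'
  simp only [List.mem_cons, List.not_mem_nil, or_false] at hc hc'
  rcases hc with rfl | rfl <;> rcases hc' with h | h
  · exact this.1 h
  · exact this.2.1 h
  · exact this.2.2.1 h
  · exact this.2.2.2 h

omit [DecidableEq α] in
theorem edge_eq_of_mem {M : List (α × α)} (h : (ends M).Nodup) {e f : α × α} (he : e ∈ M)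
    (hf : f ∈ M) {v : α} (hv : v = e.1 ∨ v = e.2) (hv' : v = f.1 ∨ v = f.2) : e = f := by
  by_contra hne
  unfold ends at h
  rw [List.nodup_flatMap] at h
  have hp : ∀ x ∈ M, ∀ y ∈ M, x ≠ y →
      List.Disjoint [x.1, x.2] [y.1, y.2] := by
    have h2 := h.2
    intro x hx y hy hxy
    have p1 : List.Pairwise
        (fun a b : α × α => a ≠ b → List.Disjoint [a.1, a.2] [b.1, b.2]) M :=
      List.Pairwise.imp (fun {a b : α × α}
        (hab : List.Disjoint [a.1, a.2] [b.1, b.2]) (_ : a ≠ b) => hab) h2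
    have p2 : List.Pairwise
        (flip fun a b : α × α => a ≠ b → List.Disjoint [a.1, a.2] [b.1, b.2]) M :=
      List.Pairwise.imp (fun {a b : α × α}
        (hab : List.Disjoint [a.1, a.2] [b.1, b.2]) (_ : b ≠ a) => List.Disjoint.symm hab) h2
    exact List.Pairwise.forall_of_forall_of_flip
      (R := fun a b : α × α => a ≠ b → List.Disjoint [a.1, a.2] [b.1, b.2])
      (fun a _ hne => absurd rfl hne) p1 p2 hx hy hxy
  have := hp e he f hf hne
  rw [List.disjoint_left] at this
  refine this (a := v) ?_ ?_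
  · simpa using hv
  · simpa using hv'

omit [DecidableEq α] in
theorem nodup_of_ends {M : List (α × α)} (h : (ends M).Nodup) : M.Nodup := by
  induction M with
  | nil => exact List.nodup_nil
  | cons e M ih =>
    have h' : (e.1 :: e.2 :: ends M).Nodup := h
    rw [List.nodup_cons, List.nodup_cons] at h'
    rw [List.nodup_cons]
    refine ⟨fun he => h'.2.1 ?_, ih h'.2.2⟩
    unfold ends
    rw [List.mem_flatMap]
    exact ⟨e, he, by simp⟩

theorem assign_iff {ι : Type} [DecidableEq ι] (Hd : Finset ι) (P : ι → ℕ → Prop)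
    (E : ℕ → ℕ → Prop) (W : Finset ℕ) (a : ι → α) (b : ℕ → α)
    (ha : ∀ i ∈ Hd, ∀ j ∈ Hd, a i = a j → i = j) (hb : Function.Injective b)
    (hab : ∀ i ∈ Hd, ∀ w, a i ≠ b w) (V : List α) (L : List (α × α)) (hV : V.Nodup)
    (hVm : ∀ v, v ∈ V ↔ (∃ i ∈ Hd, v = a i) ∨ ∃ w ∈ W, v = b w)
    (hL : ∀ x y, (x, y) ∈ L ↔ (∃ i ∈ Hd, ∃ w ∈ W, x = a i ∧ y = b w ∧ P i w) ∨
      (∃ w ∈ W, ∃ w' ∈ W, x = b w ∧ y = b w' ∧ w ≠ w' ∧ E w w'))
    (hPW : ∀ i w, P i w → w ∈ W) (hEW : ∀ w w', E w w' → w ∈ W ∧ w' ∈ W) :
    Assign Hd P E ↔ Hd.card ≤ (maxM V L).length := by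
  classical
  have hLF : LF L := by
    intro e he h
    have he' : (e.1, e.2) ∈ L := he
    rw [hL] at he'
    rcases he' with ⟨i, hi, w, _, h1, h2, _⟩ | ⟨w, _, w', _, h1, h2, h3, _⟩
    · exact hab i hi w (by rw [← h1, ← h2, h])
    · exact h3 (hb (by rw [← h1, ← h2, h]))
  obtain ⟨hM, hmax⟩ := maxM_spec hV hLF
  constructor
  · rintro ⟨g, hg1, hg2⟩
    -- the edge of an index
    have hex : ∀ i, ∃ e : α × α, i ∈ Hd → adjB L e.1 e.2 = true ∧ e.1 ≠ e.2 ∧
        (e.1 = a i ∨ ∃ w ∈ g i, e.1 = b w) ∧ (e.2 = a i ∨ ∃ w ∈ g i, e.2 = b w) ∧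
        e.1 ∈ V ∧ e.2 ∈ V := by
      intro i
      by_cases hi : i ∈ Hd
      · rcases hg2 i hi with ⟨w, hw, hP⟩ | ⟨w, w', hne, hw, hE⟩
        · refine ⟨(a i, b w), fun _ => ⟨?_, hab i hi w, Or.inl rfl, Or.inr ⟨w, by simp [hw], rfl⟩,
            ?_, ?_⟩⟩
          · unfold adjB
            rw [Bool.or_eq_true]
            exact Or.inl (decide_eq_true ((hL _ _).2 (Or.inl ⟨i, hi, w, hPW i w hP, rfl, rfl, hP⟩)))
          · exact (hVm _).2 (Or.inl ⟨i, hi, rfl⟩)
          · exact (hVm _).2 (Or.inr ⟨w, hPW i w hP, rfl⟩)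
        · have hEW' := hEW w w' hE
          refine ⟨(b w, b w'), fun _ => ⟨?_, fun h => hne (hb h), Or.inr ⟨w, by simp [hw], rfl⟩,
            Or.inr ⟨w', by simp [hw], rfl⟩, ?_, ?_⟩⟩
          · unfold adjB
            rw [Bool.or_eq_true]
            exact Or.inl (decide_eq_true ((hL _ _).2 (Or.inr ⟨w, hEW'.1, w', hEW'.2, rfl, rfl,
              hne, hE⟩)))
          · exact (hVm _).2 (Or.inr ⟨w, hEW'.1, rfl⟩)
          · exact (hVm _).2 (Or.inr ⟨w', hEW'.2, rfl⟩)
      · by_cases hne : Nonempty α
        · exact ⟨(hne.some, hne.some), fun h => absurd h hi⟩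
        · exact absurd ⟨a i⟩ hne
    choose e he using hex
    have hcard : (Hd.toList.map e).length = Hd.card := by
      rw [List.length_map, Finset.length_toList]
    rw [← hcard]
    refine hmax _ ⟨?_, ?_, ?_⟩
    · intro x hx
      rw [List.mem_map] at hx
      obtain ⟨i, hi, rfl⟩ := hx
      exact (he i (Finset.mem_toList.1 hi)).1
    · refine ends_nodup_of _ _ (Finset.nodup_toList Hd)
        (fun i hi => (he i (Finset.mem_toList.1 hi)).2.1) ?_
      intro i hi j hj hij
      have hi' := Finset.mem_toList.1 hi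
      have hj' := Finset.mem_toList.1 hj
      have key : ∀ x y : α, (x = a i ∨ ∃ w ∈ g i, x = b w) → (y = a j ∨ ∃ w ∈ g j, y = b w) →
          x ≠ y := by
        rintro x y (h1 | ⟨w, hw, h1⟩) (h2 | ⟨w', hw', h2⟩) h
        · exact hij (ha i hi' j hj' (by rw [← h1, ← h2, h]))
        · exact hab i hi' w' (by rw [← h1, ← h2, h])
        · exact hab j hj' w (by rw [← h1, ← h2, h])
        · have : w = w' := hb (by rw [← h1, ← h2, h])
          exact Finset.disjoint_left.1 (hg1 i hi' j hj' hij) hw (this ▸ hw')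
      have ei := (he i hi').2.2
      have ej := (he j hj').2.2
      exact ⟨key _ _ ei.1 ej.1, key _ _ ei.1 ej.2.1, key _ _ ei.2.1 ej.1, key _ _ ei.2.1 ej.2.1⟩
    · intro v hv
      unfold ends at hv
      rw [List.mem_flatMap] at hv
      obtain ⟨x, hx, hv⟩ := hv
      rw [List.mem_map] at hx
      obtain ⟨i, hi, rfl⟩ := hx
      have := (he i (Finset.mem_toList.1 hi)).2.2.2.2
      simp only [List.mem_cons, List.not_mem_nil, or_false] at hv
      rcases hv with rfl | rfl
      · exact this.1
      · exact this.2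
  · intro hle
    set M := maxM V L with hMdef
    have hnd := hM.2.1
    have hMadj : ∀ e ∈ M, (e.1, e.2) ∈ L ∨ (e.2, e.1) ∈ L := by
      intro e he
      have := hM.1 e he
      unfold adjB at this
      rw [Bool.or_eq_true, decide_eq_true_eq, decide_eq_true_eq] at this
      exact this
    -- edges touching an index
    set A := Hd.filter fun i => ∃ e ∈ M, a i = e.1 ∨ a i = e.2 with hA
    set B := Hd.filter fun i => ¬ ∃ e ∈ M, a i = e.1 ∨ a i = e.2 with hB
    set M1 := M.toFinset.filter fun e => ∃ i ∈ Hd, a i = e.1 ∨ a i = e.2 with hM1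
    set M2 := M.toFinset.filter fun e => ¬ ∃ i ∈ Hd, a i = e.1 ∨ a i = e.2 with hM2
    have hc1 : A.card + B.card = Hd.card := Finset.card_filter_add_card_filter_not _
    have hc2 : M1.card + M2.card = M.toFinset.card := Finset.card_filter_add_card_filter_not _
    have hc3 : M.toFinset.card = M.length := List.toFinset_card_of_nodup (nodup_of_ends hnd)
    have hc4 : M1.card ≤ A.card := by
      have hch : ∀ e ∈ M1, ∃ i ∈ Hd, a i = e.1 ∨ a i = e.2 := fun e he =>
        (Finset.mem_filter.1 he).2
      rcases M1.eq_empty_or_nonempty with h0 | ⟨e0, he0⟩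
      · rw [h0, Finset.card_empty]; exact Nat.zero_le _
      have : Nonempty ι := ⟨(hch e0 he0).choose⟩
      choose! c hc using hch
      refine Finset.card_le_card_of_injOn c ?_ ?_
      · intro e he
        have h1 := hc e he
        have h2 : e ∈ M := List.mem_toFinset.1 (Finset.mem_filter.1 he).1
        exact Finset.mem_coe.2 (Finset.mem_filter.2 ⟨h1.1, e, h2, h1.2⟩)
      · intro e he f hf hef
        have h1 := hc e he
        have h2 := hc f hf
        have h3 : e ∈ M := List.mem_toFinset.1 (Finset.mem_filter.1 he).1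
        have h4 : f ∈ M := List.mem_toFinset.1 (Finset.mem_filter.1 hf).1
        have h5 : a (c e) = a (c f) := by rw [hef]
        exact edge_eq_of_mem hnd h3 h4 h1.2 (by rw [h5]; exact h2.2)
    have hc5 : B.card ≤ M2.card := by omega
    obtain ⟨φ⟩ : Nonempty (B ↪ M2) := by
      rw [Function.Embedding.nonempty_iff_card_le]
      simpa using hc5
    -- the edge of an index
    have hex : ∀ i, ∃ e : α × α, (i ∈ A → e ∈ M ∧ (a i = e.1 ∨ a i = e.2)) ∧
        (∀ h : i ∈ B, e = (φ ⟨i, h⟩ : α × α)) := by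
      intro i
      by_cases hiA : i ∈ A
      · obtain ⟨e, he, h⟩ := (Finset.mem_filter.1 hiA).2
        exact ⟨e, fun _ => ⟨he, h⟩, fun hiB => absurd ⟨e, he, h⟩ (Finset.mem_filter.1 hiB).2⟩
      · by_cases hiB : i ∈ B
        · exact ⟨(φ ⟨i, hiB⟩ : α × α), fun h => absurd h hiA, fun _ => rfl⟩
        · exact ⟨(a i, a i), fun h => absurd h hiA, fun h => absurd h hiB⟩
    choose f hf using hex
    have hAB : ∀ i ∈ Hd, i ∈ A ∨ i ∈ B := by
      intro i hi
      by_cases h : ∃ e ∈ M, a i = e.1 ∨ a i = e.2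
      · exact Or.inl (Finset.mem_filter.2 ⟨hi, h⟩)
      · exact Or.inr (Finset.mem_filter.2 ⟨hi, h⟩)
    have hφ : ∀ i (h : i ∈ B), (φ ⟨i, h⟩ : α × α) ∈ M ∧
        ¬ ∃ j ∈ Hd, a j = (φ ⟨i, h⟩ : α × α).1 ∨ a j = (φ ⟨i, h⟩ : α × α).2 := by
      intro i h
      have := Finset.mem_filter.1 (φ ⟨i, h⟩).2
      exact ⟨List.mem_toFinset.1 this.1, this.2⟩
    have hfM : ∀ i ∈ Hd, f i ∈ M := by
      intro i hi
      rcases hAB i hi with h | h
      · exact ((hf i).1 h).1
      · rw [(hf i).2 h]; exact (hφ i h).1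
    have hfinj : ∀ i ∈ Hd, ∀ j ∈ Hd, f i = f j → i = j := by
      intro i hi j hj hij
      rcases hAB i hi with h | h <;> rcases hAB j hj with h' | h'
      · have h1 := (hf i).1 h
        have h2 := (hf j).1 h'
        rw [← hij] at h2
        have hadj := hMadj _ h1.1
        rcases h1.2 with e1 | e1 <;> rcases h2.2 with e2 | e2
        · exact ha i hi j hj (by rw [e1, e2])
        · exfalso
          rcases hadj with hL' | hL' <;> rw [hL] at hL'
          · rcases hL' with ⟨_, _, w, _, _, h3, _⟩ | ⟨w, _, w', _, h2, h3, _⟩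
            · exact hab j hj w (by rw [e2, h3])
            · exact hab j hj w' (by rw [e2, h3])
          · rcases hL' with ⟨_, _, w, _, _, h3, _⟩ | ⟨w, _, w', _, h2, h3, _⟩
            · exact hab i hi w (by rw [e1, h3])
            · exact hab i hi w' (by rw [e1, h3])
        · exfalso
          rcases hadj with hL' | hL' <;> rw [hL] at hL'
          · rcases hL' with ⟨_, _, w, _, _, h3, _⟩ | ⟨w, _, w', _, h2, h3, _⟩
            · exact hab i hi w (by rw [e1, h3])
            · exact hab i hi w' (by rw [e1, h3])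
          · rcases hL' with ⟨_, _, w, _, _, h3, _⟩ | ⟨w, _, w', _, h2, h3, _⟩
            · exact hab j hj w (by rw [e2, h3])
            · exact hab j hj w' (by rw [e2, h3])
        · exact ha i hi j hj (by rw [e1, e2])
      · exfalso
        have h1 := (hf i).1 h
        rw [hij, (hf j).2 h'] at h1
        exact (hφ j h').2 ⟨i, hi, h1.2⟩
      · exfalso
        have h1 := (hf j).1 h'
        rw [← hij, (hf i).2 h] at h1
        exact (hφ i h).2 ⟨j, hj, h1.2⟩
      · rw [(hf i).2 h, (hf j).2 h'] at hij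
        have := φ.injective (Subtype.ext hij)
        exact congrArg Subtype.val this
    refine ⟨fun i => W.filter fun w => b w = (f i).1 ∨ b w = (f i).2, ?_, ?_⟩
    · intro i hi j hj hij
      rw [Finset.disjoint_left]
      intro w hw hw'
      rw [Finset.mem_filter] at hw hw'
      exact hij (hfinj i hi j hj (edge_eq_of_mem hnd (hfM i hi) (hfM j hj) hw.2 hw'.2))
    · intro i hi
      have hadj := hMadj _ (hfM i hi)
      have hAi : ∀ x y : α, (x, y) ∈ L → ((x = (f i).1 ∧ y = (f i).2) ∨
          (x = (f i).2 ∧ y = (f i).1)) → (∃ w, (W.filter fun w => b w = (f i).1 ∨ b w = (f i).2)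
            = {w} ∧ P i w) ∨ ∃ w w', w ≠ w' ∧
          (W.filter fun w => b w = (f i).1 ∨ b w = (f i).2) = {w, w'} ∧ E w w' := by
        intro x y hxy hxy'
        rw [hL] at hxy
        rcases hxy with ⟨j, hj, w, hw, h1, h2, h3⟩ | ⟨w, hw, w', hw', h1, h2, hne, h3⟩
        · left
          have hji : j = i := by
            rcases hAB i hi with h | h
            · have h4 := (hf i).1 h
              rcases h4.2 with e1 | e1 <;> rcases hxy' with e2 | e2
              · exact ha j hj i hi (by rw [e1, ← h1, e2.1])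
              · exact absurd (by rw [e1, ← e2.2, h2]) (hab i hi w)
              · exact absurd (by rw [e1, ← e2.2, h2]) (hab i hi w)
              · exact ha j hj i hi (by rw [e1, ← h1, e2.1])
            · exfalso
              have h4 := (hφ i h).2
              rw [← (hf i).2 h] at h4
              refine h4 ⟨j, hj, ?_⟩
              rcases hxy' with e2 | e2
              · exact Or.inl (by rw [← h1, e2.1])
              · exact Or.inr (by rw [← h1, e2.1])
          subst hji
          refine ⟨w, ?_, h3⟩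
          ext u
          rw [Finset.mem_filter, Finset.mem_singleton]
          constructor
          · rintro ⟨_, h⟩
            rcases hxy' with e2 | e2
            · rcases h with h | h
              · exact absurd (by rw [← h1, e2.1, h]) (hab j hj u)
              · exact hb (by rw [h, ← e2.2, h2])
            · rcases h with h | h
              · exact hb (by rw [h, ← e2.2, h2])
              · exact absurd (by rw [← h1, e2.1, h]) (hab j hj u)
          · rintro rfl
            refine ⟨hw, ?_⟩
            rcases hxy' with e2 | e2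
            · exact Or.inr (by rw [← h2, e2.2])
            · exact Or.inl (by rw [← h2, e2.2])
        · right
          refine ⟨w, w', hne, ?_, h3⟩
          ext u
          rw [Finset.mem_filter, Finset.mem_insert, Finset.mem_singleton]
          constructor
          · rintro ⟨_, h⟩
            rcases hxy' with e2 | e2
            · rcases h with h | h
              · exact Or.inl (hb (by rw [h, ← e2.1, h1]))
              · exact Or.inr (hb (by rw [h, ← e2.2, h2]))
            · rcases h with h | h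
              · exact Or.inr (hb (by rw [h, ← e2.2, h2]))
              · exact Or.inl (hb (by rw [h, ← e2.1, h1]))
          · rintro (rfl | rfl)
            · refine ⟨hw, ?_⟩
              rcases hxy' with e2 | e2
              · exact Or.inl (by rw [← h1, e2.1])
              · exact Or.inr (by rw [← h1, e2.1])
            · refine ⟨hw', ?_⟩
              rcases hxy' with e2 | e2
              · exact Or.inr (by rw [← h2, e2.2])
              · exact Or.inl (by rw [← h2, e2.2])
      rcases hadj with h | h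
      · exact hAi _ _ h (Or.inl ⟨rfl, rfl⟩)
      · exact hAi _ _ h (Or.inr ⟨rfl, rfl⟩)

end

end Pool.Agent.Helper878_dcs
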