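import Pool.Agent.Helper878_dcs.Fam

/-!
# Instances with a large clique of free vertices
-/

set_option autoImplicit false

namespace Pool.Agent.Helper878_dcs

open scoped Classical

variable (G : SimpleGraph ℕ)

/-- how many vertices of `D` see the class of `z` -/
noncomputable def cnt (D Z : Finset ℕ) (z : ℕ) : ℕ := (D.filter fun x => ¬ miss G Z x z).card

/-- `w` has many neighbours in `D` -/
def Rich (D : Finset ℕ) (k w : ℕ) : Prop := 6 * k - 2 ≤ (D.filter fun x => G.Adj w x).card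

/-- the vertices that may be given to a hard index -/
def P1 (W D : Finset ℕ) (k : ℕ) (Z : Finset ℕ) (w : ℕ) : Prop :=
  w ∈ W ∧ ∃ z ∈ Z, cnt G D Z z ≤ 3 * k - 2 ∧ ¬ miss G Z w z ∧
    ((∀ z' ∈ Z, ¬ miss G Z w z') ∨ three G Z ∨ Rich G D k w)

/-- the edges that may be given to a hard index -/
def E1 (W D : Finset ℕ) (k : ℕ) (w w' : ℕ) : Prop :=
  w ∈ W ∧ w' ∈ W ∧ Rich G D k w ∧ ¬ Rich G D k w' ∧ G.Adj w w'

variable {G}

section
variable {U W D Z : Finset ℕ} {k : ℕ}

/-- at most one vertex of a clique misses everything -/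
theorem miss_all_unique (hK : KP G U) (hZU : Z ⊆ U) (hDU : D ⊆ U)
    (hD : ∀ x ∈ D, ∀ y ∈ D, x ≠ y → G.Adj x y) (hZne : Z.Nonempty) (hd : ¬ Con G Z) {x y : ℕ}
    (hx : x ∈ D) (hy : y ∈ D) (mx : ∀ z ∈ Z, miss G Z x z) (my : ∀ z ∈ Z, miss G Z y z) :
    x = y := by
  by_contra hxy
  obtain ⟨z, hz⟩ := hZne
  obtain ⟨z', hz', hzz'⟩ := exists_not_near ⟨z, hz⟩ hd z hz
  have := hK x (hDU hx) y (hDU hy) z (hZU hz) z' (hZU hz') (hD x hx y hy hxy)
    (miss_self hz (mx z hz)) (miss_self hz (my z hz)) (miss_self hz' (mx z' hz'))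
    (miss_self hz' (my z' hz')) (fun h => hzz' (h ▸ near_refl _ _))
  exact hzz' (near_of_adj this)

theorem card_missAll_le (hK : KP G U) (hZU : Z ⊆ U) (hDU : D ⊆ U)
    (hD : ∀ x ∈ D, ∀ y ∈ D, x ≠ y → G.Adj x y) (hZne : Z.Nonempty) (hd : ¬ Con G Z) :
    (D.filter fun x => ∀ z ∈ Z, miss G Z x z).card ≤ 1 := by
  rw [Finset.card_le_one]
  intro a ha b hb
  rw [Finset.mem_filter] at ha hb
  exact miss_all_unique hK hZU hDU hD hZne hd ha.1 hb.1 ha.2 hb.2

/-- A vertex which misses the class `z` only and a vertex which sees it cover all classes. -/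
theorem cover_pair (hK : KP G U) (hZU : Z ⊆ U) (hne : Z.Nonempty) (hd : ¬ Con G Z) {x w z : ℕ}
    (hx : x ∈ U) (hz : z ∈ Z) (mx : miss G Z x z) (hxa : ¬ ∀ z' ∈ Z, miss G Z x z')
    (hw : ¬ miss G Z w z) : ∀ z' ∈ Z, ¬ miss G Z x z' ∨ ¬ miss G Z w z' := by
  intro z' hz'
  by_cases h : near G Z z z'
  · exact Or.inr fun hm => hw (miss_congr hK hZU hne hd hz' hz (near_symm h) hm)
  · exact Or.inl fun hm => hxa (miss_all hK hZU hne hd hx hz hz' h mx hm)

/-- poor vertices see the class of a hard `z` -/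
theorem poor_sees (hK : KP G U) (hZU : Z ⊆ U) (hDU : D ⊆ U)
    (hD : ∀ x ∈ D, ∀ y ∈ D, x ≠ y → G.Adj x y) (hk : 1 ≤ k) (hDk : 9 * k ≤ D.card) {w z : ℕ}
    (hwU : w ∈ U) (hwZ : w ∉ Z) (hz : z ∈ Z) (hc : cnt G D Z z ≤ 3 * k - 2)
    (hw : ¬ Rich G D k w) : ¬ miss G Z w z := by
  intro hm
  have h1 : (D.filter fun x => ¬ G.Adj w x ∧ miss G Z x z).card ≥ 2 := by
    have e1 : D.card ≤ (D.filter fun x => ¬ G.Adj w x ∧ miss G Z x z).card +
        ((D.filter fun x => G.Adj w x).card + (D.filter fun x => ¬ miss G Z x z).card) := by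
      refine (Finset.card_le_card ?_).trans ((Finset.card_union_le _ _).trans
        (Nat.add_le_add_left (Finset.card_union_le _ _) _))
      intro x hx
      simp only [Finset.mem_union, Finset.mem_filter]
      by_cases h : G.Adj w x
      · exact Or.inr (Or.inl ⟨hx, h⟩)
      · by_cases h' : miss G Z x z
        · exact Or.inl ⟨hx, h, h'⟩
        · exact Or.inr (Or.inr ⟨hx, h'⟩)
    unfold cnt at hc
    unfold Rich at hw
    omega
  obtain ⟨x, hx, y, hy, hxy⟩ := Finset.one_lt_card.1 (show 1 < _ from h1)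
  rw [Finset.mem_filter] at hx hy
  have := hK x (hDU hx.1) y (hDU hy.1) w hwU z (hZU hz) (hD x hx.1 y hy.1 hxy)
    (fun h => hx.2.1 h.symm) (fun h => hy.2.1 h.symm) (miss_self hz hx.2.2)
    (miss_self hz hy.2.2) (fun h => hwZ (h ▸ hz))
  exact miss_self hz hm this

/-- The partner of a hard index. -/
theorem exists_partner (hK : KP G U) (hZU : Z ⊆ U) (hDU : D ⊆ U)
    (hD : ∀ x ∈ D, ∀ y ∈ D, x ≠ y → G.Adj x y) (hk : 1 ≤ k) (hDk : 9 * k ≤ D.card)
    (hZne : Z.Nonempty) (hd : ¬ Con G Z) {z : ℕ} (hc : cnt G D Z z ≤ 3 * k - 2) (R : Finset ℕ)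
    (hR : R.card ≤ 3 * k - 1) (w : ℕ) (hwR : w ∈ R) :
    ∃ x ∈ D, x ∉ R ∧ miss G Z x z ∧ (¬ ∀ z' ∈ Z, miss G Z x z') ∧ (Rich G D k w → G.Adj w x) := by
  have hL := card_missAll_le hK hZU hDU hD hZne hd
  unfold cnt at hc
  by_cases hr : Rich G D k w
  · have hr' := hr
    unfold Rich at hr
    by_contra hno
    push Not at hno
    have hsub : (D.filter fun x => G.Adj w x) ⊆ (D.filter fun x => ¬ miss G Z x z) ∪
        ((D.filter fun x => ∀ z' ∈ Z, miss G Z x z') ∪ (R.erase w)) := by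
      intro x hx
      rw [Finset.mem_filter] at hx
      simp only [Finset.mem_union, Finset.mem_filter, Finset.mem_erase]
      by_cases h1 : miss G Z x z
      · by_cases h2 : x ∈ R
        · exact Or.inr (Or.inr ⟨fun h => by subst h; exact G.loopless.irrefl _ hx.2, h2⟩)
        · by_cases h3 : ∀ z' ∈ Z, miss G Z x z'
          · exact Or.inr (Or.inl ⟨hx.1, h3⟩)
          · push Not at h3
            exact absurd hx.2 (hno x hx.1 h2 h1 h3).2
      · exact Or.inl ⟨hx.1, h1⟩
    have h1 := (Finset.card_le_card hsub).trans ((Finset.card_union_le _ _).trans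
      (Nat.add_le_add_left (Finset.card_union_le _ _) _))
    have h2 := Finset.card_erase_of_mem hwR
    have h3 : 1 ≤ R.card := Finset.card_pos.2 ⟨w, hwR⟩
    omega
  · by_contra hno
    push Not at hno
    have hsub : D ⊆ (D.filter fun x => ¬ miss G Z x z) ∪
        ((D.filter fun x => ∀ z' ∈ Z, miss G Z x z') ∪ R) := by
      intro x hx
      simp only [Finset.mem_union, Finset.mem_filter]
      by_cases h1 : miss G Z x z
      · by_cases h2 : x ∈ R
        · exact Or.inr (Or.inr h2)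
        · by_cases h3 : ∀ z' ∈ Z, miss G Z x z'
          · exact Or.inr (Or.inl ⟨hx, h3⟩)
          · push Not at h3
            exact absurd (hno x hx h2 h1 h3).1 hr
      · exact Or.inl ⟨hx, h1⟩
    have h1 := (Finset.card_le_card hsub).trans ((Finset.card_union_le _ _).trans
      (Nat.add_le_add_left (Finset.card_union_le _ _) _))
    omega

/-- Easy indices can be served inside `D` whatever has been used before. -/
theorem easy_serve (hK : KP G U) (hZU : Z ⊆ U) (hDU : D ⊆ U)
    (hD : ∀ x ∈ D, ∀ y ∈ D, x ≠ y → G.Adj x y) (hk : 1 ≤ k) (hDk : 9 * k ≤ D.card)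
    (hZne : Z.Nonempty) (hd : ¬ Con G Z) (hc : ∀ z ∈ Z, 3 * k - 2 < cnt G D Z z) (R : Finset ℕ)
    (hR : R.card ≤ 3 * k - 2) :
    ∃ o : Finset ℕ, o ⊆ D ∧ Disjoint o R ∧ o.card ≤ 2 ∧ Con G (Z ∪ o) := by
  have hL := card_missAll_le hK hZU hDU hD hZne hd
  obtain ⟨x, hx, hxR, hxL⟩ : ∃ x ∈ D, x ∉ R ∧ ¬ ∀ z ∈ Z, miss G Z x z := by
    by_contra hno
    push Not at hno
    have hsub : D ⊆ (D.filter fun x => ∀ z' ∈ Z, miss G Z x z') ∪ R := by
      intro x hx
      simp only [Finset.mem_union, Finset.mem_filter]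
      by_cases h2 : x ∈ R
      · exact Or.inr h2
      · exact Or.inl ⟨hx, hno x hx h2⟩
    have h1 := (Finset.card_le_card hsub).trans (Finset.card_union_le _ _)
    omega
  by_cases hxC : ∀ z ∈ Z, ¬ miss G Z x z
  · exact ⟨{x}, by simpa using hx, by simpa using hxR, by simp, con_single hZne hxC⟩
  push Not at hxC
  obtain ⟨z, hz, hmz⟩ := hxC
  obtain ⟨y, hy, hyR, hyz⟩ : ∃ y ∈ D, y ∉ R ∧ ¬ miss G Z y z := by
    by_contra hno
    push Not at hno
    have hsub : (D.filter fun x => ¬ miss G Z x z) ⊆ R := by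
      intro x hx
      rw [Finset.mem_filter] at hx
      by_contra h2
      exact hx.2 (hno x hx.1 h2)
    have h1 := Finset.card_le_card hsub
    have h2 := hc z hz
    unfold cnt at h2
    omega
  have hxy : x ≠ y := fun h => hyz (h ▸ hmz)
  refine ⟨{x, y}, ?_, ?_, Finset.card_le_two, ?_⟩
  · intro v hv
    rw [Finset.mem_insert, Finset.mem_singleton] at hv
    rcases hv with rfl | rfl <;> assumption
  · rw [Finset.disjoint_left]
    intro v hv
    rw [Finset.mem_insert, Finset.mem_singleton] at hv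
    rcases hv with rfl | rfl <;> assumption
  · exact con_pair hZne (cover_pair hK hZU hZne hd (hDU hx) hz hmz hxL hyz)
      (Or.inl (hD x hx y hy hxy))

end

section family
variable {ι : Type} [Fintype ι] [DecidableEq ι] {U W D : Finset ℕ} {Z : ι → Finset ℕ} {k : ℕ}

/-- the hard indices -/
noncomputable def Hd1 (G : SimpleGraph ℕ) (D : Finset ℕ) (k : ℕ) (Z : ι → Finset ℕ) : Finset ι :=
  Finset.univ.filter fun i => ∃ z ∈ Z i, cnt G D (Z i) z ≤ 3 * k - 2

theorem method1_nec (hC : Ctx G U W Z) (hDW : D ⊆ W)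
    (hD : ∀ x ∈ D, ∀ y ∈ D, x ≠ y → G.Adj x y) (hk : 1 ≤ k) (hDk : 9 * k ≤ D.card)
    (hF : Feas G W Z) :
    Assign (Hd1 G D k Z) (fun i => P1 G W D k (Z i)) (E1 G W D k) := by
  obtain ⟨o, ho, hdo⟩ := hF
  have key : ∀ i, ∃ s : Finset ℕ, i ∈ Hd1 G D k Z → s ⊆ o i ∧
      ((∃ w, s = {w} ∧ P1 G W D k (Z i) w) ∨ ∃ w w', w ≠ w' ∧ s = {w, w'} ∧ E1 G W D k w w') := by
    intro i
    by_cases hi : i ∈ Hd1 G D k Z
    swap
    · exact ⟨∅, fun h => absurd h hi⟩
    unfold Hd1 at hi
    rw [Finset.mem_filter] at hi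
    obtain ⟨_, z, hz, hc⟩ := hi
    have hsd : ∀ x ∈ (Z i ∪ o i) \ Z i, x ∈ o i ∧ x ∈ W := by
      intro x hx
      rw [Finset.mem_sdiff, Finset.mem_union] at hx
      rcases hx.1 with h | h
      · exact absurd h hx.2
      · exact ⟨h, (ho i).1 h⟩
    by_cases hex : ∃ b ∈ (Z i ∪ o i) \ Z i, P1 G W D k (Z i) b
    · obtain ⟨b, hb, hPb⟩ := hex
      exact ⟨{b}, fun _ => ⟨by simpa using (hsd b hb).1, Or.inl ⟨b, rfl, hPb⟩⟩⟩
    push Not at hex
    have hnot : ∀ b ∈ (Z i ∪ o i) \ Z i, ¬ miss G (Z i) b z →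
        (∃ z' ∈ Z i, miss G (Z i) b z') ∧ ¬ three G (Z i) ∧ ¬ Rich G D k b := by
      intro b hb hbz
      have h := hex b hb
      unfold P1 at h
      push Not at h
      obtain ⟨h1, h2, h3⟩ := h (hsd b hb).2 z hz hc hbz
      exact ⟨h1, h2, h3⟩
    obtain ⟨b0, hb0, hb0z⟩ := exists_sees hC.hK (hC.hZ i) (hC.hne i) (hC.hdc i)
      Finset.subset_union_left (ho i).2 hz
    obtain ⟨b, hb, a, ha, hbz, haz, hab⟩ := exists_edge hC.hK (hC.hZ i) (hC.hne i) (hC.hdc i)
      Finset.subset_union_left (ho i).2 hz (hnot b0 hb0 hb0z).2.1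
      (fun b hb hbz => (hnot b hb hbz).1)
    have haR : Rich G D k a := by
      by_contra hna
      refine poor_sees hC.hK (hC.hZ i) (hDW.trans hC.hW) hD hk hDk (hC.hW (hsd a ha).2) ?_ hz hc
        hna haz
      exact (Finset.mem_sdiff.1 ha).2
    refine ⟨{a, b}, fun _ => ⟨?_, Or.inr ⟨a, b, hab.ne, rfl, (hsd a ha).2, (hsd b hb).2, haR,
      (hnot b hb hbz).2.2, hab⟩⟩⟩
    intro v hv
    rw [Finset.mem_insert, Finset.mem_singleton] at hv
    rcases hv with rfl | rfl
    · exact (hsd _ ha).1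
    · exact (hsd _ hb).1
  choose s hs using key
  exact ⟨s, fun i hi j hj hij => (hdo i j hij).mono (hs i hi).1 (hs j hj).1, fun i hi => (hs i hi).2⟩

theorem method1_suf (hC : Ctx G U W Z) (hDW : D ⊆ W)
    (hD : ∀ x ∈ D, ∀ y ∈ D, x ≠ y → G.Adj x y) (hk : 1 ≤ k) (hDk : 9 * k ≤ D.card)
    (hcard : Fintype.card ι ≤ k)
    (hA : Assign (Hd1 G D k Z) (fun i => P1 G W D k (Z i)) (E1 G W D k)) :
    Feas G W Z := by
  obtain ⟨g, hg1, hg2⟩ := hA
  set Hd := Hd1 G D k Z with hHd
  have hDU : D ⊆ U := hDW.trans hC.hW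
  have hgc : ∀ i ∈ Hd, (g i).card ≤ 2 := by
    intro i hi
    rcases hg2 i hi with ⟨w, h, _⟩ | ⟨w, w', _, h, _⟩
    · rw [h]; simp
    · rw [h]; exact Finset.card_le_two
  have hgW : ∀ i ∈ Hd, g i ⊆ W := by
    intro i hi v hv
    rcases hg2 i hi with ⟨w, h, h'⟩ | ⟨w, w', _, h, h'⟩
    · rw [h, Finset.mem_singleton] at hv; rw [hv]; exact h'.1
    · rw [h, Finset.mem_insert, Finset.mem_singleton] at hv
      rcases hv with rfl | rfl
      · exact h'.1
      · exact h'.2.1
  have hHk : Hd.card ≤ k := (Finset.card_le_univ Hd).trans hcard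
  have hR0 : (Hd.biUnion g).card ≤ Hd.card * 2 := Finset.card_biUnion_le_card_mul Hd g 2 hgc
  -- partners for the hard indices
  obtain ⟨p, hp1, hp2⟩ := seq_choice Hd 1 (fun i s => s ⊆ W ∧ Con G (Z i ∪ (g i ∪ s)))
    (Hd.biUnion g) (by
      intro i hi R hR hRc
      have hi' := hi
      rw [hHd, Hd1, Finset.mem_filter] at hi'
      have hRc' : R.card ≤ 3 * k - 1 := by
        have : 1 ≤ Hd.card := Finset.card_pos.2 ⟨i, hi⟩
        omega
      have hgR : g i ⊆ R := (Finset.subset_biUnion_of_mem g hi).trans hR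
      rcases hg2 i hi with ⟨w, hw, hwW, z, hz, hc, hwz, hopt⟩ | ⟨w, w', hww', hw, h1, h2, h3, h4, h5⟩
      · obtain ⟨x, hxD, hxR, hxz, hxa, hxw⟩ := exists_partner hC.hK (hC.hZ i) hDU hD hk hDk
          (hC.hne i) (hC.hdc i) hc R hRc' w (hgR (by rw [hw]; simp))
        refine ⟨{x}, by simpa using hxR, by simp, by simpa using hDW hxD, ?_⟩
        have hcov := cover_pair hC.hK (hC.hZ i) (hC.hne i) (hC.hdc i) (hDU hxD) hz hxz hxa hwz
        have hxw' : x ≠ w := fun h => hxR (hgR (by rw [hw, h]; simp))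
        have := con_pair (hC.hne i) (a := x) (b := w) hcov ?_
        · rw [hw]
          convert this using 2
          ext v
          simp only [Finset.mem_union, Finset.mem_singleton, Finset.mem_insert]
          tauto
        · rcases hopt with h | h | h
          · right
            obtain ⟨z', hz', hzz'⟩ := exists_not_near (hC.hne i) (hC.hdc i) z hz
            exact ⟨z', hz', fun hm => hxa (miss_all hC.hK (hC.hZ i) (hC.hne i) (hC.hdc i)
              (hDU hxD) hz hz' hzz' hxz hm), h z' hz'⟩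
          · by_cases hwC : ∀ z' ∈ Z i, ¬ miss G (Z i) w z'
            · right
              obtain ⟨z', hz', hzz'⟩ := exists_not_near (hC.hne i) (hC.hdc i) z hz
              exact ⟨z', hz', fun hm => hxa (miss_all hC.hK (hC.hZ i) (hC.hne i) (hC.hdc i)
                (hDU hxD) hz hz' hzz' hxz hm), hwC z' hz'⟩
            · push Not at hwC
              obtain ⟨z0, hz0, hm0⟩ := hwC
              right
              have hzz0 : ¬ near G (Z i) z z0 := fun h' => hwz (miss_congr hC.hK (hC.hZ i)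
                (hC.hne i) (hC.hdc i) hz0 hz (near_symm h') hm0)
              have htr : ∀ a ∈ Z i, ∀ b ∈ Z i, ∀ c ∈ Z i, near G (Z i) a b → near G (Z i) b c →
                  near G (Z i) a c := fun a ha b hb c hc' h1 h2 =>
                near_trans hC.hK (hC.hZ i) (hC.hne i) (hC.hdc i) ha hb hc' h1 h2
              -- a third class
              obtain ⟨z3, hz3, n1, n2⟩ : ∃ z3 ∈ Z i, ¬ near G (Z i) z z3 ∧ ¬ near G (Z i) z0 z3 := by
                obtain ⟨a, ha, b, hb, c, hc', nab, nac, nbc⟩ := h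
                by_contra hno
                push Not at hno
                have hh : ∀ y ∈ Z i, near G (Z i) z y ∨ near G (Z i) z0 y := fun y hy => by
                  by_cases h' : near G (Z i) z y
                  · exact Or.inl h'
                  · exact Or.inr (hno y hy h')
                have comb : ∀ t ∈ Z i, ∀ u ∈ Z i, ∀ v ∈ Z i, near G (Z i) t u → near G (Z i) t v →
                    near G (Z i) u v := fun t ht u hu v hv h1 h2 =>
                  htr u hu t ht v hv (near_symm h1) h2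
                rcases hh a ha with h1 | h1 <;> rcases hh b hb with h2 | h2 <;>
                  rcases hh c hc' with h3 | h3
                · exact nab (comb z hz a ha b hb h1 h2)
                · exact nab (comb z hz a ha b hb h1 h2)
                · exact nac (comb z hz a ha c hc' h1 h3)
                · exact nbc (comb z0 hz0 b hb c hc' h2 h3)
                · exact nbc (comb z hz b hb c hc' h2 h3)
                · exact nac (comb z0 hz0 a ha c hc' h1 h3)
                · exact nab (comb z0 hz0 a ha b hb h1 h2)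
                · exact nab (comb z0 hz0 a ha b hb h1 h2)
              exact ⟨z3, hz3, fun hm => hxa (miss_all hC.hK (hC.hZ i) (hC.hne i) (hC.hdc i)
                (hDU hxD) hz hz3 n1 hxz hm), fun hm => hwz (miss_all hC.hK (hC.hZ i) (hC.hne i)
                (hC.hdc i) (hC.hW hwW) hz0 hz3 n2 hm0 hm z hz)⟩
          · exact Or.inl (hxw h).symm
      · obtain ⟨_, z, hz, hc⟩ := hi'
        obtain ⟨x, hxD, hxR, hxz, hxa, hxw⟩ := exists_partner hC.hK (hC.hZ i) hDU hD hk hDk
          (hC.hne i) (hC.hdc i) hc R hRc' w (hgR (by rw [hw]; simp))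
        refine ⟨{x}, by simpa using hxR, by simp, by simpa using hDW hxD, ?_⟩
        have hw'Z : w' ∉ Z i := fun h => (Finset.disjoint_left.1 (hC.hZW i) h) h2
        have hw'z := poor_sees hC.hK (hC.hZ i) hDU hD hk hDk (hC.hW h2) hw'Z hz hc h4
        have hcov := cover_pair hC.hK (hC.hZ i) (hC.hne i) (hC.hdc i) (hDU hxD) hz hxz hxa hw'z
        have := con_triple (hC.hne i) (a := w') (b := x) (l := w) (fun z' hz' => by
          rcases hcov z' hz' with h | h
          · exact Or.inr (Or.inl h)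
          · exact Or.inl h) h5.symm (hxw h3).symm
        rw [hw]
        convert this using 2
        ext v
        simp only [Finset.mem_union, Finset.mem_singleton, Finset.mem_insert]
        tauto)
  -- the easy indices
  set q : ι → Finset ℕ := fun i => g i ∪ p i with hq
  have hqc : ∀ i ∈ Hd, (q i).card ≤ 3 := by
    intro i hi
    have h1 := Finset.card_union_le (g i) (p i)
    have h2 := hgc i hi
    have h3 := (hp1 i hi).2.1
    change (g i ∪ p i).card ≤ 3
    omega
  have hqd : ∀ i ∈ Hd, ∀ j ∈ Hd, i ≠ j → Disjoint (q i) (q j) := by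
    intro i hi j hj hij
    rw [hq, Finset.disjoint_union_left, Finset.disjoint_union_right, Finset.disjoint_union_right]
    refine ⟨⟨hg1 i hi j hj hij, ?_⟩, ?_, hp2 i hi j hj hij⟩
    · exact ((hp1 j hj).2.2.mono_right (Finset.subset_biUnion_of_mem g hi)).symm
    · exact (hp1 i hi).2.2.mono_right (Finset.subset_biUnion_of_mem g hj)
  have hR1 : (Hd.biUnion q).card ≤ Hd.card * 3 := Finset.card_biUnion_le_card_mul Hd q 3 hqc
  have hcompl : Hd.card + (Finset.univ \ Hd).card = Fintype.card ι := by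
    rw [Finset.card_sdiff_of_subset (Finset.subset_univ _), Finset.card_univ]
    have := Finset.card_le_univ Hd
    omega
  obtain ⟨e, he1, he2⟩ := seq_choice (Finset.univ \ Hd) 3 (fun i s => s ⊆ W ∧ Con G (Z i ∪ s))
    (Hd.biUnion q) (by
      intro i hi R _ hRc
      have h1 : 1 ≤ (Finset.univ \ Hd).card := Finset.card_pos.2 ⟨i, hi⟩
      have hRk : R.card ≤ 3 * k - 2 := by omega
      have hc : ∀ z ∈ Z i, 3 * k - 2 < cnt G D (Z i) z := by
        intro z hz
        by_contra hno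
        rw [Finset.mem_sdiff] at hi
        refine hi.2 ?_
        rw [hHd, Hd1, Finset.mem_filter]
        exact ⟨Finset.mem_univ _, z, hz, by omega⟩
      obtain ⟨o, ho1, ho2, ho3, ho4⟩ := easy_serve hC.hK (hC.hZ i) hDU hD hk hDk (hC.hne i)
        (hC.hdc i) hc R hRk
      exact ⟨o, ho2, by omega, ho1.trans hDW, ho4⟩)
  refine ⟨fun i => if i ∈ Hd then q i else e i, ?_, ?_⟩
  · intro i
    by_cases hi : i ∈ Hd
    · simp only [hi, if_true]
      exact ⟨Finset.union_subset (hgW i hi) (hp1 i hi).1.1, (hp1 i hi).1.2⟩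
    · simp only [hi, if_false]
      exact (he1 i (Finset.mem_sdiff.2 ⟨Finset.mem_univ _, hi⟩)).1
  · intro i j hij
    by_cases hi : i ∈ Hd <;> by_cases hj : j ∈ Hd <;> simp only [hi, hj, if_true, if_false]
    · exact hqd i hi j hj hij
    · exact ((he1 j (Finset.mem_sdiff.2 ⟨Finset.mem_univ _, hj⟩)).2.2.mono_right
        (Finset.subset_biUnion_of_mem q hi)).symm
    · exact (he1 i (Finset.mem_sdiff.2 ⟨Finset.mem_univ _, hi⟩)).2.2.mono_right
        (Finset.subset_biUnion_of_mem q hj)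
    · exact he2 i (Finset.mem_sdiff.2 ⟨Finset.mem_univ _, hi⟩) j
        (Finset.mem_sdiff.2 ⟨Finset.mem_univ _, hj⟩) hij

end family

end Pool.Agent.Helper878_dcs
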