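import Pool.Agent.Helper878_dcs.Algo
import Pool.Agent.Helper878_dcs.Match
import Pool.Agent.Helper878_dcs.Final
import Pool.Agent.Helper878_dcs.Method1

/-!
# The programs on lists compute what they should
-/

set_option autoImplicit false

namespace Pool.Agent.Helper878_dcs

open scoped Classical
open Pool.Agent.H671R2.SF

/-- the graph on the natural numbers given by a list of edges -/
def GG (E : List (ℕ × ℕ)) : SimpleGraph ℕ where
  Adj u v := u ≠ v ∧ ((u, v) ∈ E ∨ (v, u) ∈ E)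
  symm := ⟨fun _ _ h => ⟨h.1.symm, h.2.symm⟩⟩
  loopless := ⟨fun _ h => h.1 rfl⟩

variable {E : List (ℕ × ℕ)}

theorem ndec_iff {p : Prop} [Decidable p] : (!decide p) = true ↔ ¬ p := by simp

theorem adj_iff {u v : ℕ} : adj E u v = true ↔ (GG E).Adj u v := by
  unfold adj GG
  simp

theorem nadj_iff {u v : ℕ} : (!adj E u v) = true ↔ ¬ (GG E).Adj u v := by
  rw [Bool.not_eq_true', ← Bool.not_eq_true, adj_iff]

theorem near_iff {Z : List ℕ} {z z' : ℕ} :
    nearB E Z z z' = true ↔ near (GG E) Z.toFinset z z' := by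
  unfold nearB near
  rw [Bool.or_eq_true, Bool.or_eq_true, decide_eq_true_eq, adj_iff, List.any_eq_true, or_assoc]
  simp only [Bool.and_eq_true, adj_iff, List.mem_toFinset]

theorem nnear_iff {Z : List ℕ} {z z' : ℕ} :
    (!nearB E Z z z') = true ↔ ¬ near (GG E) Z.toFinset z z' := by
  rw [Bool.not_eq_true', ← Bool.not_eq_true, near_iff]

theorem miss_iff {Z : List ℕ} {w z : ℕ} :
    missB E Z w z = true ↔ miss (GG E) Z.toFinset w z := by
  unfold missB miss
  rw [List.all_eq_true]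
  simp only [Bool.or_eq_true, nnear_iff, nadj_iff, List.mem_toFinset]
  exact ⟨fun h z' hz' hn => (h z' hz').resolve_left (not_not.2 hn), fun h z' hz' => by
    by_cases hn : near (GG E) Z.toFinset z z'
    · exact Or.inr (h z' hz' hn)
    · exact Or.inl hn⟩

theorem nmiss_iff {Z : List ℕ} {w z : ℕ} :
    (!missB E Z w z) = true ↔ ¬ miss (GG E) Z.toFinset w z := by
  rw [Bool.not_eq_true', ← Bool.not_eq_true, miss_iff]

theorem three_iff {Z : List ℕ} : threeB E Z = true ↔ three (GG E) Z.toFinset := by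
  unfold threeB three
  simp only [List.any_eq_true, Bool.and_eq_true, nnear_iff, List.mem_toFinset, and_assoc]

theorem length_filter {α : Type} [DecidableEq α] {D : List α} (hD : D.Nodup) {p : α → Bool}
    {P : α → Prop} [DecidablePred P] (h : ∀ x ∈ D, p x = true ↔ P x) :
    (D.filter p).length = (D.toFinset.filter P).card := by
  rw [← List.toFinset_card_of_nodup (hD.filter _)]
  congr 1
  ext x
  rw [List.mem_toFinset, List.mem_filter, Finset.mem_filter, List.mem_toFinset]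
  exact ⟨fun ⟨h1, h2⟩ => ⟨h1, (h x h1).1 h2⟩, fun ⟨h1, h2⟩ => ⟨h1, (h x h1).2 h2⟩⟩

theorem cnt_iff {D Z : List ℕ} (hD : D.Nodup) {z : ℕ} :
    cntB E D Z z = cnt (GG E) D.toFinset Z.toFinset z := by
  unfold cntB cnt
  exact length_filter hD (P := fun x => ¬ miss (GG E) Z.toFinset x z)
    (fun x _ => nmiss_iff)

theorem rich_iff {D : List ℕ} (hD : D.Nodup) {k w : ℕ} :
    richB E D k w = true ↔ Rich (GG E) D.toFinset k w := by
  unfold richB Rich
  rw [decide_eq_true_eq, length_filter hD fun _ _ => adj_iff]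

theorem nrich_iff {D : List ℕ} (hD : D.Nodup) {k w : ℕ} :
    (!richB E D k w) = true ↔ ¬ Rich (GG E) D.toFinset k w := by
  rw [Bool.not_eq_true', ← Bool.not_eq_true, rich_iff hD]

theorem p1_iff {W D Z : List ℕ} (hD : D.Nodup) {k w : ℕ} (hw : w ∈ W) :
    p1B E D k Z w = true ↔ P1 (GG E) W.toFinset D.toFinset k Z.toFinset w := by
  unfold p1B P1
  simp only [List.any_eq_true, List.all_eq_true, Bool.and_eq_true, Bool.or_eq_true, miss_iff,
    nmiss_iff, three_iff, rich_iff hD, cnt_iff hD, decide_eq_true_eq, List.mem_toFinset, hw,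
    true_and, and_assoc, or_assoc]

theorem e1_iff {W D : List ℕ} (hD : D.Nodup) {k w w' : ℕ} (hw : w ∈ W) (hw' : w' ∈ W) :
    e1B E D k w w' = true ↔ E1 (GG E) W.toFinset D.toFinset k w w' := by
  unfold e1B E1
  simp only [Bool.and_eq_true, rich_iff hD, nrich_iff hD, adj_iff, List.mem_toFinset, hw, hw',
    true_and, and_assoc]

theorem qp_iff {Q : List ℕ} {v : ℕ} : qpB E Q v = true ↔ Qp (GG E) Q.toFinset v := by
  unfold qpB Qp
  simp only [List.all_eq_true, nadj_iff, List.mem_toFinset]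

theorem nqp_iff {Q : List ℕ} {v : ℕ} : (!qpB E Q v) = true ↔ ¬ Qp (GG E) Q.toFinset v := by
  rw [Bool.not_eq_true', ← Bool.not_eq_true, qp_iff]

theorem on_iff {Q Z : List ℕ} {z : ℕ} :
    onB E Q Z z = true ↔ onA (GG E) Q.toFinset Z.toFinset z := by
  unfold onB onA
  simp only [Bool.and_eq_true, List.all_eq_true, nadj_iff, qp_iff, decide_eq_true_eq,
    List.mem_toFinset, and_assoc]

theorem non_iff {Q Z : List ℕ} {z : ℕ} :
    (!onB E Q Z z) = true ↔ ¬ onA (GG E) Q.toFinset Z.toFinset z := by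
  rw [Bool.not_eq_true', ← Bool.not_eq_true, on_iff]

theorem p2_iff {W Q Z : List ℕ} {w : ℕ} (hw : w ∈ W) :
    p2B E Q Z w = true ↔ P2 (GG E) W.toFinset Q.toFinset Z.toFinset w := by
  unfold p2B P2
  simp only [List.all_eq_true, Bool.or_eq_true, non_iff, adj_iff, List.mem_toFinset, hw, true_and]
  refine ⟨fun h z hz => (h z (List.mem_toFinset.1 hz.1)).resolve_left (not_not.2 hz),
    fun h z _ => ?_⟩
  by_cases hn : onA (GG E) Q.toFinset Z.toFinset z
  · exact Or.inr (h z hn)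
  · exact Or.inl hn

theorem e2_iff {W Q : List ℕ} {J : List (List ℕ)} {w w' : ℕ} (hw : w ∈ W) (hw' : w' ∈ W) :
    e2B E Q J w w' = true ↔
      E2 (GG E) W.toFinset Q.toFinset (fun i : {Z // Z ∈ J} => i.1.toFinset) w w' := by
  unfold e2B E2
  simp only [Bool.and_eq_true, nqp_iff, nadj_iff, List.any_eq_true, on_iff, List.mem_toFinset, hw,
    hw', true_and, ndec_iff]
  constructor
  · rintro ⟨⟨h1, h2⟩, Z, hZ, z, _, z', _, ⟨⟨⟨h3, h4⟩, h5⟩, h6⟩, h7⟩
    exact ⟨h1, h2, ⟨Z, hZ⟩, z, z', h3, h4, h5, h6, h7⟩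
  · rintro ⟨h1, h2, ⟨Z, hZ⟩, z, z', h3, h4, h5, h6, h7⟩
    exact ⟨⟨h1, h2⟩, Z, hZ, z, List.mem_toFinset.1 h3.1, z', List.mem_toFinset.1 h4.1,
      ⟨⟨⟨h3, h4⟩, h5⟩, h6⟩, h7⟩

theorem optPair_iff {W Z : List ℕ} {a b z z' : ℕ} : optPair E W Z a b z z' = true ↔
    ¬ near (GG E) Z.toFinset z z' ∧ miss (GG E) Z.toFinset a z ∧ ¬ miss (GG E) Z.toFinset a z' ∧
      miss (GG E) Z.toFinset b z' ∧ ¬ miss (GG E) Z.toFinset b z ∧ ((GG E).Adj a b ∨
        (∃ z₃ ∈ Z.toFinset, ¬ near (GG E) Z.toFinset z z₃ ∧ ¬ near (GG E) Z.toFinset z' z₃) ∨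
        ∃ l ∈ W.toFinset, (GG E).Adj a l ∧ (GG E).Adj b l) := by
  unfold optPair
  simp only [Bool.and_eq_true, Bool.or_eq_true, nnear_iff, miss_iff, nmiss_iff, adj_iff,
    List.any_eq_true, List.mem_toFinset, and_assoc, or_assoc]

theorem opt_iff {W Z : List ℕ} : optB E W Z = true ↔ Opt (GG E) W.toFinset Z.toFinset := by
  unfold optB Opt
  simp only [Bool.or_eq_true, List.any_eq_true, List.all_eq_true, nmiss_iff, optPair_iff,
    List.mem_toFinset]

theorem nn_eq {W : List ℕ} {t : ℕ} : (nnB E W t).toFinset = NN (GG E) W.toFinset t := by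
  ext x
  unfold nnB NN
  rw [List.mem_toFinset, List.mem_filter, Finset.mem_filter, nadj_iff, List.mem_toFinset]

theorem mem_nn {W : List ℕ} {t x : ℕ} : x ∈ nnB E W t ↔ x ∈ NN (GG E) W.toFinset t := by
  rw [← nn_eq, List.mem_toFinset]

theorem cls_eq {W : List ℕ} {t w : ℕ} :
    (clsB E W t w).toFinset = cls (GG E) W.toFinset t w := by
  ext x
  unfold clsB cls
  rw [List.mem_toFinset, List.mem_filter, Finset.mem_filter, nadj_iff, mem_nn]

theorem reps_eq {W : List ℕ} {t : ℕ} : (repsB E W t).toFinset = reps (GG E) W.toFinset t := by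
  ext x
  unfold repsB reps
  rw [List.mem_toFinset, List.mem_filter, Finset.mem_filter, mem_nn, List.all_eq_true]
  simp only [Bool.or_eq_true, adj_iff, mem_nn, Bool.not_eq_true', decide_eq_false_iff_not]
  refine and_congr_right fun _ => ⟨fun h y hy hyx => (h y hy).resolve_left (not_not.2 hyx),
    fun h y hy => ?_⟩
  by_cases hyx : y < x
  · exact Or.inr (h y hy hyx)
  · exact Or.inl hyx

theorem nodup_nn {W : List ℕ} (hW : W.Nodup) (t : ℕ) : (nnB E W t).Nodup := hW.filter _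

theorem nodup_cls {W : List ℕ} (hW : W.Nodup) (t w : ℕ) : (clsB E W t w).Nodup :=
  (nodup_nn hW t).filter _

theorem nodup_reps {W : List ℕ} (hW : W.Nodup) (t : ℕ) : (repsB E W t).Nodup :=
  (nodup_nn hW t).filter _

theorem disc_iff {U : Finset ℕ} (hK : KP (GG E) U) {Z : List ℕ} (hZ : Z.toFinset ⊆ U)
    (hne : Z ≠ []) : discB E Z = true ↔ ¬ Con (GG E) Z.toFinset := by
  have hne' : Z.toFinset.Nonempty := by
    obtain ⟨z, hz⟩ := List.exists_mem_of_ne_nil Z hne
    exact ⟨z, List.mem_toFinset.2 hz⟩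
  unfold discB
  rw [Bool.and_eq_true]
  simp only [List.any_eq_true, List.all_eq_true, Bool.or_eq_true, nnear_iff, near_iff, or_assoc]
  constructor
  · rintro ⟨⟨x, hx, y, hy, hxy⟩, h⟩
    refine not_con_of_near (List.mem_toFinset.2 hx) (List.mem_toFinset.2 hy) hxy ?_
    intro a ha b hb c hc h1 h2
    rcases h a (List.mem_toFinset.1 ha) b (List.mem_toFinset.1 hb) c (List.mem_toFinset.1 hc) with
      h3 | h3 | h3
    · exact absurd h1 h3
    · exact absurd h2 h3
    · exact h3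
  · intro hd
    constructor
    · obtain ⟨z, hz⟩ := hne'
      obtain ⟨z', hz', h⟩ := exists_not_near ⟨z, hz⟩ hd z hz
      exact ⟨z, List.mem_toFinset.1 hz, z', List.mem_toFinset.1 hz', h⟩
    · intro a ha b hb c hc
      by_cases h1 : near (GG E) Z.toFinset a b
      · by_cases h2 : near (GG E) Z.toFinset b c
        · exact Or.inr (Or.inr (near_trans hK hZ hne' hd (List.mem_toFinset.2 ha)
            (List.mem_toFinset.2 hb) (List.mem_toFinset.2 hc) h1 h2))
        · exact Or.inr (Or.inl h2)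
      · exact Or.inl h1

end Pool.Agent.Helper878_dcs
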