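import Mathlib

/-!
# Disjoint Connected Subgraphs on `(2P_1+P_2)`-free graphs: definitions
-/

set_option autoImplicit false

namespace Pool.Agent.Helper878_dcs

/-- An input of Disjoint Connected Subgraphs: the list of the vertices, the list of the edges, and
the list of the terminal sets (each a list of vertices). -/
abbrev Inst : Type := List ℕ × List (ℕ × ℕ) × List (List ℕ)

/-- The input graph. Its vertices are the members of the list `V`; two different vertices are
adjacent when one of the two ordered pairs they form is in the list `E`. -/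
def graph (V : List ℕ) (E : List (ℕ × ℕ)) : SimpleGraph {v // v ∈ V} where
  Adj u v := u ≠ v ∧ ((u.1, v.1) ∈ E ∨ (v.1, u.1) ∈ E)
  symm := ⟨fun _ _ h => ⟨h.1.symm, h.2.symm⟩⟩
  loopless := ⟨fun _ h => h.1 rfl⟩

/-- The graph `2P_1 + P_2`: the disjoint union of two vertices without an edge and two vertices
with an edge. -/
def twoP1P2 : SimpleGraph (Fin 2 ⊕ Fin 2) := (⊥ : SimpleGraph (Fin 2)) ⊕g (⊤ : SimpleGraph (Fin 2))

/-- The graph `G` is `H`-free: no induced subgraph of `G` is isomorphic to `H`. -/
def Free {α β : Type} (H : SimpleGraph α) (G : SimpleGraph β) : Prop := IsEmpty (H ↪g G)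

/-- The input is well formed: no vertex is listed twice, the terminal sets are nonempty sets of
vertices, and no vertex occurs twice in them (so they are pairwise disjoint). -/
def WellFormed (I : Inst) : Prop :=
  I.1.Nodup ∧ I.2.2.flatten.Nodup ∧ ∀ Z ∈ I.2.2, Z ≠ [] ∧ ∀ z ∈ Z, z ∈ I.1

/-- The set of vertices of the input graph which are in the list `Z`. -/
def vset (V Z : List ℕ) : Set {v // v ∈ V} := {v | v.1 ∈ Z}

/-- The number of terminal sets which induce a disconnected subgraph. -/
noncomputable def numDisc (I : Inst) : ℕ :=
  Nat.card {i : Fin I.2.2.length //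
    ¬ ((graph I.1 I.2.1).induce (vset I.1 (I.2.2.get i))).Connected}

/-- The number of nonterminals, that is, of vertices in no terminal set. -/
noncomputable def numFree (I : Inst) : ℕ := Nat.card {v : {v // v ∈ I.1} // ∀ Z ∈ I.2.2, v.1 ∉ Z}

/-- Disjoint Connected Subgraphs: there are pairwise disjoint vertex sets, the `i`-th one containing
the `i`-th terminal set and inducing a connected subgraph. -/
def DCS (I : Inst) : Prop :=
  ∃ S : Fin I.2.2.length → Set {v // v ∈ I.1},
    (∀ i, vset I.1 (I.2.2.get i) ⊆ S i ∧ ((graph I.1 I.2.1).induce (S i)).Connected) ∧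
    ∀ i j, i ≠ j → Disjoint (S i) (S j)

end Pool.Agent.Helper878_dcs
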