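import Pool.Agent.Helper878_dcs.Fam

/-!
# Instances with a large independent set of free vertices
-/

set_option autoImplicit false

namespace Pool.Agent.Helper878_dcs

open scoped Classical

variable (G : SimpleGraph ℕ)

/-- `v` is adjacent to no vertex of `Q` -/
def Qp (Q : Finset ℕ) (v : ℕ) : Prop := ∀ q ∈ Q, ¬ G.Adj v q

/-- `z` is an isolated vertex of `G[Z]` adjacent to no vertex of `Q` -/
def onA (Q Z : Finset ℕ) (z : ℕ) : Prop := z ∈ Z ∧ Qp G Q z ∧ ∀ z' ∈ Z, ¬ G.Adj z z'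

/-- the vertices that may be given to an index -/
def P2 (W Q Z : Finset ℕ) (w : ℕ) : Prop := w ∈ W ∧ ∀ z, onA G Q Z z → G.Adj w z

/-- the edges that may be given to an index -/
def E2 (W Q : Finset ℕ) {ι : Type} (Z : ι → Finset ℕ) (w w' : ℕ) : Prop :=
  w ∈ W ∧ w' ∈ W ∧ ¬ Qp G Q w ∧ ¬ Qp G Q w' ∧
    ∃ i z z', onA G Q (Z i) z ∧ onA G Q (Z i) z' ∧ z ≠ z' ∧ ¬ G.Adj w z ∧ ¬ G.Adj w' z'

variable {G}

section
variable {U Q Z : Finset ℕ}

theorem qp_indep (hK : KP G U) (hQU : Q ⊆ U) (hQ : ∀ x ∈ Q, ∀ y ∈ Q, ¬ G.Adj x y)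
    (h2 : 2 ≤ Q.card) {u v : ℕ} (hu : u ∈ U) (hv : v ∈ U) (qu : Qp G Q u) (qv : Qp G Q v) :
    ¬ G.Adj u v := by
  intro h
  obtain ⟨x, hx, y, hy, hxy⟩ := Finset.one_lt_card.1 (show 1 < _ from h2)
  exact hQ x hx y hy (hK u hu v hv x (hQU hx) y (hQU hy) h (qu x hx) (qv x hx) (qu y hy)
    (qv y hy) hxy)

theorem qp_unique (hK : KP G U) (hQU : Q ⊆ U) (hQ : ∀ x ∈ Q, ∀ y ∈ Q, ¬ G.Adj x y)
    (h2 : 2 ≤ Q.card) {v u u' : ℕ} (hv : v ∈ U) (hu : u ∈ U) (hu' : u' ∈ U) (qv : ¬ Qp G Q v)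
    (qu : Qp G Q u) (qu' : Qp G Q u') (h : ¬ G.Adj v u) (h' : ¬ G.Adj v u') : u = u' := by
  unfold Qp at qv
  push Not at qv
  obtain ⟨q, hq, hvq⟩ := qv
  by_contra hne
  exact qp_indep hK hQU hQ h2 hu hu' qu qu' (hK v hv q (hQU hq) u hu u' hu' hvq h
    (fun h => qu q hq h.symm) h' (fun h => qu' q hq h.symm) hne)

/-- If one class is on, then `q` sees every class which is not on. -/
theorem on_sees (hK : KP G U) (hQU : Q ⊆ U) (hQ : ∀ x ∈ Q, ∀ y ∈ Q, ¬ G.Adj x y)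
    (h2 : 2 ≤ Q.card) (hZU : Z ⊆ U) (hQZ : Disjoint Z Q) {z0 z q : ℕ} (h0 : onA G Q Z z0)
    (hz : z ∈ Z) (hn : ¬ onA G Q Z z) (hq : q ∈ Q) : ¬ miss G Z q z := by
  intro hm
  have hqz0 : q ≠ z0 := fun h => Finset.disjoint_left.1 hQZ h0.1 (h ▸ hq)
  by_cases hy : ∃ y ∈ Z, G.Adj z y
  · obtain ⟨y, hy, hzy⟩ := hy
    have := hK z (hZU hz) y (hZU hy) q (hQU hq) z0 (hZU h0.1) hzy
      (fun h => miss_self hz hm h.symm) (fun h => hm y hy (near_of_adj hzy) h.symm)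
      (fun h => h0.2.2 z hz h.symm) (fun h => h0.2.2 y hy h.symm) hqz0
    exact h0.2.1 q hq this.symm
  · push Not at hy
    have hqz : ¬ Qp G Q z := fun h => hn ⟨hz, h, hy⟩
    exact hqz0 (qp_unique hK hQU hQ h2 (hZU hz) (hQU hq) (hZU h0.1) hqz (hQ q hq) h0.2.1
      (fun h => miss_self hz hm h.symm) (fun h => h0.2.2 z hz h.symm))

/-- If two classes are on, then all are. -/
theorem all_on (hK : KP G U) (hQU : Q ⊆ U) (hQ : ∀ x ∈ Q, ∀ y ∈ Q, ¬ G.Adj x y)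
    (h2 : 2 ≤ Q.card) (hZU : Z ⊆ U) {z0 z1 : ℕ} (h0 : onA G Q Z z0) (h1 : onA G Q Z z1)
    (h01 : z0 ≠ z1) : ∀ z ∈ Z, onA G Q Z z := by
  intro z hz
  refine ⟨hz, ?_, ?_⟩
  · by_contra hq
    exact h01 (qp_unique hK hQU hQ h2 (hZU hz) (hZU h0.1) (hZU h1.1) hq h0.2.1 h1.2.1
      (fun h => h0.2.2 z hz h.symm) (fun h => h1.2.2 z hz h.symm))
  · intro y hy hzy
    exact h0.2.2 z1 h1.1 (hK z (hZU hz) y (hZU hy) z0 (hZU h0.1) z1 (hZU h1.1) hzy
      (fun h => h0.2.2 z hz h.symm) (fun h => h0.2.2 y hy h.symm)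
      (fun h => h1.2.2 z hz h.symm) (fun h => h1.2.2 y hy h.symm) h01)

theorem sees_on {z0 b : ℕ} (h0 : onA G Q Z z0) (h : ¬ miss G Z b z0) : G.Adj b z0 := by
  unfold miss at h
  push Not at h
  obtain ⟨z', hz', hn, ha⟩ := h
  rcases hn with h | h | ⟨p, hp, h, _⟩
  · rw [h]; exact ha
  · exact absurd h (h0.2.2 z' hz')
  · exact absurd h (h0.2.2 p hp)

/-- An index without any class on is served by any three vertices of `Q`. -/
theorem off_serve (hK : KP G U) (hQU : Q ⊆ U) (hQ : ∀ x ∈ Q, ∀ y ∈ Q, ¬ G.Adj x y)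
    (h2 : 2 ≤ Q.card) (hZU : Z ⊆ U) (hne : Z.Nonempty) (hd : ¬ Con G Z)
    (hoff : ∀ z, ¬ onA G Q Z z) (R : Finset ℕ) (hR : R.card + 3 ≤ Q.card) :
    ∃ o : Finset ℕ, o ⊆ Q ∧ Disjoint o R ∧ o.card ≤ 2 ∧ Con G (Z ∪ o) := by
  have hun : ∀ z ∈ Z, ∀ q ∈ Q, ∀ q' ∈ Q, miss G Z q z → miss G Z q' z → q = q' := by
    intro z hz q hq q' hq' m m'
    by_contra hqq
    by_cases hy : ∃ y ∈ Z, G.Adj z y
    · obtain ⟨y, hy, hzy⟩ := hy
      exact hQ q hq q' hq' (hK z (hZU hz) y (hZU hy) q (hQU hq) q' (hQU hq') hzy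
        (fun h => miss_self hz m h.symm) (fun h => m y hy (near_of_adj hzy) h.symm)
        (fun h => miss_self hz m' h.symm) (fun h => m' y hy (near_of_adj hzy) h.symm) hqq)
    · push Not at hy
      have hqz : ¬ Qp G Q z := fun h => hoff z ⟨hz, h, hy⟩
      exact hqq (qp_unique hK hQU hQ h2 (hZU hz) (hQU hq) (hQU hq') hqz (hQ q hq) (hQ q' hq')
        (fun h => miss_self hz m h.symm) (fun h => miss_self hz m' h.symm))
  have h3 : 2 < (Q \ R).card := by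
    have := Finset.le_card_sdiff R Q
    omega
  obtain ⟨a, ha, b, hb, c, hc, hab, hac, hbc⟩ := Finset.two_lt_card.1 h3
  rw [Finset.mem_sdiff] at ha hb hc
  have single : ∀ q ∈ Q, q ∉ R → (∀ z ∈ Z, ¬ miss G Z q z) →
      ∃ o : Finset ℕ, o ⊆ Q ∧ Disjoint o R ∧ o.card ≤ 2 ∧ Con G (Z ∪ o) := fun q hq hqR h =>
    ⟨{q}, by simpa using hq, by simpa using hqR, by simp, con_single hne h⟩
  by_cases hca : ∀ z ∈ Z, ¬ miss G Z c z
  · exact single c hc.1 hc.2 hca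
  push Not at hca
  obtain ⟨z3, hz3, m3⟩ := hca
  refine ⟨{a, b}, ?_, ?_, Finset.card_le_two, ?_⟩
  · intro v hv
    rw [Finset.mem_insert, Finset.mem_singleton] at hv
    rcases hv with rfl | rfl
    · exact ha.1
    · exact hb.1
  · rw [Finset.disjoint_left]
    intro v hv
    rw [Finset.mem_insert, Finset.mem_singleton] at hv
    rcases hv with rfl | rfl
    · exact ha.2
    · exact hb.2
  · refine con_pair hne (fun z hz => ?_) (Or.inr ⟨z3, hz3, fun m => ?_, fun m => ?_⟩)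
    · by_contra hno
      push Not at hno
      exact hab (hun z hz a ha.1 b hb.1 hno.1 hno.2)
    · exact hac (hun z3 hz3 a ha.1 c hc.1 m m3)
    · exact hbc (hun z3 hz3 b hb.1 c hc.1 m m3)

end

section family
variable {ι : Type} [Fintype ι] [DecidableEq ι] {U W Q : Finset ℕ} {Z : ι → Finset ℕ} {k : ℕ}

/-- the indices with a class which is on -/
noncomputable def Hd2 (G : SimpleGraph ℕ) (Q : Finset ℕ) (Z : ι → Finset ℕ) : Finset ι :=
  Finset.univ.filter fun i => ∃ z, onA G Q (Z i) z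

theorem method2_nec (hC : Ctx G U W Z) (hQW : Q ⊆ W) (hQ : ∀ x ∈ Q, ∀ y ∈ Q, ¬ G.Adj x y)
    (h2 : 2 ≤ Q.card) (hF : Feas G W Z) :
    Assign (Hd2 G Q Z) (fun i => P2 G W Q (Z i)) (E2 G W Q Z) := by
  obtain ⟨o, ho, hdo⟩ := hF
  have hQU : Q ⊆ U := hQW.trans hC.hW
  have key : ∀ i, ∃ s : Finset ℕ, i ∈ Hd2 G Q Z → s ⊆ o i ∧
      ((∃ w, s = {w} ∧ P2 G W Q (Z i) w) ∨ ∃ w w', w ≠ w' ∧ s = {w, w'} ∧ E2 G W Q Z w w') := by
    intro i
    by_cases hi : i ∈ Hd2 G Q Z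
    swap
    · exact ⟨∅, fun h => absurd h hi⟩
    unfold Hd2 at hi
    rw [Finset.mem_filter] at hi
    obtain ⟨_, z0, h0⟩ := hi
    have hsd : ∀ x ∈ (Z i ∪ o i) \ Z i, x ∈ o i ∧ x ∈ W := by
      intro x hx
      rw [Finset.mem_sdiff, Finset.mem_union] at hx
      rcases hx.1 with h | h
      · exact absurd h hx.2
      · exact ⟨h, (ho i).1 h⟩
    by_cases hex : ∃ b ∈ o i, P2 G W Q (Z i) b
    · obtain ⟨b, hb, hPb⟩ := hex
      exact ⟨{b}, fun _ => ⟨by simpa using hb, Or.inl ⟨b, rfl, hPb⟩⟩⟩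
    push Not at hex
    have hnot : ∀ b ∈ o i, ∃ z, onA G Q (Z i) z ∧ ¬ G.Adj b z := by
      intro b hb
      have h := hex b hb
      unfold P2 at h
      push Not at h
      exact h ((ho i).1 hb)
    obtain ⟨b1, hb1, hb1z⟩ := exists_sees hC.hK (hC.hZ i) (hC.hne i) (hC.hdc i)
      Finset.subset_union_left (ho i).2 h0.1
    have a1 := sees_on h0 hb1z
    obtain ⟨z2, hz2, n2⟩ := hnot b1 (hsd b1 hb1).1
    obtain ⟨b2, hb2, hb2z⟩ := exists_sees hC.hK (hC.hZ i) (hC.hne i) (hC.hdc i)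
      Finset.subset_union_left (ho i).2 hz2.1
    have a2 := sees_on hz2 hb2z
    obtain ⟨z3, hz3, n3⟩ := hnot b2 (hsd b2 hb2).1
    have q1 : ¬ Qp G Q b1 := fun h => qp_indep hC.hK hQU hQ h2 (hC.hW (hsd b1 hb1).2)
      (hC.hZ i h0.1) h h0.2.1 a1
    have q2 : ¬ Qp G Q b2 := fun h => qp_indep hC.hK hQU hQ h2 (hC.hW (hsd b2 hb2).2)
      (hC.hZ i hz2.1) h hz2.2.1 a2
    refine ⟨{b1, b2}, fun _ => ⟨?_, Or.inr ⟨b1, b2, fun h => n2 (h ▸ a2), rfl, (hsd b1 hb1).2,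
      (hsd b2 hb2).2, q1, q2, i, z2, z3, hz2, hz3, fun h => n3 (h ▸ a2), n2, n3⟩⟩⟩
    intro v hv
    rw [Finset.mem_insert, Finset.mem_singleton] at hv
    rcases hv with rfl | rfl
    · exact (hsd _ hb1).1
    · exact (hsd _ hb2).1
  choose s hs using key
  exact ⟨s, fun i hi j hj hij => (hdo i j hij).mono (hs i hi).1 (hs j hj).1, fun i hi => (hs i hi).2⟩

theorem method2_suf (hC : Ctx G U W Z) (hQW : Q ⊆ W) (hQ : ∀ x ∈ Q, ∀ y ∈ Q, ¬ G.Adj x y)
    (hk : 1 ≤ k) (hQk : 2 * k + 1 ≤ Q.card) (hcard : Fintype.card ι ≤ k)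
    (hA : Assign (Hd2 G Q Z) (fun i => P2 G W Q (Z i)) (E2 G W Q Z)) :
    Feas G W Z := by
  obtain ⟨g, hg1, hg2⟩ := hA
  set Hd := Hd2 G Q Z with hHd
  have hQU : Q ⊆ U := hQW.trans hC.hW
  have h2 : 2 ≤ Q.card := by omega
  have hQZ : ∀ i, Disjoint (Z i) Q := fun i => (hC.hZW i).mono_right hQW
  have hgW : ∀ i ∈ Hd, ∀ v ∈ g i, v ∈ W ∧ ¬ Qp G Q v := by
    intro i hi v hv
    have hi' := hi
    rw [hHd, Hd2, Finset.mem_filter] at hi'
    obtain ⟨_, z0, h0⟩ := hi'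
    rcases hg2 i hi with ⟨w, h, h'⟩ | ⟨w, w', _, h, h'⟩
    · rw [h, Finset.mem_singleton] at hv
      subst hv
      exact ⟨h'.1, fun hq => qp_indep hC.hK hQU hQ h2 (hC.hW h'.1) (hC.hZ i h0.1) hq h0.2.1
        (h'.2 z0 h0)⟩
    · rw [h, Finset.mem_insert, Finset.mem_singleton] at hv
      rcases hv with rfl | rfl
      · exact ⟨h'.1, h'.2.2.1⟩
      · exact ⟨h'.2.1, h'.2.2.2.1⟩
  have hHk : Hd.card ≤ k := (Finset.card_le_univ Hd).trans hcard
  -- partners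
  obtain ⟨p, hp1, hp2⟩ := seq_choice Hd 1 (fun i s => s ⊆ Q ∧ Con G (Z i ∪ (g i ∪ s))) ∅ (by
      intro i hi R _ hRc
      have hi' := hi
      rw [hHd, Hd2, Finset.mem_filter] at hi'
      obtain ⟨_, z0, h0⟩ := hi'
      have h1 : 1 ≤ Hd.card := Finset.card_pos.2 ⟨i, hi⟩
      have hRc' : R.card ≤ k - 1 := by
        rw [Finset.card_empty] at hRc
        omega
      rcases hg2 i hi with ⟨w, hw, hwW, hwz⟩ |
        ⟨w, w', hww', hw, hwW, hw'W, qw, qw', j, z, z', hz, hz', hzz', nz, nz'⟩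
      · have qw := (hgW i hi w (by rw [hw]; simp)).2
        -- a partner adjacent to `w`
        obtain ⟨l, hlQ, hlR, hwl⟩ : ∃ l ∈ Q, l ∉ R ∧ G.Adj w l := by
          have h3 : 1 < (Q \ R).card := by
            have := Finset.le_card_sdiff R Q
            omega
          obtain ⟨a, ha, b, hb, hab⟩ := Finset.one_lt_card.1 h3
          rw [Finset.mem_sdiff] at ha hb
          by_cases h : G.Adj w a
          · exact ⟨a, ha.1, ha.2, h⟩
          · by_cases h' : G.Adj w b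
            · exact ⟨b, hb.1, hb.2, h'⟩
            · exact absurd (qp_unique hC.hK hQU hQ h2 (hC.hW hwW) (hQU ha.1) (hQU hb.1) qw
                (hQ a ha.1) (hQ b hb.1) h h') hab
        refine ⟨{l}, by simpa using hlR, by simp, by simpa using hlQ, ?_⟩
        rw [hw]
        have := con_pair (hC.hne i) (a := w) (b := l) (fun z hz => ?_) (Or.inl hwl)
        · exact this
        · by_cases hon : onA G Q (Z i) z
          · exact Or.inl fun hm => miss_self hz hm (hwz z hon)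
          · exact Or.inr (on_sees hC.hK hQU hQ h2 (hC.hZ i) (hQZ i) h0 hz hon hlQ)
      · obtain ⟨l, hl⟩ : (Q \ R).Nonempty := Finset.card_pos.1 (by
          have := Finset.le_card_sdiff R Q
          omega)
        rw [Finset.mem_sdiff] at hl
        have hwadj : ∀ u ∈ U, Qp G Q u → u ≠ z → G.Adj w u := fun u hu hq hne => by
          by_contra h
          exact hne (qp_unique hC.hK hQU hQ h2 (hC.hW hwW) hu (hC.hZ j hz.1) qw hq hz.2.1 h nz)
        have hw'adj : ∀ u ∈ U, Qp G Q u → u ≠ z' → G.Adj w' u := fun u hu hq hne => by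
          by_contra h
          exact hne (qp_unique hC.hK hQU hQ h2 (hC.hW hw'W) hu (hC.hZ j hz'.1) qw' hq hz'.2.1 h
            nz')
        have hlz : ∀ x ∈ Z j, l ≠ x := fun x hx h =>
          Finset.disjoint_left.1 (hQZ j) hx (h ▸ hl.1)
        refine ⟨{l}, by simpa using hl.2, by simp, by simpa using hl.1, ?_⟩
        have := con_triple (hC.hne i) (a := w) (b := w') (l := l) (fun x hx => ?_)
          (hwadj l (hQU hl.1) (hQ l hl.1) (hlz z hz.1)) (hw'adj l (hQU hl.1) (hQ l hl.1)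
          (hlz z' hz'.1))
        · rw [hw]
          convert this using 2
          ext v
          simp only [Finset.mem_union, Finset.mem_singleton, Finset.mem_insert]
          tauto
        · by_cases hon : onA G Q (Z i) x
          · by_cases hxz : x = z
            · refine Or.inr (Or.inl fun hm => miss_self hx hm (hw'adj x (hC.hZ i hx) hon.2.1 ?_))
              rw [hxz]; exact hzz'
            · exact Or.inl fun hm => miss_self hx hm (hwadj x (hC.hZ i hx) hon.2.1 hxz)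
          · exact Or.inr (Or.inr (on_sees hC.hK hQU hQ h2 (hC.hZ i) (hQZ i) h0 hx hon hl.1)))
  have hpc : (Hd.biUnion p).card ≤ Hd.card * 1 :=
    Finset.card_biUnion_le_card_mul Hd p 1 fun i hi => (hp1 i hi).2.1
  have hcompl : Hd.card + (Finset.univ \ Hd).card = Fintype.card ι := by
    rw [Finset.card_sdiff_of_subset (Finset.subset_univ _), Finset.card_univ]
    have := Finset.card_le_univ Hd
    omega
  obtain ⟨e, he1, he2⟩ := seq_choice (Finset.univ \ Hd) 2 (fun i s => s ⊆ Q ∧ Con G (Z i ∪ s))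
    (Hd.biUnion p) (by
      intro i hi R _ hRc
      have h1 : 1 ≤ (Finset.univ \ Hd).card := Finset.card_pos.2 ⟨i, hi⟩
      have hoff : ∀ z, ¬ onA G Q (Z i) z := by
        intro z hz
        rw [Finset.mem_sdiff] at hi
        refine hi.2 ?_
        rw [hHd, Hd2, Finset.mem_filter]
        exact ⟨Finset.mem_univ _, z, hz⟩
      obtain ⟨o, ho1, ho2, ho3, ho4⟩ := off_serve hC.hK hQU hQ h2 (hC.hZ i) (hC.hne i)
        (hC.hdc i) hoff R (by omega)
      exact ⟨o, ho2, ho3, ho1, ho4⟩)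
  have hdisj : ∀ i ∈ Hd, ∀ s : Finset ℕ, s ⊆ Q → Disjoint (g i) s := by
    intro i hi s hs
    rw [Finset.disjoint_left]
    intro v hv hvs
    exact (hgW i hi v hv).2 (hQ v (hs hvs))
  refine ⟨fun i => if i ∈ Hd then g i ∪ p i else e i, ?_, ?_⟩
  · intro i
    by_cases hi : i ∈ Hd
    · simp only [hi, if_true]
      exact ⟨Finset.union_subset (fun v hv => (hgW i hi v hv).1) ((hp1 i hi).1.1.trans hQW),
        (hp1 i hi).1.2⟩
    · simp only [hi, if_false]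
      have := (he1 i (Finset.mem_sdiff.2 ⟨Finset.mem_univ _, hi⟩)).1
      exact ⟨this.1.trans hQW, this.2⟩
  · intro i j hij
    have hmix : ∀ i ∈ Hd, ∀ j, j ∉ Hd → Disjoint (g i ∪ p i) (e j) := by
      intro i hi j hj
      have hj' := he1 j (Finset.mem_sdiff.2 ⟨Finset.mem_univ _, hj⟩)
      rw [Finset.disjoint_union_left]
      exact ⟨hdisj i hi _ hj'.1.1, (hj'.2.2.mono_right (Finset.subset_biUnion_of_mem p hi)).symm⟩
    by_cases hi : i ∈ Hd <;> by_cases hj : j ∈ Hd <;> simp only [hi, hj, if_true, if_false]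
    · rw [Finset.disjoint_union_left, Finset.disjoint_union_right, Finset.disjoint_union_right]
      exact ⟨⟨hg1 i hi j hj hij, hdisj i hi _ (hp1 j hj).1.1⟩,
        (hdisj j hj _ (hp1 i hi).1.1).symm, hp2 i hi j hj hij⟩
    · exact hmix i hi j hj
    · exact (hmix j hj i hi).symm
    · exact he2 i (Finset.mem_sdiff.2 ⟨Finset.mem_univ _, hi⟩) j
        (Finset.mem_sdiff.2 ⟨Finset.mem_univ _, hj⟩) hij

end family

end Pool.Agent.Helper878_dcs
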